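import Mathlib
import Pool.Agent.Lib.H55P.S9

open NumberField IsDedekindDomain
open scoped Pointwise

namespace H13S

open H55P

theorem in1_inv_gt {Γ : Type*} [LinearOrderedCommGroupWithZero Γ] {a : Γ} (h0 : 0 < a) (h : a < 1) : 1 < a⁻¹ :=
  (one_lt_inv₀ h0).2 h

/-- The residue characteristic of a valuation ring of algebraic numbers. -/
theorem in1_char {F₀ : Type} [Field F₀] [NumberField F₀] {Ω : Type} [Field Ω] [Algebra F₀ Ω]
    [IsAlgClosed Ω] [Algebra.IsAlgebraic F₀ Ω] [CharZero Ω] (V : ValuationSubring Ω) (hV : V ≠ ⊤) :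
    ∃ q : ℕ, q.Prime ∧ V.valuation (q : Ω) < 1 := by
  classical
  have h1 : ∃ x : Ω, x ∉ V := by
    by_contra hcon
    push Not at hcon
    exact hV (top_le_iff.1 (fun x _ => hcon x))
  obtain ⟨x, hx⟩ := h1
  have hx1 : 1 < V.valuation x := by
    rw [← V.valuation_le_one_iff] at hx
    exact not_le.1 hx
  have hx0 : x ≠ 0 := by
    rintro rfl
    exact hx V.zero_mem
  have hy : V.valuation x⁻¹ < 1 := by
    rw [map_inv₀]
    exact inv_lt_one_of_one_lt₀ hx1
  have halQ : Algebra.IsAlgebraic ℚ F₀ := inferInstance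
  have hint0 : IsIntegral F₀ x⁻¹ := Algebra.IsIntegral.isIntegral x⁻¹
  have hintQ : IsIntegral ℚ x⁻¹ := by
    have : Algebra.IsIntegral ℚ F₀ := inferInstance
    exact isIntegral_trans (R := ℚ) (A := F₀) _ hint0
  have halg : IsAlgebraic ℤ x⁻¹ := (IsFractionRing.isAlgebraic_iff ℤ ℚ Ω).2 hintQ.isAlgebraic
  obtain ⟨n, hn, hnz⟩ := halg.exists_integral_multiple
  have hz0 : n • x⁻¹ ≠ 0 := by
    rw [zsmul_eq_mul]
    exact mul_ne_zero (Int.cast_ne_zero.2 hn) (inv_ne_zero hx0)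
  have hzV : V.valuation (n • x⁻¹) < 1 := by
    rw [zsmul_eq_mul, map_mul]
    refine lt_of_le_of_lt (mul_le_of_le_one_left' ?_) hy
    exact H16C.FR_le_one V (isIntegral_intCast n)
  have hzQ : (⟨n • x⁻¹, hnz⟩ : 𝓞 Ω) ∈ ps9Q V := (ps9_lt V _).2 hzV
  have hne : (ps9Q V).comap (algebraMap ℤ (𝓞 Ω)) ≠ ⊥ := by
    refine Ideal.comap_ne_bot_of_integral_mem (x := (⟨n • x⁻¹, hnz⟩ : 𝓞 Ω)) ?_ hzQ ?_
    · intro h
      apply hz0
      exact congrArg (fun y : 𝓞 Ω => (y : Ω)) h
    · exact Algebra.IsIntegral.isIntegral _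
  have hp : ((ps9Q V).comap (algebraMap ℤ (𝓞 Ω))).IsPrime := by
    have := ps9_prime V
    infer_instance
  obtain ⟨P, hP⟩ : ∃ P, P = (ps9Q V).comap (algebraMap ℤ (𝓞 Ω)) := ⟨_, rfl⟩
  rw [← hP] at hne hp
  have h2 := Submodule.IsPrincipal.prime_generator_of_isPrime P hne
  obtain ⟨g, hg⟩ : ∃ g, g = Submodule.IsPrincipal.generator P := ⟨_, rfl⟩
  rw [← hg] at h2
  have hgP : g ∈ P := by
    rw [hg]
    exact Submodule.IsPrincipal.generator_mem P
  have hqP : ((g.natAbs : ℕ) : ℤ) ∈ P := by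
    rcases Int.natAbs_eq g with h | h
    · rw [← h]; exact hgP
    · have h3 : ((g.natAbs : ℕ) : ℤ) = -g := by omega
      rw [h3]
      exact P.neg_mem hgP
  refine ⟨g.natAbs, Int.prime_iff_natAbs_prime.1 h2, ?_⟩
  rw [hP, Ideal.mem_comap, ps9_lt] at hqP
  simpa using hqP

/-- Chunk IN1 (M/L). Inertia groups of infinite extensions surject onto those of finite extensions. s is an
automorphism of Ω mapping the finite subfield N to itself and acting on N as an element of the inertia group of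
V; then some s' in the inertia group of V has the same restriction to N.

Proof. B = all algebraic integers of Ω (integralClosure ℤ Ω), A = 𝓞 N (or the integers of N), G = Ω ≃ₐ[N] Ω
(= N.fixingSubgroup) acts on B with invariants A, profinite (krullTopology: compact, totally disconnected), continuous
for the discrete topology of B. Wb = {x in B : V.valuation x < 1} is a prime ideal of B. B is contained in V (V is
integrally closed), and every x in V is b/d with b, d in B, V.valuation d = 1 (x lies in a number field E; V ∩ E contains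
𝓞 E, so it is the localisation of 𝓞 E at {V.valuation < 1}: HeightOneSpectrum or bottom; or: choose an ideal-theoretic
denominator). For x in N: s x in V iff x in V (if x in V then s x = x + (s x - x) in V; if s x in V, x not in V, then
1/x in V with value < 1, so s(1/x) has value < 1, contradiction). Hence s⁻¹-translate (or translate) Wb' of Wb under s has the
same intersection with N as Wb: Algebra.IsInvariant.exists_smul_of_under_eq_of_profinite (Mathlib, RingTheory/Invariant/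
Profinite) gives u in G with u s Wb = Wb. u s acts on B/Wb (an algebraic extension of the field A/(Wb ∩ A) or of A if Wb ∩ A = 0: it is a
prime ideal in any case) over A/(Wb ∩ A), because s acts trivially on A modulo Wb:
Ideal.Quotient.stabilizerHom_surjective_of_profinite gives u2 in G with u2 Wb = Wb and the same action on B/Wb. s' = u2⁻¹ u s: it acts trivially on
B/Wb, and for x = b/d in V: s' x - x = (s' b d - b s' d)/(d s' d) has value < 1. On N: s' = s. If V.valuation < 1 never happens on B (V contains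
all 1/b, V = ⊤), s' = s works directly (V.valuation (s x - x) < 1 forces s x = x on N, take s' = 1). -/
theorem inertia_lift {F₀ : Type} [Field F₀] [NumberField F₀] {Ω : Type} [Field Ω] [Algebra F₀ Ω]
    [IsAlgClosure F₀ Ω] (N : IntermediateField F₀ Ω) [FiniteDimensional F₀ N] (V : ValuationSubring Ω)
    (s : Ω ≃ₐ[F₀] Ω) (hN : ∀ x ∈ N, s x ∈ N) (hI : ∀ x ∈ N, x ∈ V → V.valuation (s x - x) < 1) :
    ∃ s' : Ω ≃ₐ[F₀] Ω, Inert V s' ∧ ∀ x ∈ N, s' x = s x := by
  classical
  have hcl0 : IsAlgClosed Ω := IsAlgClosure.isAlgClosed F₀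
  have hal0 : Algebra.IsAlgebraic F₀ Ω := IsAlgClosure.isAlgebraic
  have hc0 : CharZero Ω := charZero_of_injective_algebraMap (algebraMap F₀ Ω).injective
  by_cases hV : V = ⊤
  · refine ⟨1, ?_, ?_⟩
    · intro x _
      simp
    · intro x hx
      have h1 := hI x hx (by rw [hV]; trivial)
      by_contra hne
      have hne' : s x - x ≠ 0 := sub_ne_zero.2 (fun h => hne h.symm)
      have h2 : V.valuation (s x - x)⁻¹ ≤ 1 := (V.valuation_le_one_iff _).2 (by rw [hV]; trivial)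
      rw [map_inv₀] at h2
      have h3 : V.valuation (s x - x) ≠ 0 := (Valuation.ne_zero_iff _).2 hne'
      have h4 := in1_inv_gt (zero_lt_iff.2 h3) h1
      exact absurd h2 (not_le.2 h4)
  obtain ⟨q, hq, hqV⟩ := in1_char (F₀ := F₀) V hV
  have hMn : NumberField N := NumberField.of_module_finite F₀ N
  have hal : Algebra.IsAlgebraic N Ω := Algebra.IsAlgebraic.tower_top (K := F₀) N
  have hcl : IsAlgClosure N Ω := ⟨inferInstance, hal⟩
  have hG : IsGalois N Ω := IsAlgClosure.isGalois N Ω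
  -- s on N preserves the values below one
  have hmemV : ∀ x : Ω, V.valuation x < 1 → x ∈ V := fun x hx => (V.valuation_le_one_iff _).1 hx.le
  have hlt1 : ∀ x ∈ N, V.valuation x < 1 → V.valuation (s x) < 1 := by
    intro x hx h
    have h1 := hI x hx (hmemV x h)
    have h2 : s x = (s x - x) + x := by ring
    rw [h2]
    exact V.valuation.map_add_lt h1 h
  have hlt2 : ∀ x ∈ N, V.valuation (s x) < 1 → V.valuation x < 1 := by
    intro x hx h
    rcases lt_trichotomy (V.valuation x) 1 with h1 | h1 | h1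
    · exact h1
    · exfalso
      have h2 := hI x hx ((V.valuation_le_one_iff _).1 h1.le)
      have h3 : V.valuation x < 1 := by
        have h4 : x = s x - (s x - x) := by ring
        rw [h4]
        exact lt_of_le_of_lt (V.valuation.map_sub _ _) (max_lt h h2)
      rw [h1] at h3
      exact lt_irrefl _ h3
    · exfalso
      have h2 : V.valuation x⁻¹ < 1 := by
        rw [map_inv₀]
        exact inv_lt_one_of_one_lt₀ h1
      have h3 := hlt1 x⁻¹ (N.inv_mem hx) h2
      rw [map_inv₀ s, map_inv₀] at h3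
      have hx0 : x ≠ 0 := by
        rintro rfl
        rw [map_zero] at h1
        exact absurd h1 (not_lt.2 zero_le_one)
      have h4 : V.valuation (s x) ≠ 0 := (Valuation.ne_zero_iff _).2 (by
        intro h5
        exact hx0 (s.injective (by rw [h5, map_zero])))
      have h5 := in1_inv_gt (zero_lt_iff.2 h4) h
      exact lt_irrefl _ (h3.trans h5)
  -- s is surjective on N
  have hsurj : ∀ y ∈ N, ∃ x ∈ N, s x = y := by
    let f : N →ₗ[F₀] N := LinearMap.restrict s.toLinearMap (p := N.toSubmodule) (q := N.toSubmodule) hN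
    have hf : Function.Injective f := by
      intro a b hab
      have h1 := congrArg (fun y : N => (y : Ω)) hab
      exact Subtype.ext (s.injective h1)
    have hf' : Function.Surjective f := LinearMap.injective_iff_surjective.1 hf
    intro y hy
    obtain ⟨x, hx⟩ := hf' ⟨y, hy⟩
    exact ⟨x, x.2, congrArg (fun y : N => (y : Ω)) hx⟩
  obtain ⟨Q, hQ⟩ : ∃ Q : Ideal (𝓞 Ω), Q = ps9Q V := ⟨_, rfl⟩
  have hQlt : ∀ z : 𝓞 Ω, z ∈ Q ↔ V.valuation (z : Ω) < 1 := by
    intro z
    rw [hQ]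
    exact ps9_lt V z
  have hQp : Q.IsPrime := by
    rw [hQ]
    exact ps9_prime V
  have hinv := ps9_inv (Ω := Ω) N
  have hsc : SMulCommClass Gal(Ω/N) (𝓞 N) (𝓞 Ω) := by
    constructor
    intro g a z
    rw [Algebra.smul_def, Algebra.smul_def, smul_mul']
    congr 1
    apply RingOfIntegers.ext
    exact g.commutes (a : N)
  let _ : TopologicalSpace (𝓞 Ω) := ⊥
  have : DiscreteTopology (𝓞 Ω) := ⟨rfl⟩
  have hcont : ContinuousSMul Gal(Ω/N) (𝓞 Ω) := by
    rw [continuousSMul_iff_stabilizer_isOpen]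
    intro z
    have h1 := stabilizer_isOpen_of_isIntegral (K := N) (z : Ω)
    convert! h1 using 1
    ext g
    simp only [SetLike.mem_coe, MulAction.mem_stabilizer_iff]
    constructor
    · intro h
      exact congrArg (fun y : 𝓞 Ω => (y : Ω)) h
    · intro h
      exact RingOfIntegers.coe_injective h
  -- the translate of the prime under s
  let si : 𝓞 Ω →+* 𝓞 Ω := RingOfIntegers.mapRingHom s.symm
  have hsi : ∀ z : 𝓞 Ω, ((si z : 𝓞 Ω) : Ω) = s.symm (z : Ω) := fun z => rfl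
  let Q' : Ideal (𝓞 Ω) := Q.comap si
  have hQ'p : Q'.IsPrime := Ideal.comap_isPrime si Q
  have hQ' : ∀ z : 𝓞 Ω, z ∈ Q' ↔ V.valuation (s.symm (z : Ω)) < 1 := by
    intro z
    rw [Ideal.mem_comap, hQlt, hsi]
  have hunder : Q'.under (𝓞 N) = Q.under (𝓞 N) := by
    ext a
    show (algebraMap (𝓞 N) (𝓞 Ω) a : 𝓞 Ω) ∈ Q' ↔ (algebraMap (𝓞 N) (𝓞 Ω) a : 𝓞 Ω) ∈ Q
    rw [hQ', hQlt]
    have ha : ((algebraMap (𝓞 N) (𝓞 Ω) a : 𝓞 Ω) : Ω) ∈ N := (a : N).2
    obtain ⟨x, hx, hxa⟩ := hsurj _ ha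
    rw [← hxa, s.symm_apply_apply]
    exact ⟨fun h => hlt1 x hx h, fun h => hlt2 x hx h⟩
  obtain ⟨u, hu⟩ := Algebra.IsInvariant.exists_smul_of_under_eq_of_profinite (A := 𝓞 N) (B := 𝓞 Ω)
    (G := Gal(Ω/N)) Q' Q hunder
  have humem : ∀ z : 𝓞 Ω, u • z ∈ Q ↔ z ∈ Q' := by
    intro z
    rw [hu]
    exact Ideal.smul_mem_pointwise_smul_iff
  -- the automorphism t = u s
  obtain ⟨t, ht⟩ : ∃ t : Ω ≃ₐ[F₀] Ω, ∀ x, t x = u (s x) :=
    ⟨s.trans (u.restrictScalars F₀), fun x => rfl⟩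
  have htN : ∀ x ∈ N, t x = s x := by
    intro x hx
    rw [ht]
    exact u.commutes ⟨s x, hN x hx⟩
  let tB : 𝓞 Ω ≃+* 𝓞 Ω := RingOfIntegers.mapRingEquiv t
  have htB : ∀ z : 𝓞 Ω, ((tB z : 𝓞 Ω) : Ω) = t (z : Ω) := fun z => rfl
  have htQ : ∀ z : 𝓞 Ω, tB z ∈ Q ↔ z ∈ Q := by
    intro z
    have h1 : tB z = u • (RingOfIntegers.mapRingHom s z : 𝓞 Ω) := by
      apply RingOfIntegers.coe_injective
      show t (z : Ω) = u (s (z : Ω))
      exact ht _
    rw [h1, humem, hQ', hQlt]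
    show V.valuation (s.symm (s (z : Ω))) < 1 ↔ _
    rw [s.symm_apply_apply]
  have hmap : Q = Q.map (tB : 𝓞 Ω →+* 𝓞 Ω) := by
    ext z
    constructor
    · intro hz
      have h1 : tB (tB.symm z) = z := tB.apply_symm_apply z
      rw [← h1]
      refine Ideal.mem_map_of_mem _ ?_
      rw [← htQ, h1]
      exact hz
    · intro hz
      have h1 : Q.map (tB : 𝓞 Ω →+* 𝓞 Ω) ≤ Q := by
        rw [Ideal.map_le_iff_le_comap]
        intro w hw
        exact (htQ w).2 hw
      exact h1 hz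
  let P : Ideal (𝓞 N) := Q.under (𝓞 N)
  have hlo : Q.LiesOver P := ⟨rfl⟩
  let e0 : (𝓞 Ω ⧸ Q) ≃+* (𝓞 Ω ⧸ Q) := Ideal.quotientEquiv Q Q tB hmap
  have he0 : ∀ z : 𝓞 Ω, e0 (Ideal.Quotient.mk Q z) = Ideal.Quotient.mk Q (tB z) := fun z => rfl
  let e : (𝓞 Ω ⧸ Q) ≃ₐ[𝓞 N ⧸ P] (𝓞 Ω ⧸ Q) := AlgEquiv.ofRingEquiv (f := e0) (by
    intro r
    obtain ⟨a, rfl⟩ := Ideal.Quotient.mk_surjective r
    rw [Ideal.Quotient.algebraMap_mk_of_liesOver, he0, Ideal.Quotient.eq, hQlt]
    have ha : ((algebraMap (𝓞 N) (𝓞 Ω) a : 𝓞 Ω) : Ω) ∈ N := (a : N).2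
    have h1 := hI _ ha (ps9_mem V _)
    rw [← htN _ ha] at h1
    exact h1)
  obtain ⟨τ, hτ⟩ := Ideal.Quotient.stabilizerHom_surjective_of_profinite (G := Gal(Ω/N)) P Q e
  have hτ1 : ∀ z : 𝓞 Ω, (τ : Gal(Ω/N)) • z - tB z ∈ Q := by
    intro z
    rw [← Ideal.Quotient.eq]
    exact DFunLike.congr_fun hτ (Ideal.Quotient.mk Q z)
  have hτQ : ∀ z : 𝓞 Ω, (τ : Gal(Ω/N)) • z ∈ Q ↔ z ∈ Q := by
    intro z
    have h1 : (τ : Gal(Ω/N)) • Q = Q := τ.2
    have h2 : (τ : Gal(Ω/N)) • z ∈ (τ : Gal(Ω/N)) • Q ↔ z ∈ Q := Ideal.smul_mem_pointwise_smul_iff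
    rwa [h1] at h2
  obtain ⟨s', hs'⟩ : ∃ s' : Ω ≃ₐ[F₀] Ω, ∀ x, s' x = (τ : Gal(Ω/N)).symm (t x) :=
    ⟨t.trans ((τ : Gal(Ω/N)).symm.restrictScalars F₀), fun x => rfl⟩
  have hs'B : ∀ z : 𝓞 Ω, V.valuation (s' (z : Ω) - (z : Ω)) < 1 := by
    intro z
    have h1 : (τ : Gal(Ω/N)) • ((RingOfIntegers.mapRingHom s' z : 𝓞 Ω) - z) ∈ Q := by
      have h2 : (τ : Gal(Ω/N)) • ((RingOfIntegers.mapRingHom s' z : 𝓞 Ω) - z) =
          -((τ : Gal(Ω/N)) • z - tB z) := by
        rw [smul_sub]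
        have h3 : (τ : Gal(Ω/N)) • (RingOfIntegers.mapRingHom s' z : 𝓞 Ω) = tB z := by
          apply RingOfIntegers.coe_injective
          show (τ : Gal(Ω/N)) (s' (z : Ω)) = t (z : Ω)
          rw [hs']
          exact (τ : Gal(Ω/N)).apply_symm_apply _
        rw [h3]
        ring
      rw [h2]
      exact Q.neg_mem (hτ1 z)
    rw [hτQ, hQlt] at h1
    exact h1
  refine ⟨s', ?_, ?_⟩
  · intro x hx
    obtain ⟨a, c, hc, rfl⟩ := ps9_frac F₀ V q hq hqV x hx
    rw [map_div₀ s']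
    exact H16C.FR_div_congr V (hs'B a) (hs'B c) (H16C.FR_le_one V a.isIntegral_coe) hc
  · intro x hx
    rw [hs', htN x hx]
    exact (τ : Gal(Ω/N)).symm.commutes ⟨s x, hN x hx⟩

end H13S
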