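import Mathlib
import Pool.Agent.Lib.H16C.RM

open NumberField IsDedekindDomain

namespace H13S

/-- Chunk IN3 (M). An element fixed by the inertia group has the value of an element of the base field.
Proof. Let I be the inertia group of W, M = IntermediateField.fixedField I, u = W ∩ M, w = W ∩ K. ramificationIdx
(W over w) = card I (Ideal.card_inertia_eq_ramificationIdxIn or the like; see also H55C.inertia_iff and Lib/H55R/X8 for the
dictionary with ramificationIdx), the inertia group of W in Gal(N/M) is I again, so ramificationIdx(W over u) = card I, and by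
multiplicativity ramificationIdx (u over w) = 1. So a uniformizer t in K at w is a uniformizer at u; y in M, y = t^n
times a unit at u, W.valuation y = W.valuation (t^n). (Valuation of N restricted to M: W.valuation (algebraMap M N z) = u.valuation z ^ e, see
H55C or H35T (A4_val, ram lemmas), or valuation_comap in Mathlib.) -/
theorem value_fixed_fin (K N : Type) [Field K] [NumberField K] [Field N] [NumberField N] [Algebra K N]
    [IsGalois K N] (W : HeightOneSpectrum (𝓞 N)) (y : N) (hy : y ≠ 0)
    (h : ∀ s : N ≃ₐ[K] N, (∀ x : 𝓞 N, s • x - x ∈ W.asIdeal) → s y = y) :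
    ∃ a : K, a ≠ 0 ∧ W.valuation N y = W.valuation N (algebraMap K N a) := by
  have hP := W.isPrime
  have hp0 : W.asIdeal.under (𝓞 K) ≠ ⊥ := Ideal.under_ne_bot (𝓞 K) W.ne_bot
  let T : IntermediateField K N := FixedPoints.intermediateField (W.asIdeal.inertia Gal(N/K))
  have hT : IsGaloisGroup (W.asIdeal.inertia Gal(N/K)) T N :=
    IsGaloisGroup.subgroup Gal(N/K) K N (W.asIdeal.inertia Gal(N/K))
  have hyT : y ∈ T := by
    intro g
    exact h g.1 g.2
  obtain ⟨a, b, c, ha, hb, hc, he⟩ := H16C.RM_val (W.asIdeal.under (𝓞 K)) hp0 W.asIdeal W.ne_bot T hT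
    ⟨y, hyT⟩ (fun h0 => hy (congrArg Subtype.val h0))
  refine ⟨a, ha, ?_⟩
  have h1 := congrArg (W.valuation N) he
  have h2 : ∀ z : 𝓞 N, z ∉ W.asIdeal → W.valuation N (algebraMap (𝓞 N) N z) = 1 := by
    intro z hz
    exact le_antisymm (W.valuation_le_one z) (not_lt.1 fun h3 => hz ((W.valuation_lt_one_iff_mem z).1 h3))
  rw [map_mul, map_mul, h2 b hb, h2 c hc, mul_one, mul_one] at h1
  exact h1

end H13S
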