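import Mathlib
import Pool.Agent.Lib.H28G.Map
import Pool.Agent.Lib.H55B.Z2

/-!
# H13S: definitions

From Selmer classes of y^2 + y = x^3 over F = Q(om) to elements of the field of torsion points (part S of
the base case RB, problem MP_f50388). See PROOF.md.
-/

open NumberField IsDedekindDomain

namespace H13S

open H55P H28G H55B

/-- The valuation ring V of Ω lies above the prime w of the subfield K. -/
def Abv {F₀ : Type} [Field F₀] {Ω : Type} [Field Ω] [Algebra F₀ Ω] (K : IntermediateField F₀ Ω)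
    [NumberField K] (V : ValuationSubring Ω) (w : HeightOneSpectrum (𝓞 K)) : Prop :=
  ∀ x : K, (x : Ω) ∈ V ↔ w.valuation K x ≤ 1

variable {Ω : Type} [Field Ω] [DecidableEq Ω] [Algebra F Ω]

/-- The data: a primary prime element pi of O above the prime number l, and a cocycle c with values in the
points killed by the conjugate of pi, which is locally a coboundary on all inertia groups. -/
structure Cl (π : O) (l : ℕ) (c : (Ω ≃ₐ[F] Ω) → P27 Ω) : Prop where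
  hl : l.Prime
  five : 5 ≤ l
  pr : Prime π
  prim : Prim π
  dvd : π ∣ (l : O)
  mul : ∀ s t, c (s * t) = c s + ac W27 s (c t)
  cont : ∃ L : IntermediateField F Ω, FiniteDimensional F L ∧ ∀ s ∈ L.fixingSubgroup, c s = 0
  val : ∀ s, c s ∈ Tor (cj π) Ω
  loc : ∀ V : ValuationSubring Ω, ∃ P : P27 Ω, ∀ s, Inert V s → c s = ac W27 s P - P

/-- A Galois equivariant pairing between the points killed by the conjugate of pi and those killed by pi, with
values in the l-th roots of unity. -/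
structure Pairing (π : O) (l : ℕ) (e : P27 Ω → P27 Ω → Ω) : Prop where
  add_left : ∀ X ∈ Tor (cj π) Ω, ∀ X' ∈ Tor (cj π) Ω, ∀ T ∈ Tor π Ω, e (X + X') T = e X T * e X' T
  add_right : ∀ X ∈ Tor (cj π) Ω, ∀ T ∈ Tor π Ω, ∀ T' ∈ Tor π Ω, e X (T + T') = e X T * e X T'
  root : ∀ X ∈ Tor (cj π) Ω, ∀ T ∈ Tor π Ω, e X T ^ l = 1
  act : ∀ (s : Ω ≃ₐ[F] Ω), ∀ X ∈ Tor (cj π) Ω, ∀ T ∈ Tor π Ω, s (e X T) = e (ac W27 s X) (ac W27 s T)
  nondeg : ∀ X ∈ Tor (cj π) Ω, (∀ T ∈ Tor π Ω, e X T = 1) → X = 0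

/-- L is the field generated by the points killed by pi. -/
def IsTF (π : O) (L : IntermediateField F Ω) : Prop :=
  FiniteDimensional F L ∧ ∀ s : Ω ≃ₐ[F] Ω, s ∈ L.fixingSubgroup ↔ ∀ T ∈ Tor π Ω, ac W27 s T = T

/-- y is a Kummer generator for the point T. -/
def Kum (L : IntermediateField F Ω) (e : P27 Ω → P27 Ω → Ω) (c : (Ω ≃ₐ[F] Ω) → P27 Ω) (T : P27 Ω) (y : Ω) :
    Prop :=
  y ≠ 0 ∧ ∀ s ∈ L.fixingSubgroup, s y = e (c s) T * y

theorem ac_one (P : P27 Ω) : ac W27 (1 : Ω ≃ₐ[F] Ω) P = P := by cases P <;> rfl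

theorem ac_mul (s t : Ω ≃ₐ[F] Ω) (P : P27 Ω) : ac W27 (s * t) P = ac W27 s (ac W27 t P) := by
  cases P <;> rfl

theorem ac_inv (s : Ω ≃ₐ[F] Ω) (P : P27 Ω) : ac W27 s (ac W27 s⁻¹ P) = P := by
  rw [← ac_mul, mul_inv_cancel, ac_one]

theorem ac_act (s : Ω ≃ₐ[F] Ω) (a : O) (P : P27 Ω) : ac W27 s (act a P) = act a (ac W27 s P) :=
  mp_act s.toAlgHom a P

theorem ac_mem (s : Ω ≃ₐ[F] Ω) {a : O} {P : P27 Ω} (h : P ∈ Tor a Ω) : ac W27 s P ∈ Tor a Ω :=
  (mp_mem_Tor s.toAlgHom a P).2 h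

theorem Cl.one {π : O} {l : ℕ} {c : (Ω ≃ₐ[F] Ω) → P27 Ω} (h : Cl π l c) : c 1 = 0 := by
  have h1 := h.mul 1 1
  rw [mul_one, ac_one] at h1
  exact left_eq_add.mp h1

end H13S
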