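import Mathlib
import Pool.Agent.Lib.H13S.Defs

open NumberField IsDedekindDomain

namespace H13S

/-- The prime ideal below a valuation ring. -/
def vwI {F₀ : Type} [Field F₀] {Ω : Type} [Field Ω] [Algebra F₀ Ω]
    (K : IntermediateField F₀ Ω) [NumberField K] (V : ValuationSubring Ω) : Ideal (𝓞 K) where
  carrier := {z | V.valuation ((z : K) : Ω) < 1}
  zero_mem' := by
    show V.valuation (((0 : 𝓞 K) : K) : Ω) < 1
    simp
  add_mem' := by
    intro a b ha hb
    show V.valuation (((a + b : 𝓞 K) : K) : Ω) < 1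
    have e : (((a + b : 𝓞 K) : K) : Ω) = ((a : K) : Ω) + ((b : K) : Ω) := by simp
    rw [e]
    exact V.valuation.map_add_lt ha hb
  smul_mem' := by
    intro a b hb
    show V.valuation (((a * b : 𝓞 K) : K) : Ω) < 1
    have e : (((a * b : 𝓞 K) : K) : Ω) = ((a : K) : Ω) * ((b : K) : Ω) := by simp
    rw [e, map_mul]
    have h1 : IsIntegral ℤ ((a : K) : Ω) :=
      (RingOfIntegers.isIntegral_coe a).map (K.val.restrictScalars ℤ)
    have h2 : IsIntegral V ((a : K) : Ω) := h1.tower_top
    obtain ⟨y, hy⟩ := (IsIntegrallyClosed.isIntegral_iff (R := V) (K := Ω)).1 h2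
    have h3 : V.valuation ((a : K) : Ω) ≤ 1 := by
      rw [← hy]
      exact (V.valuation_le_one_iff _).2 y.2
    exact lt_of_le_of_lt (mul_le_of_le_one_left' h3) hb

theorem vw_int {F₀ : Type} [Field F₀] {Ω : Type} [Field Ω] [Algebra F₀ Ω]
    (K : IntermediateField F₀ Ω) [NumberField K] (V : ValuationSubring Ω) (a : 𝓞 K) :
    V.valuation ((a : K) : Ω) ≤ 1 := by
  have h1 : IsIntegral ℤ ((a : K) : Ω) :=
    (RingOfIntegers.isIntegral_coe a).map (K.val.restrictScalars ℤ)
  have h2 : IsIntegral V ((a : K) : Ω) := h1.tower_top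
  obtain ⟨y, hy⟩ := (IsIntegrallyClosed.isIntegral_iff (R := V) (K := Ω)).1 h2
  rw [← hy]
  exact (V.valuation_le_one_iff _).2 y.2

/-- Chunk VW (S/M). A valuation ring of Ω which does not contain K lies above a prime of K. Proof: V contains the algebraic integers of K
(V is integrally closed and contains the integers), P = {a in 𝓞 K : V.valuation a < 1} is a prime ideal; if it were 0 then V would contain all
quotients of algebraic integers, that is K. For w = P: w.valuation x ≤ 1 implies x = a/b with b not in P (valuation ring of w = localisation,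
e.g. IsDedekindDomain.HeightOneSpectrum.exists_adicValued_mul_sub_le or valuation_le_one iff ..), so x in V. Conversely if
w.valuation x > 1 then w.valuation (1/x) < 1, 1/x = a/b with a in P, b not in P, so V.valuation (1/x) < 1 and x is not in V. Also prove the second part: elements
of value < 1 correspond. -/
theorem exists_below {F₀ : Type} [Field F₀] {Ω : Type} [Field Ω] [Algebra F₀ Ω]
    (K : IntermediateField F₀ Ω) [NumberField K] (V : ValuationSubring Ω) (h : ∃ x : K, (x : Ω) ∉ V) :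
    ∃ w : HeightOneSpectrum (𝓞 K), Abv K V w := by
  have hP : ∀ z : 𝓞 K, z ∈ vwI K V ↔ V.valuation ((z : K) : Ω) < 1 := fun z => Iff.rfl
  have hP1 : ∀ z : 𝓞 K, z ∉ vwI K V → V.valuation ((z : K) : Ω) = 1 := fun z hz =>
    le_antisymm (vw_int K V z) (not_lt.1 fun h' => hz h')
  have hmul : ∀ a b : K, V.valuation ((a * b : K) : Ω) = V.valuation (a : Ω) * V.valuation (b : Ω) := by
    intro a b
    rw [← map_mul]
    rfl
  have hprime : (vwI K V).IsPrime := by
    refine Ideal.isPrime_iff.2 ⟨?_, ?_⟩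
    · intro h1
      have h2 : (1 : 𝓞 K) ∈ vwI K V := by rw [h1]; trivial
      rw [hP] at h2
      simp at h2
    · intro x y hxy
      by_contra hc
      rw [not_or] at hc
      rw [hP] at hxy
      have e : (((x * y : 𝓞 K) : K) : Ω) = ((x : K) : Ω) * ((y : K) : Ω) := by simp
      rw [e, map_mul, hP1 _ hc.1, hP1 _ hc.2, one_mul] at hxy
      exact lt_irrefl _ hxy
  have hne : vwI K V ≠ ⊥ := by
    intro h0
    obtain ⟨x, hx⟩ := h
    apply hx
    obtain ⟨a, b, hb, hab⟩ := IsFractionRing.div_surjective (A := 𝓞 K) x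
    have hb0 : b ≠ 0 := nonZeroDivisors.ne_zero hb
    have hb1 : V.valuation ((b : K) : Ω) = 1 := hP1 b fun h' => hb0 (by
      rw [h0, Ideal.mem_bot] at h'
      exact h')
    have hb2 : (b : K) ≠ 0 := fun h' => hb0 (RingOfIntegers.coe_injective (h'.trans (map_zero _).symm))
    have h1 : x * (b : K) = a := by
      rw [← hab]
      exact div_mul_cancel₀ _ hb2
    have h2 := hmul x (b : K)
    rw [h1, hb1, mul_one] at h2
    rw [← V.valuation_le_one_iff, ← h2]
    exact vw_int K V a
  let w : HeightOneSpectrum (𝓞 K) := ⟨vwI K V, hprime, hne⟩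
  refine ⟨w, fun x => ?_⟩
  rw [← V.valuation_le_one_iff]
  have hw1 : ∀ d : 𝓞 K, d ∉ vwI K V → w.valuation K (algebraMap (𝓞 K) K d) = 1 := fun d hd =>
    le_antisymm (w.valuation_le_one d) (not_lt.1 fun h' => hd ((w.valuation_lt_one_iff_mem d).1 h'))
  obtain ⟨n, d, hnd | hnd⟩ := w.exists_primeCompl_mul_eq_or_mul_eq x
  · have h1 := hmul x (algebraMap (𝓞 K) K (d : 𝓞 K))
    rw [hnd] at h1
    have h2 : V.valuation ((algebraMap (𝓞 K) K (d : 𝓞 K) : K) : Ω) = 1 := hP1 _ d.2
    rw [h2, mul_one] at h1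
    have h3 := congrArg (w.valuation K) hnd
    rw [map_mul, hw1 _ d.2, mul_one] at h3
    refine ⟨fun _ => ?_, fun _ => ?_⟩
    · rw [h3]
      exact w.valuation_le_one n
    · rw [← h1]
      exact vw_int K V n
  · have h1 := hmul x (algebraMap (𝓞 K) K n)
    rw [hnd] at h1
    have h2 : V.valuation ((algebraMap (𝓞 K) K (d : 𝓞 K) : K) : Ω) = 1 := hP1 _ d.2
    rw [h2] at h1
    have h3 := congrArg (w.valuation K) hnd
    rw [map_mul, hw1 _ d.2] at h3
    by_cases hn : n ∈ vwI K V
    · have h4 : V.valuation ((algebraMap (𝓞 K) K n : K) : Ω) < 1 := hn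
      have h5 : w.valuation K (algebraMap (𝓞 K) K n) < 1 := (w.valuation_lt_one_iff_mem n).2 hn
      refine ⟨fun h6 => ?_, fun h6 => ?_⟩
      · exact absurd h1 (ne_of_gt (lt_of_le_of_lt (mul_le_of_le_one_left' h6) h4))
      · exact absurd h3 (ne_of_lt (lt_of_le_of_lt (mul_le_of_le_one_left' h6) h5))
    · have h4 : V.valuation ((algebraMap (𝓞 K) K n : K) : Ω) = 1 := hP1 _ hn
      rw [h4, mul_one] at h1
      rw [hw1 _ hn, mul_one] at h3
      rw [← h1, h3]
      exact ⟨fun _ => le_rfl, fun _ => le_rfl⟩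

theorem Abv.lt {F₀ : Type} [Field F₀] {Ω : Type} [Field Ω] [Algebra F₀ Ω]
    {K : IntermediateField F₀ Ω} [NumberField K] {V : ValuationSubring Ω} {w : HeightOneSpectrum (𝓞 K)}
    (h : Abv K V w) (x : K) : V.valuation (x : Ω) < 1 ↔ w.valuation K x < 1 := by
  by_cases hx : x = 0
  · subst hx
    rw [map_zero]
    have : ((0 : K) : Ω) = 0 := rfl
    rw [this, map_zero]
    exact ⟨fun _ => zero_lt_one, fun _ => zero_lt_one⟩
  · have hx' : (x : Ω) ≠ 0 := fun h' => hx (Subtype.ext h')
    have h1 := h x⁻¹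
    have e : ((x⁻¹ : K) : Ω) = (x : Ω)⁻¹ := rfl
    rw [← V.valuation_le_one_iff, e, map_inv₀, map_inv₀] at h1
    have h2 : 0 < V.valuation (x : Ω) := zero_lt_iff.2 ((map_ne_zero _).2 hx')
    have h3 : 0 < w.valuation K x := zero_lt_iff.2 ((map_ne_zero _).2 hx)
    rw [inv_le_one₀ h2, inv_le_one₀ h3] at h1
    rw [← not_le, ← not_le, h1]

theorem Abv.le {F₀ : Type} [Field F₀] {Ω : Type} [Field Ω] [Algebra F₀ Ω]
    {K : IntermediateField F₀ Ω} [NumberField K] {V : ValuationSubring Ω} {w : HeightOneSpectrum (𝓞 K)}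
    (h : Abv K V w) (x y : K) : V.valuation (x : Ω) ≤ V.valuation (y : Ω) ↔
      w.valuation K x ≤ w.valuation K y := by
  by_cases hy : y = 0
  · subst hy
    have e : ((0 : K) : Ω) = 0 := rfl
    rw [map_zero, e, map_zero, le_zero_iff, le_zero_iff, map_eq_zero, map_eq_zero]
    exact ⟨fun h' => Subtype.ext h', fun h' => by rw [h']; rfl⟩
  · have hy' : (y : Ω) ≠ 0 := fun h' => hy (Subtype.ext h')
    have h1 := h (x / y)
    have e : ((x / y : K) : Ω) = (x : Ω) / (y : Ω) := rfl
    have h2 : 0 < V.valuation (y : Ω) := zero_lt_iff.2 ((map_ne_zero _).2 hy')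
    have h3 : 0 < w.valuation K y := zero_lt_iff.2 ((map_ne_zero _).2 hy)
    rw [← V.valuation_le_one_iff, e, map_div₀, map_div₀, div_le_one₀ h2, div_le_one₀ h3] at h1
    exact h1

end H13S
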