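import Mathlib
import Pool.Agent.Lib.H13S.IN1
import Pool.Agent.Lib.H13S.IN3
import Pool.Agent.Lib.H13S.VW

open NumberField IsDedekindDomain

namespace H13S

open H55P

theorem in4_val {K N : Type} [Field K] [Field N] [NumberField N] [Algebra K N]
    (W : HeightOneSpectrum (𝓞 N)) (s : N ≃ₐ[K] N) (hs : ∀ x : 𝓞 N, s • x - x ∈ W.asIdeal) (x : N)
    (hx : W.valuation N x ≤ 1) : W.valuation N (s x - x) < 1 := by
  obtain ⟨n, d, hnd⟩ := W.exists_primeCompl_mul_eq_of_integer x hx
  have hd : (d : 𝓞 N) ∉ W.asIdeal := d.2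
  have hP := W.isPrime
  have hsd : s • (d : 𝓞 N) ∉ W.asIdeal := by
    intro h1
    have h2 := W.asIdeal.sub_mem h1 (hs d)
    rw [sub_sub_cancel] at h2
    exact hd h2
  have hcoe : ∀ z : 𝓞 N, algebraMap (𝓞 N) N (s • z) = s (algebraMap (𝓞 N) N z) := fun z => rfl
  have hv1 : W.valuation N (algebraMap (𝓞 N) N (d : 𝓞 N)) = 1 :=
    le_antisymm (W.valuation_le_one _) (not_lt.1 fun h3 => hd ((W.valuation_lt_one_iff_mem _).1 h3))
  have hv2 : W.valuation N (algebraMap (𝓞 N) N (s • (d : 𝓞 N))) = 1 :=
    le_antisymm (W.valuation_le_one _) (not_lt.1 fun h3 => hsd ((W.valuation_lt_one_iff_mem _).1 h3))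
  have hx2 : s x * algebraMap (𝓞 N) N (s • (d : 𝓞 N)) = algebraMap (𝓞 N) N (s • (n : 𝓞 N)) := by
    rw [hcoe, hcoe, ← map_mul, hnd]
  have hnum : (s x - x) * (algebraMap (𝓞 N) N (s • (d : 𝓞 N)) * algebraMap (𝓞 N) N (d : 𝓞 N)) =
      algebraMap (𝓞 N) N ((s • n - n) * d - n * (s • (d : 𝓞 N) - d) : 𝓞 N) := by
    rw [map_sub, map_mul, map_mul, map_sub, map_sub, ← hnd, ← hx2]
    ring
  have hmem : ((s • n - n) * d - n * (s • (d : 𝓞 N) - d) : 𝓞 N) ∈ W.asIdeal :=
    W.asIdeal.sub_mem (W.asIdeal.mul_mem_right _ (hs n)) (W.asIdeal.mul_mem_left _ (hs d))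
  have h3 := congrArg (W.valuation N) hnum
  rw [map_mul, map_mul, hv1, hv2, mul_one, mul_one] at h3
  rw [h3]
  exact (W.valuation_lt_one_iff_mem _).2 hmem

/-- Chunk IN4 (M). The value group of the field fixed by an inertia group. Let N be a finite Galois extension of K
inside Ω containing y (normal closure of F₀(y) K over F₀: IntermediateField.normalClosure; number field). If N is contained in V then
V = ⊤ (Ω is algebraic over N and V is integrally closed), all values are 1, a = 1. Otherwise V lies above a prime W of N (exists_below). An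
element of the inertia group of W in Gal(N/K) extends to an automorphism s of Ω over K; it satisfies the hypothesis of inertia_lift (for x in N ∩ V: the residue
field of W consists of classes of algebraic integers, x = b/d with b, d in 𝓞 N, d not in W); so it is the restriction of s' with Inert V s', s' fixes K
(s' = s on N), and s' y = y by h. value_fixed_fin gives a, and Abv.le translates equality of values of W into equality of values
of V. -/
theorem value_fixed {F₀ : Type} [Field F₀] [NumberField F₀] {Ω : Type} [Field Ω] [Algebra F₀ Ω]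
    [IsAlgClosure F₀ Ω] (K : IntermediateField F₀ Ω) [NumberField K] (V : ValuationSubring Ω) (y : Ω)
    (hy : y ≠ 0) (h : ∀ s ∈ K.fixingSubgroup, Inert V s → s y = y) :
    ∃ a : K, a ≠ 0 ∧ V.valuation y = V.valuation (a : Ω) := by
  have hac : IsAlgClosed Ω := IsAlgClosure.isAlgClosed F₀
  have halg : Algebra.IsAlgebraic F₀ Ω := IsAlgClosure.isAlgebraic
  have hnorm : Normal F₀ Ω := IsAlgClosure.normal F₀ Ω
  have hKfin : FiniteDimensional F₀ K := FiniteDimensional.right ℚ F₀ K
  have hyfin : FiniteDimensional F₀ (IntermediateField.adjoin F₀ {y}) :=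
    IntermediateField.adjoin.finiteDimensional (Algebra.IsIntegral.isIntegral y)
  let M : IntermediateField F₀ Ω := K ⊔ IntermediateField.adjoin F₀ {y}
  have hMfin : FiniteDimensional F₀ M := IntermediateField.finiteDimensional_sup K _
  let N : IntermediateField F₀ Ω := IntermediateField.normalClosure F₀ M Ω
  have hNfin : FiniteDimensional F₀ N := normalClosure.is_finiteDimensional F₀ M Ω
  have hNnorm : Normal F₀ N := normalClosure.normal F₀ M Ω
  have hMN : M ≤ N := IntermediateField.le_normalClosure M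
  have hKN : K ≤ N := le_trans le_sup_left hMN
  have hyN : y ∈ N := hMN ((le_sup_right : IntermediateField.adjoin F₀ {y} ≤ M)
    (IntermediateField.mem_adjoin_simple_self F₀ y))
  clear_value N
  have hNQ : FiniteDimensional ℚ N := FiniteDimensional.trans ℚ F₀ N
  have hchar : CharZero N := charZero_of_injective_algebraMap (algebraMap F₀ N).injective
  have hNnf : NumberField N := ⟨⟩
  by_cases hV : ∃ x : N, (x : Ω) ∉ V
  · obtain ⟨W, hW⟩ := exists_below N V hV
    let alg : Algebra K N := (IntermediateField.inclusion hKN).toRingHom.toAlgebra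
    have hmap : ∀ a : K, ((algebraMap K N a : N) : Ω) = (a : Ω) := fun a => rfl
    have htow : IsScalarTower F₀ K N := IsScalarTower.of_algebraMap_eq fun a => rfl
    have hgalF : IsGalois F₀ N := IsGalois.mk
    have hgal : IsGalois K N := IsGalois.tower_top_of_isGalois F₀ K N
    obtain ⟨a, ha0, ha⟩ := value_fixed_fin K N W ⟨y, hyN⟩ (fun h0 => hy (congrArg Subtype.val h0)) (by
      intro s hs
      let σ : Ω ≃ₐ[F₀] Ω := (s.restrictScalars F₀).liftNormal Ω
      have hσ : ∀ x : N, σ (x : Ω) = ((s x : N) : Ω) := fun x =>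
        AlgEquiv.liftNormal_commutes (s.restrictScalars F₀) Ω x
      obtain ⟨s', hs'1, hs'2⟩ := inertia_lift N V σ (fun x hx => by
          have h1 := hσ ⟨x, hx⟩
          rw [h1]
          exact (s ⟨x, hx⟩).2) (fun x hx hxV => by
          have h1 := hσ ⟨x, hx⟩
          have h2 := in4_val W s hs ⟨x, hx⟩ ((hW ⟨x, hx⟩).1 hxV)
          have h3 := (hW.lt _).2 h2
          rw [h1]
          exact h3)
      have hfix : s' ∈ K.fixingSubgroup := by
        rw [IntermediateField.mem_fixingSubgroup_iff]
        intro x hx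
        rw [hs'2 x (hKN hx)]
        have h1 := hσ ⟨x, hKN hx⟩
        rw [h1]
        have h2 := s.commutes ⟨x, hx⟩
        exact congrArg Subtype.val h2
      have h1 := h s' hfix hs'1
      rw [hs'2 y hyN] at h1
      have h2 := hσ ⟨y, hyN⟩
      exact Subtype.ext (h2.symm.trans h1))
    refine ⟨a, ha0, ?_⟩
    have h1 := (hW.le ⟨y, hyN⟩ (algebraMap K N a)).2 ha.le
    have h2 := (hW.le (algebraMap K N a) ⟨y, hyN⟩).2 ha.ge
    exact le_antisymm h1 h2
  · push Not at hV
    refine ⟨1, one_ne_zero, ?_⟩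
    have h1 : V.valuation y ≤ 1 := (V.valuation_le_one_iff y).2 (hV ⟨y, hyN⟩)
    have h2 : V.valuation y⁻¹ ≤ 1 := (V.valuation_le_one_iff _).2 (hV ⟨y⁻¹, N.inv_mem hyN⟩)
    have h3 : V.valuation y ≠ 0 := (Valuation.ne_zero_iff _).2 hy
    rw [map_inv₀] at h2
    have h4 : 1 ≤ V.valuation y := by
      rwa [inv_le_one₀ (zero_lt_iff.2 h3)] at h2
    have h5 : V.valuation ((1 : K) : Ω) = 1 := map_one _
    rw [h5]
    exact le_antisymm h1 h4

end H13S
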