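import Mathlib
import Pool.Agent.Lib.H28G.Defs
import Pool.Agent.Lib.H55R.Den

open NumberField IsDedekindDomain

namespace H13S

open H55P H28G H55B

section

variable {K : Type} [Field K] [NumberField K]

/-- the prime number below v -/
noncomputable def ds_p (v : HeightOneSpectrum (𝓞 K)) : ℕ := Ideal.absNorm (v.asIdeal.under ℤ)

theorem ds_prime (v : HeightOneSpectrum (𝓞 K)) : (ds_p v).Prime := by
  have := v.isPrime
  have h : NeZero v.asIdeal := ⟨v.ne_bot⟩
  exact Nat.absNorm_under_prime v.asIdeal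

theorem ds_pow (v : HeightOneSpectrum (𝓞 K)) : ∃ f : ℕ, Ideal.absNorm v.asIdeal = ds_p v ^ f := by
  have hp := ds_prime v
  have hl : v.asIdeal.LiesOver (Ideal.span {((ds_p v : ℕ) : ℤ)}) :=
    Int.liesOver_span_absNorm v.asIdeal
  exact ⟨_, Ideal.absNorm_eq_pow_inertiaDeg' v.asIdeal hp⟩

theorem ds_sq_le (v : HeightOneSpectrum (𝓞 K)) (h : ¬ (Ideal.absNorm v.asIdeal).Prime) :
    ds_p v ^ 2 ≤ Ideal.absNorm v.asIdeal := by
  obtain ⟨f, hf⟩ := ds_pow v
  have hp := ds_prime v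
  have h2 := H55R.dd_two_le v
  rw [hf] at h h2 ⊢
  refine Nat.pow_le_pow_right hp.pos ?_
  rcases f with _ | _ | f
  · rw [pow_zero] at h2
    omega
  · rw [zero_add, pow_one] at h
    exact absurd hp h
  · omega

theorem ds_card (s : Finset (HeightOneSpectrum (𝓞 K))) (p : ℕ) (hp : p.Prime) :
    (s.filter fun v => ds_p v = p).card ≤ Module.finrank ℚ K := by
  classical
  have hm : (Ideal.span {(p : ℤ)}).IsMaximal := by
    have := Fact.mk hp
    exact Int.ideal_span_isMaximal_of_prime p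
  have hp0 : Ideal.span {(p : ℤ)} ≠ ⊥ := by
    rw [Ne, Ideal.span_singleton_eq_bot]
    exact_mod_cast hp.ne_zero
  refine le_trans ?_ (Ideal.card_primesOverFinset_le_finrank (S := 𝓞 K) ℚ K hp0)
  rw [← Finset.card_image_of_injective (s.filter fun v => ds_p v = p) H55R.dd_inj]
  refine Finset.card_le_card fun P hP => ?_
  obtain ⟨v, hv, rfl⟩ := Finset.mem_image.1 hP
  rw [Finset.mem_filter] at hv
  rw [IsDedekindDomain.mem_primesOverFinset_iff hp0]
  refine ⟨v.isPrime, ?_⟩
  rw [← hv.2]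
  exact Int.liesOver_span_absNorm v.asIdeal

theorem ds_summable : Summable fun v : HeightOneSpectrum (𝓞 K) => ((ds_p v : ℝ) ^ 2)⁻¹ := by
  classical
  have hs : Summable fun n : ℕ => ((n : ℝ) ^ 2)⁻¹ := by
    simpa using Real.summable_nat_pow_inv.2 (by norm_num : 1 < 2)
  refine summable_of_sum_le (c := Module.finrank ℚ K * ∑' n : ℕ, ((n : ℝ) ^ 2)⁻¹)
    (fun v => by positivity) fun u => ?_
  rw [Finset.sum_comp (fun n : ℕ => ((n : ℝ) ^ 2)⁻¹) ds_p]
  calc ∑ b ∈ u.image ds_p, (u.filter fun a => ds_p a = b).card • ((b : ℝ) ^ 2)⁻¹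
      ≤ ∑ b ∈ u.image ds_p, (Module.finrank ℚ K : ℝ) * ((b : ℝ) ^ 2)⁻¹ := by
        refine Finset.sum_le_sum fun b hb => ?_
        obtain ⟨v, -, rfl⟩ := Finset.mem_image.1 hb
        rw [nsmul_eq_mul]
        have h1 : ((u.filter fun a => ds_p a = ds_p v).card : ℝ) ≤ Module.finrank ℚ K := by
          exact_mod_cast ds_card u (ds_p v) (ds_prime v)
        exact mul_le_mul_of_nonneg_right h1 (by positivity)
    _ = (Module.finrank ℚ K : ℝ) * ∑ b ∈ u.image ds_p, ((b : ℝ) ^ 2)⁻¹ := by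
        rw [Finset.mul_sum]
    _ ≤ (Module.finrank ℚ K : ℝ) * ∑' n : ℕ, ((n : ℝ) ^ 2)⁻¹ := by
        refine mul_le_mul_of_nonneg_left ?_ (Nat.cast_nonneg _)
        exact hs.sum_le_tsum _ fun n _ => by positivity

/-- The sum over the primes of degree > 1 and over a finite set is bounded. -/
theorem ds_bound (S : Set (HeightOneSpectrum (𝓞 K))) (hS : S.Finite)
    (A : Set (HeightOneSpectrum (𝓞 K)))
    (hA : ∀ v, v ∉ S → (Ideal.absNorm v.asIdeal).Prime → v ∈ A) :
    ∃ C : ℝ, ∀ s ∈ Set.Ioc (1 : ℝ) 2, H55R.PS (Set.univ : Set (HeightOneSpectrum (𝓞 K))) s ≤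
      H55R.PS A s + C := by
  classical
  have hB2 : Summable fun v : HeightOneSpectrum (𝓞 K) => if v ∈ S then (1 : ℝ) else 0 := by
    refine summable_of_finite_support (hS.subset ?_)
    intro v hv
    rw [Function.mem_support] at hv
    by_contra hne
    exact hv (if_neg hne)
  have hB := (ds_summable (K := K)).add hB2
  refine ⟨∑' v : HeightOneSpectrum (𝓞 K), (((ds_p v : ℝ) ^ 2)⁻¹ + if v ∈ S then (1 : ℝ) else 0),
    fun s hs => ?_⟩
  obtain ⟨hs1, hs2⟩ := hs
  have hg := H55R.dd_summable (K := K) s hs1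
  unfold H55R.PS
  rw [← (hg.indicator A).tsum_add hB]
  refine (hg.indicator _).tsum_le_tsum (fun v => ?_) ((hg.indicator A).add hB)
  rw [Set.indicator_of_mem (Set.mem_univ v)]
  have h2 := H55R.dd_two_le v
  have hN1 : (1 : ℝ) ≤ Ideal.absNorm v.asIdeal := by
    exact_mod_cast (by omega : 1 ≤ Ideal.absNorm v.asIdeal)
  have hp2 : 0 ≤ ((ds_p v : ℝ) ^ 2)⁻¹ := by positivity
  have hi : 0 ≤ A.indicator (fun v => (Ideal.absNorm v.asIdeal : ℝ) ^ (-s)) v :=
    Set.indicator_nonneg (fun v _ => by positivity) v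
  by_cases h : v ∈ S
  · rw [if_pos h]
    have h6 : (Ideal.absNorm v.asIdeal : ℝ) ^ (-s) ≤ 1 :=
      Real.rpow_le_one_of_one_le_of_nonpos hN1 (by linarith)
    linarith
  · rw [if_neg h]
    by_cases hp : (Ideal.absNorm v.asIdeal).Prime
    · rw [Set.indicator_of_mem (hA v h hp)]
      linarith
    · have h3 := ds_sq_le v hp
      have h4 : (Ideal.absNorm v.asIdeal : ℝ) ^ (-s) ≤ ((ds_p v : ℝ) ^ 2)⁻¹ := by
        calc (Ideal.absNorm v.asIdeal : ℝ) ^ (-s) ≤ (Ideal.absNorm v.asIdeal : ℝ) ^ (-1 : ℝ) :=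
              Real.rpow_le_rpow_of_exponent_le hN1 (by linarith)
          _ = (Ideal.absNorm v.asIdeal : ℝ)⁻¹ := Real.rpow_neg_one _
          _ ≤ ((ds_p v : ℝ) ^ 2)⁻¹ := by
              have h5 := (ds_prime v).pos
              refine inv_anti₀ (by positivity) ?_
              exact_mod_cast h3
      linarith

end

/-- Chunk DS (M). A Galois extension in which almost all primes of degree one split completely is trivial.
Proof. H55R.density_split F₀ F₀ (every v is Spl F₀ F₀) gives the sum of N v^(-s) over all v = log(1/(s-1)) + O(1) on (1, 2];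
the sum over the v with N v not prime is O(1) (N v = p^f, f ≥ 2, at most [F₀:Q] primes above p: sum of d p^(-2 s)), finitely many v
contribute O(1). So the sum over the completely split v is at least log(1/(s-1)) - O(1); by density_split F₀ E it is
(1/d) log(1/(s-1)) + O(1), d = [E:F₀]; s -> 1 gives 1 ≤ 1/d. -/
theorem degree_one_split {F₀ : Type} [Field F₀] [NumberField F₀] (E : Type) [Field E] [NumberField E]
    [Algebra F₀ E] [IsGalois F₀ E] (S : Set (HeightOneSpectrum (𝓞 F₀))) (hS : S.Finite)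
    (h : ∀ v : HeightOneSpectrum (𝓞 F₀), v ∉ S → (Ideal.absNorm v.asIdeal).Prime → H55R.Spl F₀ E v) :
    Module.finrank F₀ E = 1 := by
  have hfin : 0 < Module.finrank F₀ E := Module.finrank_pos
  obtain ⟨C₁, h1⟩ := H55R.density_split F₀ F₀
  obtain ⟨C₂, h2⟩ := H55R.density_split F₀ E
  obtain ⟨C₃, h3⟩ := ds_bound S hS {v | H55R.Spl F₀ E v} h
  have hspl : {v : HeightOneSpectrum (𝓞 F₀) | H55R.Spl F₀ F₀ v} = Set.univ := by
    refine Set.eq_univ_of_forall fun v => ?_
    have := H55R.D5_card (L := F₀) v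
    rw [Module.finrank_self] at this
    have h5 : H55R.es F₀ F₀ v * H55R.fs F₀ F₀ v = 1 := Nat.eq_one_of_mul_eq_one_left this
    exact ⟨Nat.eq_one_of_mul_eq_one_right h5, Nat.eq_one_of_mul_eq_one_left h5⟩
  rw [hspl, Module.finrank_self] at h1
  by_contra hne
  have hd2 : 2 ≤ Module.finrank F₀ E := by omega
  have hd : (1 / Module.finrank F₀ E : ℝ) ≤ 1 / 2 :=
    one_div_le_one_div_of_le (by norm_num) (by exact_mod_cast hd2)
  set C := |C₁| + |C₂| + |C₃| with hC
  have hC0 : 0 ≤ C := by positivity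
  -- choose s with log (1/(s-1)) large
  set s := 1 + Real.exp (-(2 * C + 1)) with hsdef
  have he0 := Real.exp_pos (-(2 * C + 1))
  have he1 : Real.exp (-(2 * C + 1)) ≤ 1 := Real.exp_le_one_iff.2 (by linarith)
  have hs : s ∈ Set.Ioc (1 : ℝ) 2 := ⟨by linarith, by linarith⟩
  have hlog : Real.log (1 / (s - 1)) = 2 * C + 1 := by
    rw [hsdef, add_sub_cancel_left, one_div, Real.log_inv, Real.log_exp, neg_neg]
  have a1 := (abs_le.1 (h1 s hs)).1
  have a2 := (abs_le.1 (h2 s hs)).2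
  have a3 := h3 s hs
  rw [hlog] at a1 a2
  have b1 := le_abs_self C₁
  have b2 := le_abs_self C₂
  have b3 := le_abs_self C₃
  have b4 := mul_le_mul_of_nonneg_right hd (by linarith : (0 : ℝ) ≤ 2 * C + 1)
  norm_num at a1
  linarith

end H13S
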