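import Mathlib
import Pool.Agent.Lib.H13S.Defs

open NumberField IsDedekindDomain

namespace H13S

/-- Chunk EXV (S/M). Extension of valuation rings. The valuation ring of w in K is a local subring of Ω (map it); a maximal local subring
dominating it is a valuation ring (LocalSubring.exists_le_valuationSubring or similar in
Mathlib.RingTheory.LocalRing.LocalSubring / Valuation.LocalSubring); its intersection with K is a valuation ring of K dominating, hence
equal to, the valuation ring of w (a discrete valuation ring is a maximal proper subring; or: valuation rings are maximal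
for domination). -/
theorem exists_above {F₀ : Type} [Field F₀] {Ω : Type} [Field Ω] [Algebra F₀ Ω]
    (K : IntermediateField F₀ Ω) [NumberField K] (w : HeightOneSpectrum (𝓞 K)) :
    ∃ V : ValuationSubring Ω, Abv K V w := by
  let A : ValuationSubring K := (w.valuation K).valuationSubring
  let f : K →+* Ω := algebraMap K Ω
  obtain ⟨V, hV⟩ := (A.toLocalSubring.map f).exists_le_valuationSubring
  obtain ⟨h1, h2⟩ := LocalSubring.le_def.1 hV
  refine ⟨V, fun x => ⟨fun hx => ?_, fun hx => ?_⟩⟩
  · by_contra hc
    have hx0 : x ≠ 0 := by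
      rintro rfl
      exact hc (by rw [map_zero]; exact zero_le_one)
    have hi : w.valuation K x⁻¹ ≤ 1 := by
      rw [map_inv₀]
      exact inv_le_one_of_one_le₀ (not_le.1 hc).le
    have hA : x⁻¹ ∈ A.toSubring := (Valuation.mem_valuationSubring_iff _ _).2 hi
    have hm : f x⁻¹ ∈ (A.toLocalSubring.map f).toSubring := ⟨x⁻¹, hA, rfl⟩
    have hu : IsUnit (Subring.inclusion h1 ⟨f x⁻¹, hm⟩) := by
      refine isUnit_iff_exists_inv.2 ⟨⟨(x : Ω), hx⟩, Subtype.ext ?_⟩
      show f x⁻¹ * f x = 1
      rw [← map_mul, inv_mul_cancel₀ hx0, map_one]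
    obtain ⟨⟨b, hb⟩, hb1⟩ := isUnit_iff_exists_inv.1 (h2.map_nonunit _ hu)
    obtain ⟨z, hz, rfl⟩ := hb
    have h3 : f (x⁻¹ * z) = f 1 := by
      rw [map_mul, map_one]
      exact congrArg Subtype.val hb1
    have h4 : x⁻¹ * z = 1 := f.injective h3
    have h5 : z = x := by
      rw [inv_mul_eq_iff_eq_mul₀ hx0, mul_one] at h4
      exact h4
    rw [h5] at hz
    exact hc ((Valuation.mem_valuationSubring_iff _ _).1 hz)
  · exact h1 ⟨x, (Valuation.mem_valuationSubring_iff _ _).2 hx, rfl⟩

end H13S
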