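import Mathlib
import Pool.Agent.Lib.H16C.FR2
import Pool.Agent.Lib.H55P.Sel

open NumberField IsDedekindDomain
open scoped Pointwise

namespace H13S

open H55P

/-- fixed points of the Frobenius map -/
theorem in2_fin {k L : Type} [Field k] [Fintype k] [Field L] (i : k →+* L) (y : L)
    (hy : y ^ Fintype.card k = y) : ∃ a : k, i a = y := by
  classical
  set f : Polynomial L := Polynomial.X ^ Fintype.card k - Polynomial.X with hf
  have hf0 : f ≠ 0 := FiniteField.X_pow_card_sub_X_ne_zero L Fintype.one_lt_card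
  have hroot : ∀ z : L, z ∈ f.roots.toFinset ↔ z ^ Fintype.card k = z := by
    intro z
    rw [Multiset.mem_toFinset, Polynomial.mem_roots hf0, Polynomial.IsRoot.def, hf, Polynomial.eval_sub,
      Polynomial.eval_pow, Polynomial.eval_X, sub_eq_zero]
  have hsub : (Finset.univ.image i) ⊆ f.roots.toFinset := by
    intro z hz
    obtain ⟨a, -, rfl⟩ := Finset.mem_image.1 hz
    rw [hroot, ← map_pow, FiniteField.pow_card]
  have hcard : f.roots.toFinset.card ≤ (Finset.univ.image i).card := by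
    rw [Finset.card_image_of_injective _ i.injective, Finset.card_univ]
    calc f.roots.toFinset.card ≤ Multiset.card f.roots := Multiset.toFinset_card_le _
      _ ≤ f.natDegree := Polynomial.card_roots' f
      _ = Fintype.card k := FiniteField.X_pow_card_sub_X_natDegree_eq L Fintype.one_lt_card
  have heq := Finset.eq_of_subset_of_card_le hsub hcard
  have hy' : y ∈ Finset.univ.image i := by
    rw [heq, hroot]
    exact hy
  obtain ⟨a, -, ha⟩ := Finset.mem_image.1 hy'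
  exact ⟨a, ha⟩

section general

variable {K : Type} [Field K] [NumberField K] {Ω : Type} [Field Ω] [Algebra K Ω]

theorem in2_mem (V : ValuationSubring Ω) (z : 𝓞 Ω) : (z : Ω) ∈ V := by
  have h1 : IsIntegral V (z : Ω) := z.isIntegral_coe.tower_top
  obtain ⟨y, hy⟩ := (IsIntegrallyClosed.isIntegral_iff (R := V) (K := Ω)).1 h1
  rw [← hy]
  exact y.2

theorem in2_le (V : ValuationSubring Ω) {x : Ω} (hx : IsIntegral ℤ x) : V.valuation x ≤ 1 :=
  (V.valuation_le_one_iff _).2 (in2_mem V ⟨x, hx⟩)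

/-- the map to V -/
noncomputable def in2c (V : ValuationSubring Ω) : 𝓞 Ω →+* V :=
  (algebraMap (𝓞 Ω) Ω).codRestrict V (fun x => in2_mem V x)

/-- the prime of the algebraic integers below V -/
noncomputable def in2Q (V : ValuationSubring Ω) : Ideal (𝓞 Ω) :=
  (IsLocalRing.maximalIdeal V).comap (in2c V)

theorem in2Q_lt (V : ValuationSubring Ω) (z : 𝓞 Ω) : z ∈ in2Q V ↔ V.valuation (z : Ω) < 1 := by
  unfold in2Q
  rw [Ideal.mem_comap, ValuationSubring.valuation_lt_one_iff]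
  rfl

theorem in2Q_prime (V : ValuationSubring Ω) : (in2Q V).IsPrime := by
  unfold in2Q
  infer_instance

theorem in2Q_one (V : ValuationSubring Ω) (z : 𝓞 Ω) : z ∉ in2Q V ↔ V.valuation (z : Ω) = 1 := by
  rw [in2Q_lt, not_lt]
  have h := (V.valuation_le_one_iff _).2 (in2_mem V z)
  exact ⟨fun h1 => le_antisymm h h1, fun h1 => h1.ge⟩

/-- fractions -/
theorem in2_frac (K : Type) [Field K] [NumberField K] [Algebra K Ω] [Algebra.IsAlgebraic K Ω]
    (V : ValuationSubring Ω) (q : ℕ) (hq : q.Prime) (hV : V.valuation (q : Ω) < 1) (x : Ω)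
    (hx : x ∈ V) : ∃ a c : 𝓞 Ω, V.valuation (c : Ω) = 1 ∧ x = (a : Ω) / (c : Ω) := by
  have hint : IsIntegral K x := Algebra.IsIntegral.isIntegral x
  have hfd : FiniteDimensional K (IntermediateField.adjoin K {x}) :=
    IntermediateField.adjoin.finiteDimensional hint
  obtain ⟨a, c, -, -, ha, hc, hc1, hxac⟩ := H16C.frac_rep (IntermediateField.adjoin K {x}) V q hq hV
    (IntermediateField.mem_adjoin_simple_self K x) ((V.valuation_le_one_iff _).2 hx)
  exact ⟨⟨a, ha⟩, ⟨c, hc⟩, hc1, hxac⟩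

theorem in2_inv [IsAlgClosure K Ω] : Algebra.IsInvariant (𝓞 K) (𝓞 Ω) Gal(Ω/K) := by
  have hG : IsGalois K Ω := IsAlgClosure.isGalois K Ω
  refine ⟨fun x hx => ?_⟩
  have h1 : ∀ g : Gal(Ω/K), g (x : Ω) = x := fun g =>
    congrArg (fun y : 𝓞 Ω => (y : Ω)) (hx g)
  have h2 : (x : Ω) ∈ (⊥ : IntermediateField K Ω) := by
    rw [← InfiniteGalois.fixedField_bot]
    rw [IntermediateField.mem_fixedField_iff]
    intro g _
    exact h1 g
  obtain ⟨y, hy⟩ := IntermediateField.mem_bot.1 h2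
  have h3 : IsIntegral ℤ y := by
    have h4 : IsIntegral ℤ (algebraMap K Ω y) := by
      rw [hy]; exact x.isIntegral_coe
    exact (isIntegral_algebraMap_iff (algebraMap K Ω).injective).1 h4
  refine ⟨⟨y, h3⟩, ?_⟩
  apply RingOfIntegers.coe_injective
  exact hy

theorem in2_dec [Algebra.IsAlgebraic K Ω] (q : ℕ) (hq : q.Prime) (V : ValuationSubring Ω)
    (hV : V.valuation (q : Ω) < 1) (s : Ω ≃ₐ[K] Ω)
    (hs : ∀ z : 𝓞 Ω, ∀ w : 𝓞 Ω, (w : Ω) = s (z : Ω) → (w ∈ in2Q V ↔ z ∈ in2Q V)) (x : Ω)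
    (hx : x ∈ V) : s x ∈ V := by
  obtain ⟨a, c, hc, rfl⟩ := in2_frac K V q hq hV x hx
  have hint : ∀ z : 𝓞 Ω, IsIntegral ℤ (s (z : Ω)) := fun z => z.isIntegral_coe.map (s.toAlgHom.restrictScalars ℤ)
  have h1 : V.valuation (s (c : Ω)) = 1 := by
    have h2 := (hs c ⟨s (c : Ω), hint c⟩ rfl)
    have h3 := (in2Q_one V c).2 hc
    exact (in2Q_one V ⟨s (c : Ω), hint c⟩).1 (fun h4 => h3 (h2.1 h4))
  rw [← V.valuation_le_one_iff, map_div₀ s, map_div₀, h1, div_one]
  exact in2_le V (hint a)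

/-- Frobenius elements of infinite extensions. -/
theorem in2_gen [IsAlgClosure K Ω] (q : ℕ) (hq : q.Prime) (V : ValuationSubring Ω)
    (hV : V.valuation (q : Ω) < 1) : ∃ s : Ω ≃ₐ[K] Ω, (∀ x : Ω, s x ∈ V ↔ x ∈ V) ∧
      ∀ x ∈ V, V.valuation (s x - x ^ Nat.card (𝓞 K ⧸ (in2Q V).comap (algebraMap (𝓞 K) (𝓞 Ω)))) < 1 := by
  classical
  have hac : IsAlgClosed Ω := IsAlgClosure.isAlgClosed K
  have hal : Algebra.IsAlgebraic K Ω := IsAlgClosure.isAlgebraic
  have hG : IsGalois K Ω := IsAlgClosure.isGalois K Ω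
  have hc0 : CharZero Ω := charZero_of_injective_algebraMap (algebraMap K Ω).injective
  set Q : Ideal (𝓞 Ω) := in2Q V with hQ
  have hQp : Q.IsPrime := in2Q_prime V
  set P : Ideal (𝓞 K) := Q.comap (algebraMap (𝓞 K) (𝓞 Ω)) with hP
  have hPp : P.IsPrime := Ideal.IsPrime.comap _
  have hqP : (q : 𝓞 K) ∈ P := by
    rw [hP, Ideal.mem_comap, map_natCast, hQ, in2Q_lt]
    simpa using hV
  have hPb : P ≠ ⊥ := by
    intro h
    rw [h, Ideal.mem_bot] at hqP
    exact hq.ne_zero (by exact_mod_cast hqP)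
  have hvm : P.IsMaximal := Ideal.IsPrime.isMaximal hPp hPb
  let _ : Field (𝓞 K ⧸ P) := Ideal.Quotient.field P
  have hfin : Finite (𝓞 K ⧸ P) := Ideal.finiteQuotientOfFreeOfNeBot _ hPb
  let _ : Fintype (𝓞 K ⧸ P) := Fintype.ofFinite _
  have hlo : Q.LiesOver P := ⟨rfl⟩
  have hinv := in2_inv (K := K) (Ω := Ω)
  have hsc : SMulCommClass Gal(Ω/K) (𝓞 K) (𝓞 Ω) := by
    constructor
    intro g a z
    rw [Algebra.smul_def, Algebra.smul_def, smul_mul']
    congr 1
    apply RingOfIntegers.ext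
    exact g.commutes (a : K)
  let _ : TopologicalSpace (𝓞 Ω) := ⊥
  have : DiscreteTopology (𝓞 Ω) := ⟨rfl⟩
  have hcont : ContinuousSMul Gal(Ω/K) (𝓞 Ω) := by
    rw [continuousSMul_iff_stabilizer_isOpen]
    intro z
    have h1 := stabilizer_isOpen_of_isIntegral (K := K) (z : Ω)
    convert! h1 using 1
    ext g
    simp only [SetLike.mem_coe, MulAction.mem_stabilizer_iff]
    constructor
    · intro h
      exact congrArg (fun y : 𝓞 Ω => (y : Ω)) h
    · intro h
      exact RingOfIntegers.coe_injective h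
  have hint : Algebra.IsIntegral (𝓞 K) (𝓞 Ω) := Algebra.IsInvariant.isIntegral_of_profinite (G := Gal(Ω/K))
  have hQm : Q.IsMaximal := Ideal.isMaximal_of_isIntegral_of_isMaximal_comap Q hvm
  let _ : Field (𝓞 Ω ⧸ Q) := Ideal.Quotient.field Q
  have halg : Algebra.IsAlgebraic (𝓞 K ⧸ P) (𝓞 Ω ⧸ Q) := by
    have : Algebra.IsIntegral (𝓞 K ⧸ P) (𝓞 Ω ⧸ Q) := inferInstance
    infer_instance
  obtain ⟨σ, hσ⟩ := Ideal.Quotient.stabilizerHom_surjective_of_profinite (G := Gal(Ω/K)) P Q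
    (FiniteField.frobeniusAlgEquivOfAlgebraic (𝓞 K ⧸ P) (𝓞 Ω ⧸ Q))
  have hσ1 : ∀ z : 𝓞 Ω, (σ : Gal(Ω/K)) • z - z ^ Fintype.card (𝓞 K ⧸ P) ∈ Q := by
    intro z
    rw [← Ideal.Quotient.eq]
    exact DFunLike.congr_fun hσ (Ideal.Quotient.mk Q z)
  set s : Ω ≃ₐ[K] Ω := (σ : Gal(Ω/K)) with hs
  have hsz : ∀ z : 𝓞 Ω, ((((σ : Gal(Ω/K)) • z : 𝓞 Ω)) : Ω) = s (z : Ω) := fun z => rfl
  have hmem : ∀ (τ : MulAction.stabilizer Gal(Ω/K) Q) (z : 𝓞 Ω), (τ : Gal(Ω/K)) • z ∈ Q ↔ z ∈ Q := by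
    rintro ⟨g, hg⟩ z
    have h1 : g • Q = Q := hg
    have h2 : g • z ∈ g • Q ↔ z ∈ Q := Ideal.smul_mem_pointwise_smul_iff
    rwa [h1] at h2
  have hdec1 : ∀ (τ : MulAction.stabilizer Gal(Ω/K) Q) (y : Ω), y ∈ V → (τ : Gal(Ω/K)) y ∈ V := by
    intro τ y hy
    refine in2_dec q hq V hV _ ?_ y hy
    intro z w hw
    have h1 : w = (τ : Gal(Ω/K)) • z := RingOfIntegers.coe_injective hw
    rw [h1]
    exact hmem τ z
  refine ⟨s, ?_, ?_⟩
  · intro y
    refine ⟨fun h => ?_, hdec1 σ y⟩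
    have h1 := hdec1 σ⁻¹ (s y) h
    have h2 : ((σ⁻¹ : MulAction.stabilizer Gal(Ω/K) Q) : Gal(Ω/K)) (s y) = y :=
      (σ : Gal(Ω/K)).symm_apply_apply y
    rwa [h2] at h1
  · intro x hx
    obtain ⟨a, c, hc, hxac⟩ := in2_frac K V q hq hV x hx
    rw [Nat.card_eq_fintype_card]
    set N := Fintype.card (𝓞 K ⧸ P) with hN
    have key : ∀ z : 𝓞 Ω, V.valuation (s (z : Ω) - (z : Ω) ^ N) < 1 := by
      intro z
      have h1 := (in2Q_lt V _).1 (hσ1 z)
      rw [← hsz z]
      simpa using h1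
    have h1 : V.valuation (s (a : Ω) / s (c : Ω) - (a : Ω) ^ N / (c : Ω) ^ N) < 1 := by
      refine H16C.FR_div_congr V (key a) (key c) ?_ ?_
      · rw [map_pow]
        exact pow_le_one' (in2_le V a.isIntegral_coe) _
      · rw [map_pow, hc, one_pow]
    rw [← map_div₀ s, ← div_pow, ← hxac] at h1
    exact h1

end general

/-- a proper valuation ring lies above a prime number -/
theorem in2_prime {Ω : Type} [Field Ω] [CharZero Ω] [Algebra.IsAlgebraic ℤ Ω] (V : ValuationSubring Ω)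
    (hV : V ≠ ⊤) : ∃ q : ℕ, q.Prime ∧ V.valuation (q : Ω) < 1 := by
  obtain ⟨y, hy⟩ : ∃ y : Ω, y ∉ V := by
    by_contra hcon
    apply hV
    rw [eq_top_iff]
    intro y _
    by_contra hy
    exact hcon ⟨y, hy⟩
  have hy1 : 1 < V.valuation y := by
    rw [← not_le, V.valuation_le_one_iff]
    exact hy
  have hy0 : y ≠ 0 := by
    rintro rfl
    exact hy V.zero_mem
  set z : Ω := y⁻¹ with hz
  have hz1 : V.valuation z < 1 := by
    rw [hz, map_inv₀]
    exact inv_lt_one_of_one_lt₀ hy1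
  have hz0 : z ≠ 0 := inv_ne_zero hy0
  have hzV : z ∈ V := (V.valuation_le_one_iff _).1 hz1.le
  obtain ⟨p, hp0, hp⟩ := (Algebra.IsAlgebraic.isAlgebraic (R := ℤ) z).exists_nonzero_coeff_and_aeval_eq_zero
    (mem_nonZeroDivisors_of_ne_zero hz0)
  have h1 : Polynomial.aeval z p.divX * z + ((p.coeff 0 : ℤ) : Ω) = 0 := by
    have h2 := congrArg (Polynomial.aeval z) (Polynomial.divX_mul_X_add p)
    rw [hp, map_add, map_mul, Polynomial.aeval_X, Polynomial.aeval_C] at h2
    simpa using h2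
  have h3 : V.valuation (Polynomial.aeval z p.divX) ≤ 1 := by
    rw [V.valuation_le_one_iff]
    have h4 : Polynomial.aeval z p.divX = ((Polynomial.aeval (⟨z, hzV⟩ : V) p.divX : V) : Ω) := by
      have h5 := Polynomial.aeval_algebraMap_apply Ω (⟨z, hzV⟩ : V) p.divX
      exact h5
    rw [h4]
    exact (Polynomial.aeval (⟨z, hzV⟩ : V) p.divX).2
  have h5 : V.valuation ((p.coeff 0 : ℤ) : Ω) < 1 := by
    have h6 : ((p.coeff 0 : ℤ) : Ω) = -(Polynomial.aeval z p.divX * z) := by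
      rw [← sub_eq_zero, sub_neg_eq_add, add_comm]
      exact h1
    rw [h6, Valuation.map_neg, map_mul]
    exact lt_of_le_of_lt (mul_le_of_le_one_left' h3) hz1
  have h7 : V.valuation (((p.coeff 0).natAbs : ℕ) : Ω) < 1 := by
    rcases Int.natAbs_eq (p.coeff 0) with h | h
    · rw [h] at h5
      simpa using h5
    · rw [h] at h5
      simpa [Valuation.map_neg] using h5
  have key : ∀ n : ℕ, n ≠ 0 → V.valuation (n : Ω) < 1 → ∃ q : ℕ, q.Prime ∧ V.valuation (q : Ω) < 1 := by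
    intro n
    induction n using Nat.recOnMul with
    | zero => intro h; exact absurd rfl h
    | one => intro _ h; simp at h
    | prime p hp => intro _ h; exact ⟨p, hp, h⟩
    | mul a b iha ihb =>
      intro hab h
      have ha : a ≠ 0 := left_ne_zero_of_mul hab
      have hb : b ≠ 0 := right_ne_zero_of_mul hab
      by_contra hcon
      have h8 : ¬ V.valuation (a : Ω) < 1 := fun h9 => hcon (iha ha h9)
      have h9 : ¬ V.valuation (b : Ω) < 1 := fun h9 => hcon (ihb hb h9)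
      rw [Nat.cast_mul, map_mul] at h
      refine absurd h (not_lt.2 ((not_lt.1 h8).trans ?_))
      exact le_mul_of_one_le_right' (not_lt.1 h9)
  exact key _ (Int.natAbs_ne_zero.2 hp0) h7

/-- Chunk IN2 (M/L). The residue field of the decomposition field. Notation of IN1 with K in place of N: B = all
algebraic integers of Ω, A = integers of K, G = Gal(Ω/K), Wb = {x in B : V.valuation x < 1}. If V = ⊤ then T is fixed by all of
G (Dec is trivial), so T lies in K; T need not be an integer, but then V.valuation (T - a) < 1 means T = a; so this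
case is excluded by the hypothesis hV (V lies above a prime). T = b/d with b, d in B, d not in Wb (see IN1), and B/Wb is a field (algebraic over
the finite field A/(Wb ∩ A)), so there is b' in B with V.valuation (T - b') < 1. Every automorphism of B/Wb over A/(Wb ∩ A) comes from some
s in G with s Wb = Wb (Ideal.Quotient.stabilizerHom_surjective_of_profinite), that is from s with Dec V s; s T = T, so the class of b' is
invariant under all automorphisms of B/Wb over the finite field A/(Wb ∩ A); an algebraic extension of a finite field is Galois, so the class of b' is the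
class of some a in A. -/
theorem residue_fixed {F₀ : Type} [Field F₀] [NumberField F₀] {Ω : Type} [Field Ω] [Algebra F₀ Ω]
    [IsAlgClosure F₀ Ω] (K : IntermediateField F₀ Ω) [NumberField K] (V : ValuationSubring Ω) (hV : V ≠ ⊤)
    (T : Ω) (hT : T ∈ V) (h : ∀ s ∈ K.fixingSubgroup, Dec V s → s T = T) :
    ∃ a : 𝓞 K, V.valuation (T - ((a : K) : Ω)) < 1 := by
  classical
  have hac : IsAlgClosed Ω := IsAlgClosure.isAlgClosed F₀
  have hal0 : Algebra.IsAlgebraic F₀ Ω := IsAlgClosure.isAlgebraic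
  have hc0 : CharZero Ω := charZero_of_injective_algebraMap (algebraMap F₀ Ω).injective
  have hal : Algebra.IsAlgebraic K Ω := Algebra.IsAlgebraic.tower_top (K := F₀) K
  have hcl : IsAlgClosure K Ω := ⟨inferInstance, hal⟩
  have halQ : Algebra.IsAlgebraic ℚ Ω := Algebra.IsAlgebraic.trans ℚ F₀ Ω
  have halZ : Algebra.IsAlgebraic ℤ Ω := (IsFractionRing.comap_isAlgebraic_iff (K := ℚ)).2 halQ
  obtain ⟨q, hq, hVq⟩ := in2_prime V hV
  obtain ⟨s, hs1, hs2⟩ := in2_gen (K := K) q hq V hVq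
  have hfix : s T = T := h (s.restrictScalars F₀) (fun y => s.commutes y) hs1
  have hQp : (in2Q V).IsPrime := in2Q_prime V
  set P : Ideal (𝓞 K) := (in2Q V).comap (algebraMap (𝓞 K) (𝓞 Ω)) with hP
  have hPp : P.IsPrime := Ideal.IsPrime.comap _
  have hqP : (q : 𝓞 K) ∈ P := by
    rw [hP, Ideal.mem_comap, map_natCast, in2Q_lt]
    simpa using hVq
  have hPb : P ≠ ⊥ := by
    intro h
    rw [h, Ideal.mem_bot] at hqP
    exact hq.ne_zero (by exact_mod_cast hqP)
  have hvm : P.IsMaximal := Ideal.IsPrime.isMaximal hPp hPb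
  let _ : Field (𝓞 K ⧸ P) := Ideal.Quotient.field P
  have hfin : Finite (𝓞 K ⧸ P) := Ideal.finiteQuotientOfFreeOfNeBot _ hPb
  let _ : Fintype (𝓞 K ⧸ P) := Fintype.ofFinite _
  have hxN := hs2 T hT
  rw [hfix, Nat.card_eq_fintype_card] at hxN
  let i : (𝓞 K ⧸ P) →+* IsLocalRing.ResidueField V :=
    Ideal.Quotient.lift P ((IsLocalRing.residue V).comp ((in2c V).comp (algebraMap (𝓞 K) (𝓞 Ω)))) (by
      intro z hz
      rw [RingHom.comp_apply, IsLocalRing.residue_eq_zero_iff, ValuationSubring.valuation_lt_one_iff]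
      exact (in2Q_lt V _).1 hz)
  obtain ⟨y, hy⟩ := in2_fin i (IsLocalRing.residue V ⟨T, hT⟩) (by
    rw [← map_pow, ← sub_eq_zero, ← map_sub, IsLocalRing.residue_eq_zero_iff,
      ValuationSubring.valuation_lt_one_iff]
    rw [← Valuation.map_neg]
    have h1 : -(((⟨T, hT⟩ : V) ^ Fintype.card (𝓞 K ⧸ P) - ⟨T, hT⟩ : V) : Ω) =
        T - T ^ Fintype.card (𝓞 K ⧸ P) := by
      push_cast
      ring
    rw [h1]
    exact hxN)
  obtain ⟨b, rfl⟩ := Ideal.Quotient.mk_surjective y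
  refine ⟨b, ?_⟩
  have h1 : IsLocalRing.residue V (in2c V (algebraMap (𝓞 K) (𝓞 Ω) b)) = IsLocalRing.residue V ⟨T, hT⟩ := hy
  rw [eq_comm, ← sub_eq_zero, ← map_sub, IsLocalRing.residue_eq_zero_iff,
    ValuationSubring.valuation_lt_one_iff] at h1
  exact h1

end H13S
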