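import Mathlib
import Pool.Agent.Lib.H13S.IN2
import Pool.Agent.Lib.H28G.Defs

open NumberField IsDedekindDomain
open scoped Pointwise

namespace H13S

open H55P H28G H55B



/-- Chunk FR (M). Frobenius elements. B = all algebraic integers of Ω, A = 𝓞 F₀, G = Gal(Ω/F₀), Wb = {x in B :
V.valuation x < 1}, Wb ∩ A = v. B/Wb is an algebraic extension of the finite field A/v; x -> x^q (q = card A/v) is an
automorphism of it over A/v (surjective: every element lies in a finite field). Ideal.Quotient.stabilizerHom_surjective_of_profinite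
gives s in G with s Wb = Wb inducing it. Every x in V is b/d with b, d in B, d not in Wb, so s x = s b/s d is congruent to b^q/d^q. Dec V s:
x = b/d in V iff ... (s d not in Wb). -/
theorem exists_frob {F₀ : Type} [Field F₀] [NumberField F₀] {Ω : Type} [Field Ω] [Algebra F₀ Ω]
    [IsAlgClosure F₀ Ω] (v : HeightOneSpectrum (𝓞 F₀)) (V : ValuationSubring Ω)
    (hv : ∀ a : 𝓞 F₀, a ∈ v.asIdeal → V.valuation (algebraMap F₀ Ω (a : F₀)) < 1) :
    ∃ s : Ω ≃ₐ[F₀] Ω, Dec V s ∧ ∀ x ∈ V, V.valuation (s x - x ^ Ideal.absNorm v.asIdeal) < 1 := by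
  have hvm := v.isMaximal
  let _ : Field (𝓞 F₀ ⧸ v.asIdeal) := Ideal.Quotient.field v.asIdeal
  have hfin : Finite (𝓞 F₀ ⧸ v.asIdeal) := Ideal.finiteQuotientOfFreeOfNeBot _ v.ne_bot
  obtain ⟨q, hqc⟩ := CharP.exists (𝓞 F₀ ⧸ v.asIdeal)
  have hq : q.Prime := by
    rcases CharP.char_is_prime_or_zero (𝓞 F₀ ⧸ v.asIdeal) q with h | h
    · exact h
    · exact absurd h (CharP.char_ne_zero_of_finite (𝓞 F₀ ⧸ v.asIdeal) q)
  have hqv : (q : 𝓞 F₀) ∈ v.asIdeal := by
    rw [← Ideal.Quotient.eq_zero_iff_mem, map_natCast]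
    exact CharP.cast_eq_zero _ q
  have hV : V.valuation (q : Ω) < 1 := by
    have h1 := hv (q : 𝓞 F₀) hqv
    simpa using h1
  obtain ⟨s, hs1, hs2⟩ := in2_gen (K := F₀) q hq V hV
  refine ⟨s, hs1, ?_⟩
  have h1 : v.asIdeal = (in2Q V).comap (algebraMap (𝓞 F₀) (𝓞 Ω)) := by
    have h2 : (in2Q V).IsPrime := in2Q_prime V
    apply hvm.eq_of_le (Ideal.IsPrime.ne_top (Ideal.IsPrime.comap _))
    intro z hz
    rw [Ideal.mem_comap, in2Q_lt]
    exact hv z hz
  rw [← h1] at hs2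
  have h3 : Ideal.absNorm v.asIdeal = Nat.card (𝓞 F₀ ⧸ v.asIdeal) := rfl
  rw [h3]
  exact hs2

end H13S
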