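import Mathlib
import Pool.Agent.Lib.H28G.GC2

/-! # H13S: reduction (definitions). Kr is E1 of H28G for the valuation of a valuation ring. -/

open NumberField IsDedekindDomain

namespace H13S

open H55P H28G H55B

variable {Ω : Type} [Field Ω] [DecidableEq Ω] [Algebra F Ω]

/-- The kernel of reduction. -/
def Kr (V : ValuationSubring Ω) (P : P27 Ω) : Prop := P = 0 ∨ 1 < V.valuation (xc P)

/-- The value of an element of O. -/
noncomputable abbrev vo (V : ValuationSubring Ω) (a : O) : V.ValueGroup :=
  V.valuation (algebraMap F Ω (a : F))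

theorem vo_eq (V : ValuationSubring Ω) (a : O) : V.valuation (ak Ω a) = vo V a := rfl

theorem kr_zero (V : ValuationSubring Ω) : Kr V (0 : P27 Ω) := Or.inl rfl

end H13S
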