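import Mathlib
import Pool.Agent.Lib.H13S.GI0
import Pool.Agent.Lib.H28G.GD1
import Pool.Agent.Lib.H28G.GV4
import Pool.Agent.Lib.H28G.GV7

open NumberField IsDedekindDomain

namespace H13S

open H55P H28G H55B

/-! Chunk GIA (M): translations of the statements of H28G for the valuation V.valuation of a valuation ring V of Ω (Kr V P is E1 V.valuation P by definition, vo V a is V.valuation (ak Ω a) by definition;
j : Ω →ₐ[F] ℂ is IsAlgClosed.lift, algebra structure H28G.algC; IsAlgClosure F Ω gives IsAlgClosed Ω and Algebra.IsAlgebraic F Ω).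
gi_gen: full_Om, tor_gen, act_eq_zero (Nm β ≥ 2 so there is a nonzero point, Full, Nat.card). kr_add, kr_tt_add: E1_add (the case P = -Q etc. is included). kr_act, kr_tt_act: E1_act. kr_tt_lt, kr_tt_zero: tt_val. kr_congr: red_sub
(V.valuation (xc Q) ≤ 1 follows from the congruence). kr_tor: tor_unit. kr_tor_ram: tor_val. kr_kron: kron. kr_prod: if act β Q ≠ 0: dist_x for X = Q: product over R of V(xc (Q+R)) = V(C) V(xc (act β Q)), V(C) = 1 as C^6 = 1; Q + R is in Kr (kr_tor_ram, kr_add), not 0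
(act β (Q + R) = act β Q ≠ 0), and V(tt P)^2 V(xc P) = 1 (tt_val): take the product (finprod over a finite type: finprod_eq_prod_of_fintype, Finset.prod_pow), squares are injective. If act β Q = 0: Q is in Tor β, the factor R = -Q is tt 0 = 0 and the right side is 0 too. -/

variable {Ω : Type} [Field Ω] [DecidableEq Ω] [Algebra F Ω]

theorem gia_j (Ω : Type) [Field Ω] [Algebra F Ω] [IsAlgClosure F Ω] : Nonempty (Ω →ₐ[F] ℂ) := by
  have hal : Algebra.IsAlgebraic F Ω := IsAlgClosure.isAlgebraic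
  exact ⟨IsAlgClosed.lift⟩

theorem gia_full (Ω : Type) [Field Ω] [DecidableEq Ω] [Algebra F Ω] [IsAlgClosure F Ω] {β : O} (hβ : β ≠ 0) :
    Full β Ω := by
  have hal : Algebra.IsAlgebraic F Ω := IsAlgClosure.isAlgebraic
  have hac : IsAlgClosed Ω := IsAlgClosure.isAlgClosed F
  exact full_Om Ω β hβ

theorem gia_Nm {β : O} (hβ : Prime β) : 2 ≤ Nm β := by
  have h0 : Nm β ≠ 0 := fun h => hβ.ne_zero (Nm_eq_zero.1 h)
  have h1 : Nm β ≠ 1 := by
    intro h
    unfold Nm at h
    rw [Ideal.absNorm_eq_one_iff, Ideal.span_singleton_eq_top] at h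
    exact hβ.not_unit h
  omega

theorem gi_gen [IsAlgClosure F Ω] (β : O) (hβ : Prime β) (h3 : Prim β) :
    Nat.card (Tor β Ω) = Nm β ∧ ∃ T₀ ∈ Tor β Ω, (∀ T ∈ Tor β Ω, ∃ a : O, T = act a T₀) ∧
      ∀ a : O, act a T₀ = 0 ↔ β ∣ a := by
  have hf := gia_full Ω hβ.ne_zero
  refine ⟨hf, ?_⟩
  have hfin := hf.finite hβ.ne_zero
  have h2 : 1 < Nat.card (Tor β Ω) := by
    rw [show Nat.card (Tor β Ω) = Nm β from hf]
    exact gia_Nm hβ
  have h4 : Nontrivial (Tor β Ω) := Finite.one_lt_card_iff_nontrivial.1 h2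
  obtain ⟨T, hT⟩ := exists_ne (0 : Tor β Ω)
  have hT0 : (T : P27 Ω) ≠ 0 := fun h => hT (Subtype.ext h)
  refine ⟨T, T.2, ?_, ?_⟩
  · intro T' hT'
    obtain ⟨c, hc⟩ := tor_gen hβ hf T.2 hT' hT0
    exact ⟨c, hc.symm⟩
  · intro a
    exact act_eq_zero hβ T.2 hT0 a

theorem kr_add (V : ValuationSubring Ω) {P Q : P27 Ω} (hP : Kr V P) (hQ : Kr V Q) : Kr V (P + Q) :=
  (E1_add V.valuation hP hQ).1

theorem kr_act (V : ValuationSubring Ω) (a : O) {P : P27 Ω} (hP : Kr V P) : Kr V (act a P) :=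
  (E1_act V.valuation hP a).1

/-- t is additive modulo squares. -/
theorem kr_tt_add (V : ValuationSubring Ω) {P Q : P27 Ω} (hP : Kr V P) (hQ : Kr V Q) (c : V.ValueGroup)
    (h1 : V.valuation (tt P) ≤ c) (h2 : V.valuation (tt Q) ≤ c) :
    V.valuation (tt (P + Q) - tt P - tt Q) ≤ c ^ 2 :=
  ((E1_add V.valuation hP hQ).2).trans (pow_le_pow_left' (max_le h1 h2) 2)

/-- t(a P) = a t(P) modulo squares. -/
theorem kr_tt_act (V : ValuationSubring Ω) (a : O) {P : P27 Ω} (hP : Kr V P) :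
    V.valuation (tt (act a P) - algebraMap F Ω (a : F) * tt P) ≤ V.valuation (tt P) ^ 2 :=
  (E1_act V.valuation hP a).2.1

theorem kr_tt_lt (V : ValuationSubring Ω) {P : P27 Ω} (hP : Kr V P) : V.valuation (tt P) < 1 :=
  GV7_tt_lt V.valuation hP

theorem gia_tt0 : tt (0 : P27 Ω) = 0 := by
  unfold tt
  rw [xc_zero, neg_zero, zero_div]

theorem kr_tt_zero (V : ValuationSubring Ω) {P : P27 Ω} (hP : Kr V P) : tt P = 0 ↔ P = 0 := by
  constructor
  · intro h
    rcases hP with h1 | h1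
    · exact h1
    · exfalso
      have h2 := (tt_val V.valuation h1).2.1
      rw [h, map_zero] at h2
      exact h2 rfl
  · rintro rfl
    exact gia_tt0

/-- Congruent integral points differ by a point of the kernel of reduction (good reduction outside 3). -/
theorem kr_congr (V : ValuationSubring Ω) (h3 : V.valuation (3 : Ω) = 1) {P Q : P27 Ω} (hP : P ≠ 0)
    (hQ : Q ≠ 0) (hP1 : V.valuation (xc P) ≤ 1) (hx : V.valuation (xc P - xc Q) < 1)
    (hy : V.valuation (yc P - yc Q) < 1) : Kr V (P - Q) := by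
  refine red_sub V.valuation h3 hP hQ hP1 ?_ hx hy
  have e : xc Q = xc P - (xc P - xc Q) := by ring
  rw [e]
  exact (Valuation.map_sub _ _ _).trans (max_le hP1 hx.le)

/-- Points killed by an element which is a unit are not in the kernel of reduction. -/
theorem kr_tor (V : ValuationSubring Ω) (β : O) (hβ : vo V β = 1) {T : P27 Ω} (hT : T ∈ Tor β Ω)
    (hK : Kr V T) : T = 0 :=
  tor_unit V.valuation hβ hT hK

/-- The points killed by a prime element below V. -/
theorem kr_tor_ram [IsAlgClosure F Ω] (β : O) (hβ : Prime β) (h3 : Prim β) (V : ValuationSubring Ω)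
    (hV : vo V β < 1) {T : P27 Ω} (hT : T ∈ Tor β Ω) (h0 : T ≠ 0) :
    Kr V T ∧ V.valuation (tt T) ^ (Nm β - 1) = vo V β := by
  obtain ⟨j⟩ := gia_j Ω
  obtain ⟨h1, h2⟩ := tor_val V.valuation j hβ h3 (gia_full Ω hβ.ne_zero) hV hT h0
  exact ⟨Or.inr h1, h2⟩

/-- The product formula. -/
theorem kr_prod [IsAlgClosure F Ω] (β : O) (hβ : Prime β) (h3 : Prim β) (V : ValuationSubring Ω)
    (hV : vo V β < 1) {Q : P27 Ω} (hQ : Kr V Q) :
    ∏ᶠ R : Tor β Ω, V.valuation (tt (Q + (R : P27 Ω))) = V.valuation (tt (act β Q)) := by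
  obtain ⟨j⟩ := gia_j Ω
  have hf := gia_full Ω hβ.ne_zero
  have hfin := hf.finite hβ.ne_zero
  have hfi : Fintype (Tor β Ω) := Fintype.ofFinite _
  have hKr : ∀ R : Tor β Ω, Kr V (Q + (R : P27 Ω)) := by
    intro R
    by_cases h0 : (R : P27 Ω) = 0
    · rw [h0, add_zero]
      exact hQ
    · exact kr_add V hQ (kr_tor_ram β hβ h3 V hV R.2 h0).1
  by_cases hz : act β Q = 0
  · rw [hz, gia_tt0, map_zero]
    rw [finprod_eq_prod_of_fintype]
    apply Finset.prod_eq_zero (Finset.mem_univ (-⟨Q, mem_Tor.2 hz⟩ : Tor β Ω))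
    show V.valuation (tt (Q + -Q)) = 0
    rw [add_neg_cancel, gia_tt0, map_zero]
  · obtain ⟨C, hC6, hC, -⟩ := dist_x j β h3 hf
    have hCv : V.valuation C = 1 := by
      have h1 : V.valuation C ^ 6 = 1 := by rw [← map_pow, hC6, map_one]
      exact (pow_eq_one_iff_of_nonneg zero_le (by norm_num)).1 h1
    have h1 := hC Q hz
    have hne : ∀ R : Tor β Ω, Q + (R : P27 Ω) ≠ 0 := by
      intro R h
      apply hz
      have h2 : act β (Q + (R : P27 Ω)) = act β Q := by
        rw [map_add, mem_Tor.1 R.2, add_zero]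
      rw [← h2, h, map_zero]
    have hgt : ∀ P : P27 Ω, Kr V P → P ≠ 0 → V.valuation (tt P) ^ 2 * V.valuation (xc P) = 1 := by
      intro P hP hP0
      rcases hP with h | h
      · exact absurd h hP0
      · exact (tt_val V.valuation h).2.2.1
    have h2 : (∏ R : Tor β Ω, V.valuation (tt (Q + (R : P27 Ω)))) ^ 2 *
        ∏ R : Tor β Ω, V.valuation (xc (Q + (R : P27 Ω))) = 1 := by
      rw [← Finset.prod_pow, ← Finset.prod_mul_distrib]
      exact Finset.prod_eq_one fun R _ => hgt _ (hKr R) (hne R)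
    have h3' : ∏ R : Tor β Ω, V.valuation (xc (Q + (R : P27 Ω))) = V.valuation (xc (act β Q)) := by
      rw [finprod_eq_prod_of_fintype] at h1
      rw [← map_prod, h1, map_mul, hCv, one_mul]
    have h4 := hgt _ (kr_act V β hQ) hz
    rw [h3'] at h2
    rw [finprod_eq_prod_of_fintype]
    have hx0 : V.valuation (xc (act β Q)) ≠ 0 := by
      intro h0
      rw [h0, mul_zero] at h4
      exact zero_ne_one h4
    have h5 : (∏ R : Tor β Ω, V.valuation (tt (Q + (R : P27 Ω)))) ^ 2 = V.valuation (tt (act β Q)) ^ 2 :=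
      mul_right_cancel₀ hx0 (h2.trans h4.symm)
    exact (pow_left_inj₀ zero_le zero_le two_ne_zero).1 h5

/-- Kronecker congruence. -/
theorem kr_kron [IsAlgClosure F Ω] (β : O) (hβ : Prime β) (h3 : Prim β) (V : ValuationSubring Ω)
    (hV : vo V β < 1) {X : P27 Ω} (hX : X ≠ 0) (h1 : V.valuation (xc X) ≤ 1) :
    act β X ≠ 0 ∧ V.valuation (xc (act β X)) ≤ 1 ∧ V.valuation (xc (act β X) - xc X ^ Nm β) < 1 ∧
      V.valuation (yc (act β X) - yc X ^ Nm β) < 1 := by
  obtain ⟨j⟩ := gia_j Ω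
  exact kron V.valuation j hβ h3 (gia_full Ω hβ.ne_zero) hV hX h1

end H13S
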