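import Mathlib
import Pool.Agent.Lib.H13S.Defs
import Pool.Agent.Lib.H13S.GIA

open NumberField IsDedekindDomain

namespace H13S

open H55P H28G H55B

variable {Ω : Type} [Field Ω] [DecidableEq Ω] [Algebra F Ω]

theorem gif_le (V : ValuationSubring Ω) (a : O) : vo V a ≤ 1 := by
  rw [← vo_eq]
  exact ak_le V.valuation a

theorem gif_comb (V : ValuationSubring Ω) (a b c d : O) (h : a * b + c * d = 1) (hb : vo V b < 1) :
    vo V d = 1 := by
  refine le_antisymm (gif_le V d) ?_
  by_contra hd
  push Not at hd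
  have h1 : algebraMap F Ω ((a * b + c * d : O) : F) = 1 := by rw [h]; simp
  have h2 : V.valuation (algebraMap F Ω ((a * b + c * d : O) : F)) < 1 := by
    have e : algebraMap F Ω ((a * b + c * d : O) : F) =
        algebraMap F Ω (a : F) * algebraMap F Ω (b : F) + algebraMap F Ω (c : F) * algebraMap F Ω (d : F) := by
      simp
    rw [e]
    refine lt_of_le_of_lt (V.valuation.map_add _ _) (max_lt ?_ ?_)
    · rw [map_mul]
      exact lt_of_le_of_lt (mul_le_of_le_one_left' (gif_le V a)) hb
    · rw [map_mul]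
      exact lt_of_le_of_lt (mul_le_of_le_one_left' (gif_le V c)) hd
  rw [h1, map_one] at h2
  exact lt_irrefl _ h2

/-- Chunk GIF (M). Kronecker: Frobenius elements act as multiplication. Let q = Nm γ. If T = 0 clear. V.valuation 3 = 1: γ is primary, so 3 divides γ - 1 and vo V γ < 1 excludes V.valuation 3 < 1. vo V β = 1:
γ and β are coprime (prime elements, γ does not divide β; both primary), 1 = u γ + v β, so vo V β = 1. T ≠ 0 is not in Kr (kr_tor), so V.valuation (xc T) ≤ 1, and yc T in V (H28G.int_y).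
kr_kron for γ and X = T: xc (act γ T) is congruent to (xc T)^q, and hs: s (xc T) = xc (ac W27 s T) (H28G.ac_eq, xc_mp) is congruent to (xc T)^q; same for yc. So ac W27 s T and act γ T (both ≠ 0) are congruent: kr_congr: their difference is in
Kr V, and it is killed by β (ac_mem; act β (act γ T) = 0): kr_tor: it is 0. -/
theorem gi_frob [IsAlgClosure F Ω] (β γ : O) (hβ : Prime β) (hβ3 : Prim β) (hγ : Prime γ) (hγ3 : Prim γ)
    (hne : ¬ γ ∣ β) (V : ValuationSubring Ω) (hV : vo V γ < 1) (s : Ω ≃ₐ[F] Ω)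
    (hs : ∀ x ∈ V, V.valuation (s x - x ^ Nm γ) < 1) (T : P27 Ω) (hT : T ∈ Tor β Ω) :
    ac W27 s T = act γ T := by
  by_cases hT0 : T = 0
  · rw [hT0, map_zero, map_zero]
  have h3 : V.valuation (3 : Ω) = 1 := by
    obtain ⟨w, hw⟩ := hγ3
    have h1 := gif_comb V 1 γ (-w) 3 (by linear_combination hw) hV
    have h2 : algebraMap F Ω ((3 : O) : F) = (3 : Ω) := by
      have e : ((3 : O) : F) = 3 := rfl
      rw [e]
      exact map_ofNat _ 3
    rwa [vo, h2] at h1
  have hβv : vo V β = 1 := by
    have hmax : (Ideal.span {γ}).IsMaximal := by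
      apply Ring.DimensionLEOne.maximalOfPrime
      · rw [Ne, Ideal.span_singleton_eq_bot]
        exact hγ.ne_zero
      · exact (Ideal.span_singleton_prime hγ.ne_zero).2 hγ
    have htop : Ideal.span {γ} ⊔ Ideal.span {β} = ⊤ := by
      apply hmax.1.2
      refine lt_of_le_of_ne le_sup_left ?_
      intro hc
      apply hne
      have : β ∈ Ideal.span {γ} := by
        rw [hc]
        exact Ideal.mem_sup_right (Ideal.mem_span_singleton_self β)
      exact Ideal.mem_span_singleton.1 this
    have hcop : IsCoprime γ β := by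
      rw [← Ideal.isCoprime_span_singleton_iff, Ideal.isCoprime_iff_sup_eq]
      exact htop
    obtain ⟨a, b, hab⟩ := hcop
    exact gif_comb V a γ b β hab hV
  have hKr : ¬ Kr V T := fun hK => hT0 (kr_tor V β hβv hT hK)
  have hx1 : V.valuation (xc T) ≤ 1 := by
    by_contra hc
    push Not at hc
    exact hKr (Or.inr hc)
  have hy1 : V.valuation (yc T) ≤ 1 := int_y V.valuation hx1
  obtain ⟨hg0, hg1, hgx, hgy⟩ := kr_kron γ hγ hγ3 V hV hT0 hx1
  have hsx := hs (xc T) ((V.valuation_le_one_iff _).1 hx1)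
  have hsy := hs (yc T) ((V.valuation_le_one_iff _).1 hy1)
  have hxs : xc (ac W27 s T) = s (xc T) := by rw [ac_eq, xc_mp]; rfl
  have hys : yc (ac W27 s T) = s (yc T) := by rw [ac_eq, yc_mp]; rfl
  have hQ0 : ac W27 s T ≠ 0 := by
    rw [ac_eq]
    exact mp_ne _ hT0
  have hx : V.valuation (xc (act γ T) - xc (ac W27 s T)) < 1 := by
    rw [hxs]
    have e : xc (act γ T) - s (xc T) = (xc (act γ T) - xc T ^ Nm γ) - (s (xc T) - xc T ^ Nm γ) := by ring
    rw [e]
    exact V.valuation.map_sub_lt hgx hsx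
  have hy : V.valuation (yc (act γ T) - yc (ac W27 s T)) < 1 := by
    rw [hys]
    have e : yc (act γ T) - s (yc T) = (yc (act γ T) - yc T ^ Nm γ) - (s (yc T) - yc T ^ Nm γ) := by ring
    rw [e]
    exact V.valuation.map_sub_lt hgy hsy
  have hK := kr_congr V h3 hg0 hQ0 hg1 hx hy
  have hgT : act γ T ∈ Tor β Ω := by
    rw [mem_Tor, ← act_mul, mul_comm, act_mul, mem_Tor.1 hT, map_zero]
  have hmem : act γ T - ac W27 s T ∈ Tor β Ω := sub_mem hgT (ac_mem s hT)
  have h0 := kr_tor V β hβv hmem hK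
  exact (sub_eq_zero.1 h0).symm

end H13S
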