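import Mathlib
import Pool.Agent.Lib.H13S.DS
import Pool.Agent.Lib.H13S.EXV
import Pool.Agent.Lib.H13S.FR
import Pool.Agent.Lib.H13S.GIF
import Pool.Agent.Lib.H13S.VW

open NumberField IsDedekindDomain

namespace H13S

open H55P H28G H55B

section gal

open Polynomial in
theorem PA1_card (k : Type) [Field k] [Finite k] (q : ℕ) (hq : 1 < q) (h : ∀ y : k, y ^ q = y) :
    Nat.card k ≤ q := by
  classical
  have := Fintype.ofFinite k
  rw [Nat.card_eq_fintype_card, ← Finset.card_univ]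
  have h0 : (X ^ q - X : k[X]) ≠ 0 := FiniteField.X_pow_card_sub_X_ne_zero k hq
  have hd : (X ^ q - X : k[X]).natDegree = q := FiniteField.X_pow_card_sub_X_natDegree_eq k hq
  have h1 : (Finset.univ : Finset k) ⊆ (X ^ q - X : k[X]).roots.toFinset := by
    intro y _
    rw [Multiset.mem_toFinset, mem_roots h0, IsRoot, eval_sub, eval_pow, eval_X, h y, sub_self]
  calc _ ≤ (X ^ q - X : k[X]).roots.toFinset.card := Finset.card_le_card h1
    _ ≤ Multiset.card (X ^ q - X : k[X]).roots := Multiset.toFinset_card_le _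
    _ ≤ (X ^ q - X : k[X]).natDegree := card_roots' _
    _ = q := hd

/-- Finitely many primes are ramified. -/
theorem PA1_ram (K L : Type) [Field K] [NumberField K] [Field L] [NumberField L] [Algebra K L]
    [IsGalois K L] : {v : HeightOneSpectrum (𝓞 K) | v.asIdeal.ramificationIdxIn (𝓞 L) ≠ 1}.Finite := by
  have hD : differentIdeal (𝓞 K) (𝓞 L) ≠ 0 := differentIdeal_ne_bot
  have hfin := Ideal.finite_factors hD
  have hinj : Function.Injective (algebraMap (𝓞 K) (𝓞 L)) := FaithfulSMul.algebraMap_injective _ _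
  let f : HeightOneSpectrum (𝓞 L) → HeightOneSpectrum (𝓞 K) := fun P =>
    ⟨P.asIdeal.under (𝓞 K), inferInstance, fun h => P.ne_bot (Ideal.eq_bot_of_comap_eq_bot h)⟩
  refine (hfin.image f).subset ?_
  intro v hv
  have hvm := v.isMaximal
  obtain ⟨P, hP1, hP2⟩ := Ideal.exists_maximal_ideal_liesOver_of_isIntegral (S := 𝓞 L) v.asIdeal
  have hPp := hP1.isPrime
  have hPb : P ≠ ⊥ := Ideal.ne_bot_of_liesOver_of_ne_bot v.ne_bot P
  refine ⟨⟨P, hPp, hPb⟩, ?_, ?_⟩
  · change v.asIdeal.ramificationIdxIn (𝓞 L) ≠ 1 at hv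
    rw [Ideal.ramificationIdxIn_eq_ramificationIdx v.asIdeal P Gal(L/K)] at hv
    have h1 : 0 < P.ramificationIdx (𝓞 K) := Ideal.ramificationIdx_pos P (𝓞 K)
    have h2 : 2 ≤ v.asIdeal.ramificationIdx' P := by
      rw [Ideal.ramificationIdx'_eq_ramificationIdx v.asIdeal P v.ne_bot]
      omega
    have h4 := Ideal.le_pow_of_le_ramificationIdx' h2
    have h5 := pow_sub_one_dvd_differentIdeal (𝓞 K) P 2 v.ne_bot (Ideal.dvd_iff_le.2 h4)
    show P ∣ differentIdeal (𝓞 K) (𝓞 L)
    rwa [show 2 - 1 = 1 from rfl, pow_one] at h5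
  · apply HeightOneSpectrum.ext
    exact hP2.over.symm

variable {F₀ : Type} [Field F₀] [NumberField F₀] {Ω : Type} [Field Ω] [Algebra F₀ Ω]
    [IsAlgClosure F₀ Ω]

/-- A normal open subgroup containing all Frobenius elements of degree one outside a finite set is everything. -/
theorem PA1_top (H : Subgroup (Ω ≃ₐ[F₀] Ω)) (hn : H.Normal) (L : IntermediateField F₀ Ω)
    [FiniteDimensional F₀ L] (hL : L.fixingSubgroup ≤ H) (S : Set (HeightOneSpectrum (𝓞 F₀)))
    (hS : S.Finite)
    (h : ∀ v : HeightOneSpectrum (𝓞 F₀), v ∉ S → (Ideal.absNorm v.asIdeal).Prime →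
      ∀ V : ValuationSubring Ω,
      (∀ a : 𝓞 F₀, a ∈ v.asIdeal → V.valuation (algebraMap F₀ Ω (a : F₀)) < 1) →
      ∀ s : Ω ≃ₐ[F₀] Ω, (∀ x ∈ V, V.valuation (s x - x ^ Ideal.absNorm v.asIdeal) < 1) → s ∈ H) :
    H = ⊤ := by
  have hac : IsAlgClosed Ω := IsAlgClosure.isAlgClosed F₀
  have halg : Algebra.IsAlgebraic F₀ Ω := IsAlgClosure.isAlgebraic
  have hgal : IsGalois F₀ Ω := inferInstance
  let E : IntermediateField F₀ Ω := IntermediateField.fixedField H
  have hEL : E ≤ L := by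
    rw [← InfiniteGalois.fixedField_fixingSubgroup L]
    exact IntermediateField.fixedField_antitone hL
  have hEf : FiniteDimensional F₀ E :=
    FiniteDimensional.of_injective (IntermediateField.inclusion hEL).toLinearMap
      (IntermediateField.inclusion_injective hEL)
  have hEn : NumberField E := NumberField.of_module_finite F₀ E
  have hEH : E.fixingSubgroup = H := by
    have ho : IsOpen (H : Set (Ω ≃ₐ[F₀] Ω)) := Subgroup.isOpen_mono hL L.fixingSubgroup_isOpen
    exact InfiniteGalois.fixingSubgroup_fixedField ⟨H, H.isClosed_of_isOpen ho⟩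
  have hnorm : Normal F₀ E := by
    rw [IntermediateField.normal_iff_forall_map_le']
    rintro σ _ ⟨x, hx, rfl⟩
    intro t
    have h1 := hx ⟨σ⁻¹ * t * σ, by
      have := hn.conj_mem t.1 t.2 σ⁻¹
      rwa [inv_inv] at this⟩
    have h2 : σ⁻¹ ((t : Ω ≃ₐ[F₀] Ω) (σ x)) = x := h1
    have h4 := congrArg σ h2
    rw [← AlgEquiv.mul_apply, mul_inv_cancel, AlgEquiv.one_apply] at h4
    exact h4
  have hEg : IsGalois F₀ E := {}
  have hfin : (S ∪ {v : HeightOneSpectrum (𝓞 F₀) | v.asIdeal.ramificationIdxIn (𝓞 E) ≠ 1}).Finite :=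
    hS.union (PA1_ram F₀ E)
  have h1 : Module.finrank F₀ E = 1 := by
    refine degree_one_split (F₀ := F₀) E _ hfin ?_
    intro v hv hq
    rw [Set.mem_union, not_or] at hv
    refine ⟨not_not.1 hv.2, ?_⟩
    have hvm := v.isMaximal
    obtain ⟨P, hP1, hP2⟩ := Ideal.exists_maximal_ideal_liesOver_of_isIntegral (S := 𝓞 E) v.asIdeal
    have hPp := hP1.isPrime
    have hPb : P ≠ ⊥ := Ideal.ne_bot_of_liesOver_of_ne_bot v.ne_bot P
    let w : HeightOneSpectrum (𝓞 E) := ⟨P, hPp, hPb⟩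
    obtain ⟨V, hV⟩ := exists_above E w
    have hw : ∀ a : 𝓞 E, V.valuation ((a : E) : Ω) < 1 ↔ a ∈ P := by
      intro a
      rw [hV.lt (a : E)]
      exact w.valuation_lt_one_iff_mem a
    have hv1 : ∀ a : 𝓞 F₀, a ∈ v.asIdeal → V.valuation (algebraMap F₀ Ω (a : F₀)) < 1 := by
      intro a ha
      have h2 : algebraMap (𝓞 F₀) (𝓞 E) a ∈ P := by
        rw [hP2.over] at ha
        exact ha
      exact (hw _).2 h2
    obtain ⟨s, -, hs⟩ := exists_frob v V hv1
    have hsH := h v hv.1 hq V hv1 s hs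
    show v.asIdeal.inertiaDegIn (𝓞 E) = 1
    rw [Ideal.inertiaDegIn_eq_inertiaDeg v.asIdeal P Gal(E/F₀)]
    have hfix : ∀ a : 𝓞 E, a - a ^ Ideal.absNorm v.asIdeal ∈ P := by
      intro a
      rw [← hw]
      have h2 : s ((a : E) : Ω) = ((a : E) : Ω) := by
        rw [← hEH] at hsH
        exact hsH (a : E)
      have h4 : ((a : E) : Ω) ∈ V := by
        rw [hV]
        exact w.valuation_le_one a
      have h5 := hs _ h4
      rw [h2] at h5
      exact h5
    have hcard := Ideal.cardQuot_pow_inertiaDeg v.asIdeal P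
    have hle : Submodule.cardQuot P ≤ Ideal.absNorm v.asIdeal := by
      rw [Submodule.cardQuot_apply]
      let _ : Field (𝓞 E ⧸ P) := Ideal.Quotient.field P
      have hfq : Finite (𝓞 E ⧸ P) := Ideal.finiteQuotientOfFreeOfNeBot P hPb
      refine PA1_card (𝓞 E ⧸ P) _ hq.one_lt ?_
      intro y
      obtain ⟨a, rfl⟩ := Ideal.Quotient.mk_surjective y
      rw [← map_pow]
      exact ((Ideal.Quotient.mk_eq_mk_iff_sub_mem _ _).2 (hfix a)).symm
    rw [← hcard, ← Ideal.absNorm_apply] at hle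
    have hf0 := Ideal.inertiaDeg_pos P (𝓞 F₀)
    have hf1 : P.inertiaDeg (𝓞 F₀) ≤ 1 := by
      by_contra hcon
      have h2 : Ideal.absNorm v.asIdeal ^ 1 < Ideal.absNorm v.asIdeal ^ P.inertiaDeg (𝓞 F₀) :=
        Nat.pow_lt_pow_right hq.one_lt (by omega)
      rw [pow_one] at h2
      omega
    omega
  have h2 : E = ⊥ := IntermediateField.finrank_eq_one_iff.1 h1
  rw [← hEH, h2, IntermediateField.fixingSubgroup_bot]

end gal

variable {Ω : Type} [Field Ω] [DecidableEq Ω] [Algebra F Ω] [IsAlgClosure F Ω]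

/-- Every nonzero point killed by beta generates. -/
theorem PA1_gen (β : O) (hβ : Prime β) (h3 : Prim β) (T₀ : P27 Ω) (hT : T₀ ∈ Tor β Ω) (h0 : T₀ ≠ 0) :
    (∀ T ∈ Tor β Ω, ∃ a : O, T = act a T₀) ∧ ∀ a : O, act a T₀ = 0 ↔ β ∣ a := by
  obtain ⟨_, G₀, hG, hgen, hz⟩ := gi_gen (Ω := Ω) β hβ h3
  obtain ⟨t, ht⟩ := hgen T₀ hT
  have hnt : ¬ β ∣ t := by
    intro h
    exact h0 (ht.trans ((hz t).2 h))
  have hc : IsCoprime β t := (hβ.irreducible.coprime_iff_not_dvd).2 hnt
  obtain ⟨w, u, huw⟩ := hc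
  refine ⟨fun T hT' => ?_, fun a => ?_⟩
  · obtain ⟨x, hx⟩ := hgen T hT'
    refine ⟨x * u, ?_⟩
    rw [ht, ← act_mul, hx]
    have h1 : x = x * u * t + x * w * β := by linear_combination (-x) * huw
    conv_lhs => rw [h1]
    rw [act_add, act_mul (x * w) β, mem_Tor.1 hG, map_zero, add_zero]
  · rw [ht, ← act_mul, hz]
    constructor
    · intro h
      exact (hβ.dvd_or_dvd h).resolve_right hnt
    · intro h
      exact dvd_mul_of_dvd_left h t

theorem PA1_cjprim {x : O} (h : Prim x) : Prim (cj x) := by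
  obtain ⟨y, hy⟩ := h
  refine ⟨cj y, ?_⟩
  have h1 := congrArg cj hy
  rw [map_sub, map_one, map_mul, map_ofNat] at h1
  exact h1

theorem PA1_cjdvd {x y : O} : cj x ∣ y ↔ x ∣ cj y := by
  constructor
  · rintro ⟨z, rfl⟩
    rw [map_mul, cj_cj]
    exact Dvd.intro _ rfl
  · rintro ⟨z, hz⟩
    refine ⟨cj z, ?_⟩
    rw [← map_mul, ← hz, cj_cj]

omit [DecidableEq Ω] [IsAlgClosure F Ω] in
theorem PA1_int (V : ValuationSubring Ω) (x : O) : V.valuation (algebraMap F Ω (x : F)) ≤ 1 := by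
  have h1 : IsIntegral ℤ (algebraMap F Ω (x : F)) :=
    map_isIntegral_int (algebraMap F Ω) (RingOfIntegers.isIntegral_coe x)
  have h2 : IsIntegral V (algebraMap F Ω (x : F)) := h1.tower_top
  obtain ⟨y, hy⟩ := (IsIntegrallyClosed.isIntegral_iff (R := V) (K := Ω)).1 h2
  rw [ValuationSubring.valuation_le_one_iff, ← hy]
  exact y.2

omit [IsAlgClosure F Ω] in
/-- Roots of unity at a Frobenius element. -/
theorem PA1_zeta (l : ℕ) (hl : l.Prime) (ζ : Ω) (hζ : IsPrimitiveRoot ζ l) (V : ValuationSubring Ω)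
    (hV : ¬ V.valuation (l : Ω) < 1) (q : ℕ) (s : Ω ≃ₐ[F] Ω)
    (hs : ∀ x ∈ V, V.valuation (s x - x ^ q) < 1) : s ζ = ζ ^ q := by
  have hl0 : NeZero l := ⟨hl.ne_zero⟩
  have hz1 : V.valuation ζ = 1 := by
    have h1 : V.valuation ζ ^ l = 1 := by rw [← map_pow, hζ.pow_eq_one, map_one]
    exact (pow_eq_one_iff_of_nonneg zero_le hl.ne_zero).1 h1
  have hzV : ζ ∈ V := (V.valuation_le_one_iff ζ).1 hz1.le
  by_contra hne
  have hz0 : ζ ^ q ≠ 0 := pow_ne_zero _ (hζ.ne_zero hl.ne_zero)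
  let ξ : Ω := s ζ / ζ ^ q
  have hξ1 : ξ ≠ 1 := fun h => hne ((div_eq_one_iff_eq hz0).1 h)
  have hξl : ξ ^ l = 1 := by
    show (s ζ / ζ ^ q) ^ l = 1
    rw [div_pow, ← map_pow, hζ.pow_eq_one, map_one, ← pow_mul, mul_comm, pow_mul, hζ.pow_eq_one,
      one_pow, div_one]
  have hξv : V.valuation (ξ - 1) < 1 := by
    have h1 : ξ - 1 = (s ζ - ζ ^ q) / ζ ^ q := by
      show s ζ / ζ ^ q - 1 = _
      field_simp
    rw [h1, map_div₀, map_pow, hz1, one_pow, div_one]
    exact hs ζ hzV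
  have hξV : ξ ∈ V := by
    have h1 : ξ - 1 ∈ V := (V.valuation_le_one_iff _).1 hξv.le
    have h2 := V.add_mem _ _ h1 V.one_mem
    rwa [sub_add_cancel] at h2
  let x : V := ⟨ξ, hξV⟩
  have hr : IsLocalRing.residue V x = 1 := by
    have h1 : x - 1 ∈ IsLocalRing.maximalIdeal V := by
      rw [ValuationSubring.valuation_lt_one_iff]
      exact hξv
    have h2 := (IsLocalRing.residue_eq_zero_iff _).2 h1
    rw [map_sub, map_one, sub_eq_zero] at h2
    exact h2
  have hsum : ∑ i ∈ Finset.range l, x ^ i = 0 := by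
    apply Subtype.ext
    have h1 := geom_sum_mul ξ l
    rw [hξl, sub_self] at h1
    have h2 := (mul_eq_zero.1 h1).resolve_right (sub_ne_zero.2 hξ1)
    rw [ZeroMemClass.coe_zero, ← h2]
    push_cast
    rfl
  have h1 : IsLocalRing.residue V (l : V) = 0 := by
    have h2 := congrArg (IsLocalRing.residue V) hsum
    rw [map_sum, map_zero] at h2
    simp only [map_pow, hr, one_pow, Finset.sum_const, Finset.card_range, nsmul_eq_mul, mul_one] at h2
    rw [map_natCast]
    exact h2
  apply hV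
  have h2 := (IsLocalRing.residue_eq_zero_iff _).1 h1
  have h4 := (ValuationSubring.valuation_lt_one_iff V (l : V)).1 h2
  exact h4

/-- Chunk PA1 (M/L). The determinant of the Galois action: conj(chi'(s)) chi(s) = cyclotomic(s) modulo pi.
Let H be the set of all s in G = Gal(Ω/F) for which the conclusion holds for the (unique modulo pi, cj pi, l) a, b, c attached to s. chi, chi' (exists_chi for
pi and cj pi) and the cyclotomic character are homomorphisms, so H is the kernel of the homomorphism s -> cj(chi'(s)) chi(s) / cyc(s) to (O/pi)^*; it is a normal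
subgroup containing the open subgroup M.fixingSubgroup, M = F(coordinates of Tor pi, Tor (cj pi), zeta) finite over F. E = fixed field of H: Galois over F, finite,
number field, E.fixingSubgroup = H (H is open, hence closed). Let v be a prime of F not above 3 l, with N v prime, unramified in E, gamma its primary generator (H55B.gen;
Prim). V above v (exists_above for a field, or any valuation ring with value of gamma < 1), s a Frobenius element at V (exists_frob).
gi_frob: ac s T₀ = act gamma T₀, ac s T₀' = act gamma T₀', so a = gamma mod pi, b = gamma mod cj pi; s zeta = zeta^(N v) because s zeta - zeta^(N v) has value < 1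
and different l-th roots of unity differ by elements dividing l (a V-unit). So cj b a - c = cj gamma gamma - Nm gamma = 0 modulo pi (mul_cj): s in H, s acts
trivially on E, so x = x^(N v) modulo the prime of E below V for all x in 𝓞 E: the residue degree is 1. All Frobenius elements and all V above v behave like this, so v splits completely
in E (es = 1, fs = 1, see H55R/Defs: es, fs are ramificationIdxIn, inertiaDegIn). degree_one_split: E = F, H = G. -/
theorem char_id (π : O) (l : ℕ) (hl : l.Prime) (h5 : 5 ≤ l) (hπ : Prime π) (h3 : Prim π) (hd : π ∣ (l : O))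
    (ζ : Ω) (hζ : IsPrimitiveRoot ζ l) (s : Ω ≃ₐ[F] Ω) (a b : O) (c : ℕ) (T₀ T₀' : P27 Ω)
    (hT : T₀ ∈ Tor π Ω) (hT0 : T₀ ≠ 0) (hT' : T₀' ∈ Tor (cj π) Ω) (hT0' : T₀' ≠ 0)
    (ha : ac W27 s T₀ = act a T₀) (hb : ac W27 s T₀' = act b T₀') (hc : s ζ = ζ ^ c) :
    π ∣ cj b * a - (c : O) := by
  classical
  have hl0 : NeZero l := ⟨hl.ne_zero⟩
  have hac : IsAlgClosed Ω := IsAlgClosure.isAlgClosed F
  have halg : Algebra.IsAlgebraic F Ω := IsAlgClosure.isAlgebraic
  have hπ' : Prime (cj π) := (MulEquiv.prime_iff cj).2 hπ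
  have h3' : Prim (cj π) := PA1_cjprim h3
  have hd' : cj π ∣ (l : O) := by
    rw [PA1_cjdvd, map_natCast]
    exact hd
  obtain ⟨hg, hz⟩ := PA1_gen π hπ h3 T₀ hT hT0
  obtain ⟨hg', hz'⟩ := PA1_gen (cj π) hπ' h3' T₀' hT' hT0'
  have hex : ∀ t : Ω ≃ₐ[F] Ω, ∃ p : O × O × ℕ, ac W27 t T₀ = act p.1 T₀ ∧
      ac W27 t T₀' = act p.2.1 T₀' ∧ t ζ = ζ ^ p.2.2 := by
    intro t
    obtain ⟨x, hx⟩ := hg _ (ac_mem t hT)
    obtain ⟨y, hy⟩ := hg' _ (ac_mem t hT')
    have h1 : (t ζ) ^ l = 1 := by rw [← map_pow, hζ.pow_eq_one, map_one]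
    obtain ⟨i, _, hi⟩ := hζ.eq_pow_of_pow_eq_one h1
    exact ⟨⟨x, y, i⟩, hx, hy, hi.symm⟩
  choose p hp using hex
  let mk : O →+* O ⧸ Ideal.span {π} := Ideal.Quotient.mk (Ideal.span {π})
  have hmk : ∀ x y : O, mk x = mk y ↔ π ∣ x - y := by
    intro x y
    rw [← Ideal.mem_span_singleton]
    exact Ideal.Quotient.mk_eq_mk_iff_sub_mem _ _
  have uniq1 : ∀ (t : Ω ≃ₐ[F] Ω) (x y : O), ac W27 t T₀ = act x T₀ → ac W27 t T₀' = act y T₀' →
      mk (cj y * x) = mk (cj (p t).2.1 * (p t).1) := by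
    intro t x y hx hy
    have h1 : π ∣ x - (p t).1 := by
      rw [← hz, act_sub, ← hx, ← (hp t).1, sub_self]
    have h2 : π ∣ cj y - cj (p t).2.1 := by
      rw [← map_sub, ← PA1_cjdvd, ← hz', act_sub, ← hy, ← (hp t).2.1, sub_self]
    rw [map_mul mk, map_mul mk, (hmk _ _).2 h1, (hmk _ _).2 h2]
  have uniq2 : ∀ (t : Ω ≃ₐ[F] Ω) (n : ℕ), t ζ = ζ ^ n → mk (n : O) = mk ((p t).2.2 : O) := by
    intro t n hn
    have h1 : ζ ^ n = ζ ^ (p t).2.2 := by rw [← hn, (hp t).2.2]
    have h2 : n ≡ (p t).2.2 [MOD l] := by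
      rw [← pow_mod_orderOf, ← pow_mod_orderOf ζ (p t).2.2, ← hζ.eq_orderOf] at h1
      exact hζ.pow_inj (Nat.mod_lt _ hl.pos) (Nat.mod_lt _ hl.pos) h1
    rw [hmk]
    have h4 : (l : ℤ) ∣ ((n : ℤ) - ((p t).2.2 : ℤ)) := (Nat.modEq_iff_dvd.1 h2.symm)
    obtain ⟨m, hm⟩ := h4
    have h6 : (n : O) - ((p t).2.2 : O) = (l : O) * (m : O) := by
      exact_mod_cast congrArg (fun z : ℤ => (z : O)) hm
    rw [h6]
    exact dvd_mul_of_dvd_left hd _
  let D : (Ω ≃ₐ[F] Ω) →* (O ⧸ Ideal.span {π}) :=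
    { toFun := fun t => mk (cj (p t).2.1 * (p t).1)
      map_one' := by
        rw [← uniq1 1 1 1 (by rw [ac_one, act_one]) (by rw [ac_one, act_one])]
        simp
      map_mul' := fun t u => by
        rw [← uniq1 (t * u) ((p u).1 * (p t).1) ((p u).2.1 * (p t).2.1)
          (by rw [ac_mul, (hp u).1, ac_act, (hp t).1, ← act_mul])
          (by rw [ac_mul, (hp u).2.1, ac_act, (hp t).2.1, ← act_mul]), ← map_mul, map_mul cj]
        congr 1
        ring }
  let C : (Ω ≃ₐ[F] Ω) →* (O ⧸ Ideal.span {π}) :=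
    { toFun := fun t => mk ((p t).2.2 : O)
      map_one' := by
        rw [← uniq2 1 1 (by rw [pow_one]; rfl)]
        simp
      map_mul' := fun t u => by
        rw [← uniq2 (t * u) ((p t).2.2 * (p u).2.2) (by
          rw [AlgEquiv.mul_apply, (hp u).2.2, map_pow, (hp t).2.2, pow_mul]), ← map_mul]
        congr 1
        push_cast
        rfl }
  have hH : ∀ (t : Ω ≃ₐ[F] Ω) (x y : O) (n : ℕ), ac W27 t T₀ = act x T₀ → ac W27 t T₀' = act y T₀' →
      t ζ = ζ ^ n → (t ∈ MonoidHom.eqLocus D C ↔ π ∣ cj y * x - (n : O)) := by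
    intro t x y n hx hy hn
    rw [← hmk, uniq1 t x y hx hy, uniq2 t n hn]
    exact Iff.rfl
  have key : MonoidHom.eqLocus D C = ⊤ := by
    have hint : ∀ x : Ω, IsIntegral F x := fun x => (Algebra.IsAlgebraic.isAlgebraic x).isIntegral
    let A : Set Ω := {xc T₀, yc T₀, xc T₀', yc T₀', ζ}
    have hAf : A.Finite := Set.toFinite A
    have hAf' : Finite A := hAf
    have hLf : FiniteDimensional F (IntermediateField.adjoin F A) :=
      IntermediateField.finiteDimensional_adjoin fun x _ => hint x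
    refine PA1_top (F₀ := F) (MonoidHom.eqLocus D C) ?_ (IntermediateField.adjoin F A) ?_
      ({v | (3 : O) ∈ v.asIdeal} ∪ {v | (l : O) ∈ v.asIdeal}) ?_ ?_
    · constructor
      intro t ht g
      show D (g * t * g⁻¹) = C (g * t * g⁻¹)
      have h1 : D t = C t := ht
      rw [map_mul, map_mul, map_mul, map_mul, mul_right_comm, mul_right_comm (C g), h1, ← map_mul,
        ← map_mul, mul_inv_cancel, map_one, map_one]
    · intro t ht
      have hfix : ∀ x ∈ A, t x = x := fun x hx =>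
        ht ⟨x, IntermediateField.subset_adjoin F A hx⟩
      have hacne : ∀ P : P27 Ω, P ≠ 0 → ac W27 t P ≠ 0 := fun P hP => mp_ne t.toAlgHom hP
      have e1 : ac W27 t T₀ = act 1 T₀ := by
        rw [act_one]
        refine pt_ext (hacne _ hT0) hT0 ?_ ?_
        · rw [ac_eq, xc_mp]
          exact hfix _ (by simp [A])
        · rw [ac_eq, yc_mp]
          exact hfix _ (by simp [A])
      have e2 : ac W27 t T₀' = act 1 T₀' := by
        rw [act_one]
        refine pt_ext (hacne _ hT0') hT0' ?_ ?_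
        · rw [ac_eq, xc_mp]
          exact hfix _ (by simp [A])
        · rw [ac_eq, yc_mp]
          exact hfix _ (by simp [A])
      rw [hH t 1 1 1 e1 e2 (by rw [pow_one]; exact hfix _ (by simp [A]))]
      simp
    · have hf : ∀ n : ℕ, n ≠ 0 → {v : HeightOneSpectrum O | (n : O) ∈ v.asIdeal}.Finite := by
        intro n hn
        have h1 : Ideal.span {(n : O)} ≠ 0 := by
          rw [Ideal.zero_eq_bot, Ne, Ideal.span_singleton_eq_bot]
          exact Nat.cast_ne_zero.2 hn
        refine (Ideal.finite_factors h1).subset ?_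
        intro v hv
        exact Ideal.dvd_span_singleton.2 hv
      exact (hf 3 (by norm_num)).union (hf l hl.ne_zero)
    · intro v hv hq V hV t ht
      rw [Set.mem_union, not_or] at hv
      obtain ⟨hv3, hvl⟩ := hv
      change (3 : O) ∉ v.asIdeal at hv3
      change (l : O) ∉ v.asIdeal at hvl
      obtain ⟨hγ1, hγ3⟩ := gen_spec v hv3
      have hγp := gen_prime v hv3
      have hγn := absNorm_gen v hv3
      have hγV : vo V (gen v) < 1 := hV (gen v) ((gen_dvd_iff v hv3 _).1 dvd_rfl)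
      have hn1 : ¬ gen v ∣ π := fun h => hvl ((gen_dvd_iff v hv3 _).1 (h.trans hd))
      have hn2 : ¬ gen v ∣ cj π := fun h => hvl ((gen_dvd_iff v hv3 _).1 (h.trans hd'))
      rw [hγn] at ht
      have f1 := gi_frob π (gen v) hπ h3 hγp hγ3 hn1 V hγV t ht T₀ hT
      have f2 := gi_frob (cj π) (gen v) hπ' h3' hγp hγ3 hn2 V hγV t ht T₀' hT'
      have hVl : ¬ V.valuation (l : Ω) < 1 := by
        intro hlt
        have hcop : IsCoprime (gen v) (l : O) :=
          (hγp.irreducible.coprime_iff_not_dvd).2 fun h => hvl ((gen_dvd_iff v hv3 _).1 h)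
        obtain ⟨x, y, hxy⟩ := hcop
        have h1 : algebraMap F Ω (x : F) * algebraMap F Ω (gen v : F) +
            algebraMap F Ω (y : F) * (l : Ω) = 1 := by
          have h2 : (x : F) * (gen v : F) + (y : F) * (l : F) = 1 := by
            exact_mod_cast congrArg (fun z : O => (z : F)) hxy
          have h4 := congrArg (algebraMap F Ω) h2
          rw [map_add, map_mul, map_mul, map_natCast, map_one] at h4
          exact h4
        have h2 : V.valuation (algebraMap F Ω (x : F) * algebraMap F Ω (gen v : F)) < 1 := by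
          rw [map_mul]
          exact mul_lt_one_of_nonneg_of_lt_one_right (PA1_int V x) zero_le hγV
        have h4 : V.valuation (algebraMap F Ω (y : F) * (l : Ω)) < 1 := by
          rw [map_mul]
          exact mul_lt_one_of_nonneg_of_lt_one_right (PA1_int V y) zero_le hlt
        have h6 := V.valuation.map_add_lt h2 h4
        rw [h1, map_one] at h6
        exact lt_irrefl _ h6
      have f3 := PA1_zeta l hl ζ hζ V hVl (Nm (gen v)) t ht
      rw [hH t _ _ _ f1 f2 f3, mul_comm, mul_cj, sub_self]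
      exact dvd_zero _
  have h1 : s ∈ MonoidHom.eqLocus D C := by
    rw [key]
    exact Subgroup.mem_top s
  exact (hH s a b c ha hb hc).1 h1

end H13S
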