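import Mathlib
import Pool.Agent.Lib.H13S.VW

open NumberField IsDedekindDomain

namespace H13S

open H55P

theorem dv_le {F₀ : Type} [Field F₀] {Ω : Type} [Field Ω] [Algebra F₀ Ω] {V : ValuationSubring Ω}
    (s : Ω ≃ₐ[F₀] Ω) (hs : Dec V s) (a b : Ω) :
    V.valuation (s a) ≤ V.valuation (s b) ↔ V.valuation a ≤ V.valuation b := by
  by_cases hb : b = 0
  · subst hb
    simp
  · have hb1 : 0 < V.valuation b := by
      rw [zero_lt_iff, Ne, map_eq_zero]
      exact hb
    have hb2 : 0 < V.valuation (s b) := by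
      rw [zero_lt_iff, Ne, map_eq_zero, map_eq_zero]
      exact hb
    have h3 := hs (a / b)
    rw [← V.valuation_le_one_iff, ← V.valuation_le_one_iff, map_div₀ s, map_div₀ V.valuation,
      map_div₀ V.valuation, div_le_one₀ hb1, div_le_one₀ hb2] at h3
    exact h3

theorem dv_val {L : Type} [Field L] [NumberField L] (w : HeightOneSpectrum (𝓞 L)) (σ : L →+* L)
    (hσ : Function.Surjective σ)
    (h : ∀ a b : L, w.valuation L (σ a) ≤ w.valuation L (σ b) ↔ w.valuation L a ≤ w.valuation L b)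
    (x : L) : w.valuation L (σ x) = w.valuation L x := by
  have heq : ∀ a b : L, w.valuation L a = w.valuation L b →
      w.valuation L (σ a) = w.valuation L (σ b) := fun a b hab =>
    le_antisymm ((h a b).2 hab.le) ((h b a).2 hab.ge)
  have heq' : ∀ a b : L, w.valuation L (σ a) = w.valuation L (σ b) →
      w.valuation L a = w.valuation L b := fun a b hab =>
    le_antisymm ((h a b).1 hab.le) ((h b a).1 hab.ge)
  have hlt : ∀ a : L, w.valuation L (σ a) < 1 ↔ w.valuation L a < 1 := by
    intro a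
    rw [← not_le, ← not_le, not_iff_not]
    have h1 := h 1 a
    rw [map_one, map_one] at h1
    exact h1
  obtain ⟨t, ht⟩ := w.valuation_exists_uniformizer L
  obtain ⟨t', ht'⟩ := hσ t
  have hexp : ∀ y : WithZero (Multiplicative ℤ), y ≠ 0 → ∃ n : ℤ, y = WithZero.exp n := by
    intro y hy
    exact ⟨WithZero.log y, (WithZero.exp_log hy).symm⟩
  have ht0 : t ≠ 0 := by
    rintro rfl
    rw [map_zero] at ht
    exact WithZero.exp_ne_zero ht.symm
  have ht1 : w.valuation L t < 1 := by
    rw [ht, ← WithZero.exp_zero, WithZero.exp_lt_exp]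
    omega
  have hz : ∀ (n : ℤ), w.valuation L (t ^ n) = WithZero.exp (-n) := by
    intro n
    rw [map_zpow₀, ht, ← WithZero.exp_zsmul]
    congr 1
    simp
  obtain ⟨a, ha⟩ := hexp (w.valuation L (σ t)) (by
    rw [Ne, map_eq_zero, map_eq_zero]
    exact ht0)
  have ha1 : a < 0 := by
    have h1 := (hlt t).2 ht1
    rw [ha, ← WithZero.exp_zero, WithZero.exp_lt_exp] at h1
    exact h1
  obtain ⟨b, hb⟩ := hexp (w.valuation L t') (by
    rw [Ne, map_eq_zero]
    rintro rfl
    rw [map_zero] at ht'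
    exact ht0 ht'.symm)
  have hb1 : b < 0 := by
    have h1 := (hlt t').1 (by rw [ht']; exact ht1)
    rw [hb, ← WithZero.exp_zero, WithZero.exp_lt_exp] at h1
    exact h1
  have hzs : ∀ n : ℤ, w.valuation L (σ (t ^ n)) = WithZero.exp (n * a) := by
    intro n
    rw [map_zpow₀, map_zpow₀, ha, ← WithZero.exp_zsmul]
    congr 1
  have h2 : w.valuation L (σ t') = w.valuation L (σ (t ^ (-b))) := by
    apply heq
    rw [hz, hb, neg_neg]
  rw [ht', ht, hzs, WithZero.exp_inj] at h2
  have ha2 : a = -1 := by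
    have h3 : b * a = 1 := by linarith
    rcases Int.mul_eq_one_iff_eq_one_or_neg_one.1 h3 with h4 | h4
    · omega
    · exact h4.2
  by_cases hx : x = 0
  · rw [hx, map_zero]
  · obtain ⟨n, hn⟩ := hexp (w.valuation L x) (by
      rw [Ne, map_eq_zero]
      exact hx)
    have h3 : w.valuation L (σ x) = w.valuation L (σ (t ^ (-n))) := by
      apply heq
      rw [hz, hn, neg_neg]
    rw [h3, hzs, hn, ha2]
    congr 1
    ring

/-- Chunk DV (S/M). Automorphisms in the decomposition group preserve the valuation. V.valuation (s a) ≤ V.valuation (s b) iff V.valuation a ≤ V.valuation b (b ≠ 0: s (a/b) in V iff a/b in V), so by Abv.le, with σ the restriction of s to L: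
w (σ a) ≤ w (σ b) iff w a ≤ w b. Uniformizer t; w (σ t) = exp(-a), t = σ t', w t' = exp(-b), a, b ≥ 1; w t' = w (t^b) gives w t = w (σ t') = w (σ t)^b, exp(-1) = exp(-a b), a = b = 1. Then w x = exp(-n) = w (t^n) (integer n) gives w (σ x) = w (σ t)^n = exp(-n). -/
theorem dec_val {F₀ : Type} [Field F₀] {Ω : Type} [Field Ω] [Algebra F₀ Ω] {L : IntermediateField F₀ Ω}
    [NumberField L] {V : ValuationSubring Ω} {w : HeightOneSpectrum (𝓞 L)} (hw : Abv L V w)
    (s : Ω ≃ₐ[F₀] Ω) (hs : Dec V s) (h1 : ∀ x : L, s (x : Ω) ∈ L) (h2 : ∀ x : L, s⁻¹ (x : Ω) ∈ L)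
    (x x' : L) (hx : (x' : Ω) = s (x : Ω)) : w.valuation L x' = w.valuation L x := by
  let σ : L →+* L :=
    { toFun := fun a => ⟨s (a : Ω), h1 a⟩
      map_one' := Subtype.ext (map_one s)
      map_mul' := fun a b => Subtype.ext (map_mul s (a : Ω) (b : Ω))
      map_zero' := Subtype.ext (map_zero s)
      map_add' := fun a b => Subtype.ext (map_add s (a : Ω) (b : Ω)) }
  have hσ : Function.Surjective σ := by
    intro a
    refine ⟨⟨s⁻¹ (a : Ω), h2 a⟩, Subtype.ext ?_⟩
    exact AlgEquiv.apply_symm_apply s (a : Ω)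
  have hx' : x' = σ x := Subtype.ext hx
  rw [hx']
  refine dv_val w σ hσ ?_ x
  intro a b
  rw [← hw.le, ← hw.le]
  exact dv_le s hs (a : Ω) (b : Ω)

end H13S
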