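import Mathlib
import Pool.Agent.Lib.H13S.GIA
import Pool.Agent.Lib.H13S.IN4
import Pool.Agent.Lib.H28G.GV10

open NumberField IsDedekindDomain

namespace H13S

open H55P H28G H55B

section git

variable {k : Type} [Field k] [DecidableEq k] [Algebra F k]
  {Γ : Type} [LinearOrderedCommGroupWithZero Γ] (v : Valuation k Γ)

/-- Elements of O not divisible by the square root of -3 are units at the places above 3. -/
theorem git_unit (h3 : v 3 < 1) {x : O} (hx : ¬ (2 * om + 1) ∣ x) : v (ak k x) = 1 := by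
  obtain ⟨a, b, rfl⟩ := exists_repr x
  have hs1 : v (ak k (2 * om + 1)) < 1 := by
    have h1 : v (ak k (2 * om + 1)) ^ 2 = v 3 := by
      rw [← map_pow, ← map_pow, GV10_s_sq, map_neg, Valuation.map_neg]
      congr 1
      exact map_ofNat _ 3
    by_contra h2
    rw [not_lt] at h2
    have h4 : 1 ≤ v (ak k (2 * om + 1)) ^ 2 := one_le_pow₀ h2
    rw [h1] at h4
    exact absurd h3 (not_lt.2 h4)
  have hab : ¬ (3 : ℤ) ∣ a + b := by
    rintro ⟨c, hc⟩
    apply hx
    have h1 : (a : O) + b = 3 * c := by exact_mod_cast congrArg (fun z : ℤ => (z : O)) hc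
    refine ⟨-(2 * om + 1) * c + (om + 1) * b, ?_⟩
    linear_combination h1 + (4 * (c : O) - 2 * b) * om_rel
  have hcop : IsCoprime (3 : ℤ) (a + b) := by
    rw [Int.isCoprime_iff_gcd_eq_one]
    have h1 : Nat.Prime (3 : ℤ).natAbs := by norm_num
    have h2 := (Int.prime_iff_natAbs_prime.2 h1).coprime_iff_not_dvd (n := a + b)
    exact Int.isCoprime_iff_gcd_eq_one.1 (h2.2 hab)
  obtain ⟨u, w, huw⟩ := hcop
  have h1 : v ((a + b : ℤ) : k) = 1 := by
    apply le_antisymm (GV1_int v _)
    by_contra hlt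
    rw [not_le] at hlt
    have h2 : (u : k) * 3 + w * ((a + b : ℤ) : k) = 1 := by exact_mod_cast congrArg (fun z : ℤ => (z : k)) huw
    have h5 : v ((u : k) * 3 + w * ((a + b : ℤ) : k)) < 1 := by
      apply v.map_add_lt
      · rw [map_mul]
        exact mul_lt_one_of_nonneg_of_lt_one_right (GV1_int v u) zero_le h3
      · rw [map_mul]
        exact mul_lt_one_of_nonneg_of_lt_one_right (GV1_int v w) zero_le hlt
    rw [h2, map_one] at h5
    exact lt_irrefl _ h5
  have h2 : (a : O) + b * om = ((a + b : ℤ) : O) + (2 * om + 1) * ((om + 1) * b) := by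
    push_cast
    linear_combination (-2 * (b : O)) * om_rel
  have h4 : ak k ((a : O) + b * om) = ((a + b : ℤ) : k) + ak k (2 * om + 1) * ak k ((om + 1) * b) := by
    rw [h2, map_add, map_mul, map_intCast]
  rw [h4, v.map_add_eq_of_lt_left, h1]
  rw [h1, map_mul]
  exact mul_lt_one_of_nonneg_of_lt_one_left zero_le hs1 (ak_le v _)

end git

variable {Ω : Type} [Field Ω] [DecidableEq Ω] [Algebra F Ω]

theorem git_dec (V : ValuationSubring Ω) (s : Ω ≃ₐ[F] Ω) (h : Inert V s) : Dec V s := by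
  intro x
  have hmem : ∀ x ∈ V, s x ∈ V := by
    intro x hx
    have h1 : s x = x + (s x - x) := by ring
    rw [h1]
    refine V.add_mem _ _ hx ?_
    exact (V.valuation_le_one_iff _).1 (h x hx).le
  refine ⟨fun hsx => ?_, hmem x⟩
  by_contra hx
  have hx0 : x ≠ 0 := by
    rintro rfl
    exact hx V.zero_mem
  have h1 : x⁻¹ ∈ V := (V.mem_or_inv_mem x).resolve_left hx
  have h2 := h x⁻¹ h1
  have h3 : V.valuation x⁻¹ < 1 := by
    rw [map_inv₀]
    have h4 : ¬ V.valuation x ≤ 1 := fun h4 => hx ((V.valuation_le_one_iff _).1 h4)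
    rw [not_le] at h4
    exact inv_lt_one_of_one_lt₀ h4
  have h4 : V.valuation (s x⁻¹) < 1 := by
    have h5 : s x⁻¹ = (s x⁻¹ - x⁻¹) + x⁻¹ := by ring
    rw [h5]
    exact V.valuation.map_add_lt h2 h3
  rw [map_inv₀, map_inv₀] at h4
  have h5 : V.valuation (s x) ≤ 1 := (V.valuation_le_one_iff _).2 hsx
  have h6 : V.valuation (s x) ≠ 0 := by
    rw [Valuation.ne_zero_iff]
    exact (map_ne_zero s).2 hx0
  have h7 : 1 ≤ (V.valuation (s x))⁻¹ := (one_le_inv₀ (zero_lt_iff.2 h6)).2 h5
  exact absurd h4 (not_lt.2 h7)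

theorem git_pow {k : Type} [Field k] [DecidableEq k] [Algebra F k]
    {Γ : Type} [LinearOrderedCommGroupWithZero Γ] (v : Valuation k Γ) (h3 : v 3 < 1) {x : O}
    (hx : x ≠ 0) : ∃ i : ℕ, v (ak k x) = v (ak k (2 * om + 1)) ^ i := by
  have hnu : ¬ IsUnit (2 * om + 1 : O) := by
    intro h
    have h1 : IsUnit ((2 * om + 1 : O) ^ 2) := h.pow 2
    rw [GV10_s_sq] at h1
    have h2 : IsUnit (3 : O) := by simpa using h1.neg
    have h4 : v (ak k (3 : O)) = 1 := by
      obtain ⟨u, hu⟩ := h2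
      apply le_antisymm (ak_le v _)
      have h5 : v (ak k (3 : O)) * v (ak k ((u⁻¹ : Oˣ) : O)) = 1 := by
        rw [← map_mul, ← map_mul, ← hu, Units.mul_inv, map_one, map_one]
      by_contra hlt
      rw [not_le] at hlt
      have h6 := mul_lt_one_of_nonneg_of_lt_one_left zero_le hlt (ak_le v ((u⁻¹ : Oˣ) : O))
      rw [h5] at h6
      exact lt_irrefl _ h6
    rw [map_ofNat] at h4
    exact absurd h3 (by rw [h4]; exact lt_irrefl _)
  obtain ⟨i, c, hc, hi⟩ := WfDvdMonoid.max_power_factor' hx hnu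
  refine ⟨i, ?_⟩
  rw [hi, map_mul, map_pow, map_mul, map_pow, git_unit v h3 hc, mul_one]

/-- Chunk GIT (S/M). At the places above 3 some element of the decomposition group moves a point. Let T ≠ 0 be in Tor π (gi_gen, Nm π ≥ 2). H28G.D_val with n = π (π is coprime to 6: primary, and π does not divide 2; 2 is a prime element of O or use
Nm): V.valuation (fc T)^4 = (V.valuation 3)^3. Suppose all s with Dec V s fix T. Inert V s implies Dec V s (if x in V then s x = x + (s x - x) in V; if s x in V, x not in V then x⁻¹ in V has value < 1, s x⁻¹ = x⁻¹ + (small) has value < 1,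
contradiction), and s (fc T) = fc (ac W27 s T) = fc T. value_fixed for K = bottom (NumberField (⊥ : IntermediateField F Ω): finite over F): V.valuation (fc T) = V.valuation (algebraMap F Ω a) for some a in F, a ≠ 0. s₃ = 2 om + 1 in O, s₃^2 = -3: r = V.valuation s₃ < 1, r^2 = V.valuation 3, and
s₃ generates the prime of F above 3, so V.valuation a = r^k for an integer k (H55B: valuation of F at span {s₃}, Abv.le or exists_below; a = s₃^k u/v with u, v in O prime to s₃). So r^(4 k) = r^6, 4 k = 6, impossible (r < 1, r ≠ 0). -/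
theorem gi_three [IsAlgClosure F Ω] (π : O) (hπ : Prime π) (h3 : Prim π) (h2 : ¬ π ∣ 2)
    (V : ValuationSubring Ω) (hV : V.valuation (3 : Ω) < 1) :
    ∃ s : Ω ≃ₐ[F] Ω, Dec V s ∧ ∃ T ∈ Tor π Ω, ac W27 s T ≠ T := by
  by_contra hcon
  push Not at hcon
  obtain ⟨-, T, hT, -, hT0⟩ := gi_gen (Ω := Ω) π hπ h3
  have hTne : T ≠ 0 := by
    intro h0
    apply hπ.not_isUnit
    rw [isUnit_iff_dvd_one]
    apply (hT0 1).1
    rw [h0, map_zero]
  have hcop : IsCoprime π 6 := by
    have h6 : (6 : O) = 2 * 3 := by norm_num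
    rw [h6]
    refine IsCoprime.mul_right (hπ.coprime_iff_not_dvd.2 h2) ?_
    obtain ⟨c, hc⟩ := h3
    exact ⟨1, -c, by linear_combination hc⟩
  have hval := D_val V.valuation hV hcop hT hTne
  have hch : CharZero Ω := H28G.char0 (k := Ω)
  have h30 : V.valuation (3 : Ω) ≠ 0 := by
    rw [Valuation.ne_zero_iff]
    norm_num
  have hf0 : fc T ≠ 0 := by
    intro h0
    rw [h0, map_zero, zero_pow (by norm_num)] at hval
    exact pow_ne_zero 3 h30 hval.symm
  have hfix : ∀ s ∈ (⊥ : IntermediateField F Ω).fixingSubgroup, Inert V s → s (fc T) = fc T := by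
    intro s _ hs
    have h4 := hcon s (git_dec V s hs) T hT
    have h5 : fc (ac W27 s T) = s (fc T) := fc_mp s.toAlgHom T
    rw [h4] at h5
    exact h5.symm
  have hnf : NumberField (⊥ : IntermediateField F Ω) := NumberField.of_module_finite F _
  obtain ⟨a, ha0, ha⟩ := value_fixed (⊥ : IntermediateField F Ω) V (fc T) hf0 hfix
  obtain ⟨b, hb⟩ := IntermediateField.mem_bot.1 a.2
  have hb0 : b ≠ 0 := by
    rintro rfl
    rw [map_zero] at hb
    exact ha0 (Subtype.ext hb.symm)
  rw [ha, ← hb] at hval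
  obtain ⟨x, y, hy, rfl⟩ := IsFractionRing.div_surjective (A := O) b
  have hy0 : y ≠ 0 := nonZeroDivisors.ne_zero hy
  have hx0 : x ≠ 0 := by
    rintro rfl
    apply hb0
    rw [map_zero, zero_div]
  obtain ⟨i, hi⟩ := git_pow (k := Ω) V.valuation hV hx0
  obtain ⟨j, hj⟩ := git_pow (k := Ω) V.valuation hV hy0
  have hyv : V.valuation (ak Ω y) ≠ 0 := by
    rw [Valuation.ne_zero_iff]
    unfold ak
    rw [RingHom.comp_apply, Ne, map_eq_zero_iff _ (algebraMap F Ω).injective,
      map_eq_zero_iff _ (FaithfulSMul.algebraMap_injective O F)]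
    exact hy0
  have hd : V.valuation ((algebraMap F Ω) (algebraMap O F x / algebraMap O F y)) =
      V.valuation (ak Ω x) / V.valuation (ak Ω y) := by
    rw [map_div₀, map_div₀]
    rfl
  rw [hd, hi, hj, div_pow, div_eq_iff (by rw [← hj]; exact pow_ne_zero 4 hyv)] at hval
  have hr : V.valuation (ak Ω (2 * om + 1)) ^ 2 = V.valuation (3 : Ω) := by
    rw [← map_pow, ← map_pow, GV10_s_sq, map_neg, Valuation.map_neg]
    congr 1
    exact map_ofNat _ 3
  rw [← hr, ← pow_mul, ← pow_mul, ← pow_mul, ← pow_add] at hval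
  have hr1 : V.valuation (ak Ω (2 * om + 1)) < 1 := by
    by_contra h4
    rw [not_lt] at h4
    have h5 : 1 ≤ V.valuation (ak Ω (2 * om + 1)) ^ 2 := one_le_pow₀ h4
    rw [hr] at h5
    exact absurd hV (not_lt.2 h5)
  have hr0 : 0 < V.valuation (ak Ω (2 * om + 1)) := by
    rw [zero_lt_iff]
    intro h4
    rw [h4] at hr
    exact h30 (by rw [← hr]; exact zero_pow (by norm_num))
  have h5 := pow_right_injective₀ hr0 hr1.ne hval
  omega

end H13S
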