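import Mathlib
import Pool.Agent.Lib.H13S.GIA
import Pool.Agent.Lib.H13S.IN4

open NumberField IsDedekindDomain

namespace H13S

open H55P H28G H55B

variable {Ω : Type} [Field Ω] [DecidableEq Ω] [Algebra F Ω] [IsAlgClosure F Ω]

omit [DecidableEq Ω] [IsAlgClosure F Ω] in
theorem qv_dec (V : ValuationSubring Ω) (s : Ω ≃ₐ[F] Ω) (hs : Inert V s) (x : Ω) : s x ∈ V ↔ x ∈ V := by
  constructor
  · intro hx
    by_contra hcon
    have h1 : 1 < V.valuation x := by
      rw [← not_le, V.valuation_le_one_iff]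
      exact hcon
    have x0 : V.valuation x ≠ 0 := (zero_lt_one.trans h1).ne'
    have h2 : V.valuation x⁻¹ < 1 := by
      rw [map_inv₀]
      exact inv_lt_one_of_one_lt₀ h1
    have h3 := hs x⁻¹ ((V.valuation_le_one_iff _).1 h2.le)
    have h4 : V.valuation (s x⁻¹) < 1 := by
      have h5 := V.valuation.map_add_lt h3 h2
      rwa [sub_add_cancel] at h5
    rw [map_inv₀ s, map_inv₀] at h4
    have h6 : V.valuation (s x) ≤ 1 := (V.valuation_le_one_iff _).2 hx
    have hx0 : x ≠ 0 := by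
      rintro rfl
      exact x0 (map_zero _)
    have h7 : V.valuation (s x) ≠ 0 := (V.valuation.ne_zero_iff).2 ((map_ne_zero s).2 hx0)
    exact absurd h4 (not_lt.2 ((one_le_inv₀ (zero_lt_iff.2 h7)).2 h6))
  · intro hx
    have h1 : s x - x ∈ V := (V.valuation_le_one_iff _).1 (hs x hx).le
    have h2 := V.add_mem _ _ h1 hx
    rwa [sub_add_cancel] at h2

omit [DecidableEq Ω] [IsAlgClosure F Ω] in
theorem qv_le (V : ValuationSubring Ω) (s : Ω ≃ₐ[F] Ω) (hs : Inert V s) (a b : Ω) (hb : b ≠ 0) :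
    V.valuation (s a) ≤ V.valuation (s b) ↔ V.valuation a ≤ V.valuation b := by
  have h1 := qv_dec V s hs (a / b)
  have h2 : 0 < V.valuation b := zero_lt_iff.2 ((Valuation.ne_zero_iff _).2 hb)
  have h3 : 0 < V.valuation (s b) := zero_lt_iff.2 ((Valuation.ne_zero_iff _).2 ((map_ne_zero s).2 hb))
  rw [← V.valuation_le_one_iff, ← V.valuation_le_one_iff, map_div₀ s, map_div₀, map_div₀,
    div_le_one₀ h3, div_le_one₀ h2] at h1
  exact h1

omit [DecidableEq Ω] [IsAlgClosure F Ω] in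
theorem qv_orb [Algebra.IsAlgebraic F Ω] (s : Ω ≃ₐ[F] Ω) (x : Ω) : ∃ n : ℕ, 0 < n ∧ (s ^ n) x = x := by
  have hx : IsIntegral F x := (Algebra.IsAlgebraic.isAlgebraic x).isIntegral
  have hroot : ∀ k : ℕ, (s ^ k) x ∈ (minpoly F x).rootSet Ω := by
    intro k
    rw [Polynomial.mem_rootSet]
    refine ⟨minpoly.ne_zero hx, ?_⟩
    have h1 := Polynomial.aeval_algHom_apply ((s ^ k : Ω ≃ₐ[F] Ω) : Ω →ₐ[F] Ω) x (minpoly F x)
    rw [minpoly.aeval, map_zero] at h1
    exact h1
  obtain ⟨i, j, hij, he⟩ := Finite.exists_ne_map_eq_of_infinite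
    (fun k : ℕ => (⟨(s ^ k) x, hroot k⟩ : (minpoly F x).rootSet Ω))
  have he' : (s ^ i) x = (s ^ j) x := congrArg Subtype.val he
  have key : ∀ i j : ℕ, i < j → (s ^ i) x = (s ^ j) x → ∃ n : ℕ, 0 < n ∧ (s ^ n) x = x := by
    intro i j hlt he
    refine ⟨j - i, by omega, ?_⟩
    apply (s ^ i).injective
    rw [← AlgEquiv.mul_apply, ← pow_add, he]
    congr 2
    omega
  rcases lt_or_gt_of_ne hij with h | h
  · exact key i j h he'
  · exact key j i h he'.symm

theorem qv_val [Algebra.IsAlgebraic F Ω] (V : ValuationSubring Ω) (s : Ω ≃ₐ[F] Ω) (hs : Inert V s)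
    (x : Ω) : V.valuation (s x) = V.valuation x := by
  by_cases hx : x = 0
  · rw [hx, map_zero]
  obtain ⟨n, hn, hnx⟩ := qv_orb s x
  have hne : ∀ k : ℕ, (s ^ k) x ≠ 0 := fun k => (map_ne_zero (s ^ k)).2 hx
  have hs1 : ∀ k : ℕ, (s ^ (k + 1)) x = s ((s ^ k) x) := fun k => by
    rw [pow_succ', AlgEquiv.mul_apply]
  have h0 : (s ^ 0) x = x := by rw [pow_zero]; rfl
  rcases lt_trichotomy (V.valuation (s x)) (V.valuation x) with h | h | h
  · exfalso
    have hstep : ∀ k : ℕ, V.valuation ((s ^ (k + 1)) x) < V.valuation ((s ^ k) x) := by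
      intro k
      induction k with
      | zero =>
        rw [hs1, h0]
        exact h
      | succ k ih =>
        rw [hs1 (k + 1)]
        conv_rhs => rw [hs1 k]
        rw [← not_le] at ih ⊢
        rwa [qv_le V s hs _ _ (hne _)]
    have h1 := strictAnti_nat_of_succ_lt (f := fun k => V.valuation ((s ^ k) x)) hstep hn
    simp only [hnx, h0] at h1
    exact lt_irrefl _ h1
  · exact h
  · exfalso
    have hstep : ∀ k : ℕ, V.valuation ((s ^ k) x) < V.valuation ((s ^ (k + 1)) x) := by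
      intro k
      induction k with
      | zero =>
        rw [hs1, h0]
        exact h
      | succ k ih =>
        rw [hs1 (k + 1)]
        conv_lhs => rw [hs1 k]
        rw [← not_le] at ih ⊢
        rwa [qv_le V s hs _ _ (hne _)]
    have h1 := strictMono_nat_of_lt_succ (f := fun k => V.valuation ((s ^ k) x)) hstep hn
    simp only [hnx, h0] at h1
    exact lt_irrefl _ h1

omit [DecidableEq Ω] [IsAlgClosure F Ω] in
theorem qv_O (V : ValuationSubring Ω) (x : O) : vo V x ≤ 1 := by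
  obtain ⟨a, b, rfl⟩ := exists_repr x
  have h1 : ∀ n : ℤ, vo V (n : O) ≤ 1 := by
    intro n
    have e : algebraMap F Ω (((n : O) : O) : F) = (n : Ω) := by
      have : (((n : O) : O) : F) = (n : F) := map_intCast (algebraMap O F) n
      rw [this, map_intCast]
    unfold vo
    rw [e, V.valuation_le_one_iff]
    exact intCast_mem V n
  have h2 : vo V om ≤ 1 := by
    have h3 : vo V om ^ 3 = 1 := by
      unfold vo
      rw [← map_pow]
      have := ok_cube (k := Ω)
      unfold ok at this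
      rw [this, map_one]
    exact ((pow_eq_one_iff.1 h3).resolve_right (by norm_num)).le
  have e : vo V ((a : O) + b * om) =
      V.valuation (algebraMap F Ω ((a : O) : F) + algebraMap F Ω ((b : O) : F) * algebraMap F Ω ((om : O) : F)) := by
    unfold vo
    rw [← map_mul, ← map_add]
    rfl
  rw [e]
  refine Valuation.map_add_le _ (h1 a) ?_
  rw [map_mul]
  exact (mul_le_mul' (h1 b) h2).trans_eq (mul_one 1)

omit [DecidableEq Ω] [IsAlgClosure F Ω] in
theorem qv_mul (V : ValuationSubring Ω) (x y : O) : vo V (x * y) = vo V x * vo V y := by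
  unfold vo
  rw [← map_mul, ← map_mul]
  rfl

omit [DecidableEq Ω] [IsAlgClosure F Ω] in
theorem qv_powO (V : ValuationSubring Ω) (x : O) (n : ℕ) : vo V (x ^ n) = vo V x ^ n := by
  unfold vo
  rw [← map_pow, ← map_pow]
  rfl

omit [DecidableEq Ω] [IsAlgClosure F Ω] in
theorem qv_unit (V : ValuationSubring Ω) {π x : O} (hπ : Prime π) (hV : vo V π < 1) (hx : ¬ π ∣ x) :
    vo V x = 1 := by
  obtain ⟨u, v, huv⟩ := (hπ.irreducible.coprime_iff_not_dvd).2 hx
  refine le_antisymm (qv_O V x) ?_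
  by_contra hcon
  push Not at hcon
  have h1 : V.valuation (algebraMap F Ω ((u * π : O) : F) + algebraMap F Ω ((v * x : O) : F)) < 1 := by
    refine Valuation.map_add_lt _ ?_ ?_
    · change vo V (u * π) < 1
      rw [qv_mul]
      exact lt_of_le_of_lt (mul_le_mul' (qv_O V u) le_rfl) (by rwa [one_mul])
    · change vo V (v * x) < 1
      rw [qv_mul]
      exact lt_of_le_of_lt (mul_le_mul' (qv_O V v) le_rfl) (by rwa [one_mul])
  have h2 : algebraMap F Ω ((u * π : O) : F) + algebraMap F Ω ((v * x : O) : F) = 1 := by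
    rw [← map_add]
    have : ((u * π : O) : F) + ((v * x : O) : F) = ((u * π + v * x : O) : F) := rfl
    rw [this, huv]
    exact map_one _
  rw [h2, map_one] at h1
  exact lt_irrefl _ h1

omit [DecidableEq Ω] [IsAlgClosure F Ω] in
theorem qv_pos (V : ValuationSubring Ω) {x : O} (hx : x ≠ 0) : vo V x ≠ 0 := by
  unfold vo
  rw [Valuation.ne_zero_iff]
  refine (map_ne_zero _).2 ?_
  exact fun h => hx (RingOfIntegers.coe_injective (h.trans (map_zero (algebraMap O F)).symm))

theorem qv_intpow (V : ValuationSubring Ω) {π : O} (hπ : Prime π) (hV : vo V π < 1) (a : F)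
    (ha : a ≠ 0) : ∃ k : ℤ, V.valuation (algebraMap F Ω a) = vo V π ^ k := by
  have key : ∀ x : O, x ≠ 0 → ∃ n : ℕ, vo V x = vo V π ^ n := by
    intro x hx
    obtain ⟨n, x', hx', he⟩ := WfDvdMonoid.max_power_factor hx hπ.irreducible
    refine ⟨n, ?_⟩
    rw [he, qv_mul, qv_powO, qv_unit V hπ hV hx', mul_one]
  obtain ⟨x, y, hy, rfl⟩ := IsFractionRing.div_surjective (A := O) a
  have hy0 : y ≠ 0 := nonZeroDivisors.ne_zero hy
  have hx0 : x ≠ 0 := by
    rintro rfl
    rw [map_zero, zero_div] at ha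
    exact ha rfl
  obtain ⟨n, hn⟩ := key x hx0
  obtain ⟨m, hm⟩ := key y hy0
  have hp0 := qv_pos V hπ.ne_zero
  refine ⟨(n : ℤ) - m, ?_⟩
  rw [map_div₀, map_div₀, zpow_sub₀ hp0, zpow_natCast, zpow_natCast, ← hn, ← hm]

omit [IsAlgClosure F Ω] in
theorem qv_tt (s : Ω ≃ₐ[F] Ω) (P : P27 Ω) : tt (ac W27 s P) = s (tt P) := tt_mp s.toAlgHom P

theorem qv_kr [Algebra.IsAlgebraic F Ω] (V : ValuationSubring Ω) (s : Ω ≃ₐ[F] Ω) (hs : Inert V s)
    {P : P27 Ω} (hP : Kr V P) : Kr V (ac W27 s P) := by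
  rcases hP with h | h
  · rw [h, map_zero]
    exact kr_zero V
  · right
    have e : xc (ac W27 s P) = s (xc P) := xc_mp s.toAlgHom P
    rwa [e, qv_val V s hs]

omit [IsAlgClosure F Ω] in
theorem qv_add (V : ValuationSubring Ω) {P Q : P27 Ω} (hP : Kr V P) (hQ : Kr V Q) (c : V.ValueGroup)
    (hc : c ≤ 1) (h1 : V.valuation (tt P) ≤ c) (h2 : V.valuation (tt Q) ≤ c) :
    V.valuation (tt (P + Q)) ≤ c := by
  have h3 := kr_tt_add V hP hQ c h1 h2
  have h4 : c ^ 2 ≤ c := by
    rw [sq]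
    exact (mul_le_mul' le_rfl hc).trans_eq (mul_one c)
  have e : tt (P + Q) = (tt (P + Q) - tt P - tt Q) + tt P + tt Q := by ring
  rw [e]
  exact Valuation.map_add_le _ (Valuation.map_add_le _ (h3.trans h4) h1) h2

omit [IsAlgClosure F Ω] in
theorem qv_neg (V : ValuationSubring Ω) {P : P27 Ω} (hP : Kr V P) :
    Kr V (-P) ∧ V.valuation (tt (-P)) ≤ V.valuation (tt P) := by
  have e : act (-1 : O) P = -P := by rw [act_neg, act_one]
  have h1 := kr_act V (-1) hP
  have h2 := kr_tt_act V (-1) hP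
  rw [e] at h1 h2
  refine ⟨h1, ?_⟩
  have h3 : algebraMap F Ω (((-1 : O) : O) : F) = -1 := by
    have : (((-1 : O) : O) : F) = -1 := by
      have h4 := map_neg (algebraMap O F) 1
      rw [map_one] at h4
      exact h4
    rw [this, map_neg, map_one]
  rw [h3] at h2
  have h5 : V.valuation (tt P) ≤ 1 := (kr_tt_lt V hP).le
  have h6 : V.valuation (tt P) ^ 2 ≤ V.valuation (tt P) := by
    rw [sq]
    exact (mul_le_mul' le_rfl h5).trans_eq (mul_one _)
  have e2 : tt (-P) = (tt (-P) - -1 * tt P) + -tt P := by ring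
  rw [e2]
  refine Valuation.map_add_le _ (h2.trans h6) ?_
  rw [Valuation.map_neg]

omit [IsAlgClosure F Ω] in
theorem qv_q {π : O} {l : ℕ} {c : (Ω ≃ₐ[F] Ω) → P27 Ω} (C : Cl π l c) : 3 ≤ Nm π := by
  have hmem : π ∣ ((Nm π : ℕ) : O) := by
    rw [← Ideal.mem_span_singleton]
    exact Ideal.absNorm_mem _
  have h0 : Nm π ≠ 0 := fun h => C.pr.ne_zero (Nm_eq_zero.1 h)
  have h1 : Nm π ≠ 1 := fun h => C.pr.not_isUnit (Nm_eq_one.1 h)
  have h2 : Nm π ≠ 2 := by
    intro h
    rw [h] at hmem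
    have h5 := C.five
    have hodd : Odd l := C.hl.odd_of_ne_two (by omega)
    obtain ⟨m, hm⟩ := hodd
    have h6 : π ∣ 1 := by
      have e : (1 : O) = (l : O) - ((2 : ℕ) : O) * m := by
        rw [hm]
        push_cast
        ring
      rw [e]
      exact dvd_sub C.dvd (Dvd.dvd.mul_right hmem _)
    exact C.pr.not_isUnit (isUnit_of_dvd_one h6)
  omega

/-- Chunk QV (M). The size of the local point. q = Nm pi ≥ 25 (pi divides l ≥ 5, cj pi = pi), tau = V.valuation (tt R) for R ≠ 0 in Tor pi: tau^(q-1) = vo V pi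
(kr_tor_ram). X₀ = act pi Q is in the kernel of reduction (kr_act) and fixed by all s with Inert V s (act pi (c s) = 0), so its coordinates and tt X₀ are fixed; value_fixed for the bottom field: V.valuation (tt X₀) is the
value of an element of F, so (vo V pi)^n with n an integer (pi generates the prime of F below V), n ≥ 1, or tt X₀ = 0. R₀ = c s₀ ≠ 0 is in Tor pi, R₀ = ac s₀ (Q + R) - (Q + R) for every
R in Tor pi (s₀ fixes Tor pi), V.valuation (tt (ac s₀ P)) = V.valuation (tt P) for P in the kernel of reduction, so tau = V.valuation (tt R₀) ≤ V.valuation (tt (Q + R)) for all R (kr_tt_add with c = V.valuation (tt (Q+R)); tt (-P): use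
kr_tt_act with a = -1). In particular tt X₀ ≠ 0 (kr_prod: the product of q nonzero values). If V.valuation (tt Q) > tau: V.valuation (tt (Q + R)) = V.valuation (tt Q) for all R (kr_tt_add), kr_prod: V.valuation (tt Q)^q = (vo V pi)^n,
> tau^q, so (vo V pi)^(n (q-1)) > (vo V pi)^q, n (q - 1) < q, n = 1: done. If V.valuation (tt Q) = tau: all V.valuation (tt (Q + R)) are ≤ tau (kr_tt_add), hence = tau, tau^q = (vo V pi)^n, tau = (vo V pi)^(n-1), tau^(q-1) = vo V pi
= (vo V pi)^((n-1)(q-1)): impossible. -/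
theorem val_point {π : O} {l : ℕ} {c : (Ω ≃ₐ[F] Ω) → P27 Ω} (C : Cl π l c) (hin : cj π = π)
    (V : ValuationSubring Ω) (hV : vo V π < 1) (Q : P27 Ω) (hQ : Kr V Q)
    (hc : ∀ s, Inert V s → c s = ac W27 s Q - Q) (L : IntermediateField F Ω) (hL : IsTF π L)
    (s₀ : Ω ≃ₐ[F] Ω) (h1 : s₀ ∈ L.fixingSubgroup) (h2 : Inert V s₀) (h3 : c s₀ ≠ 0) :
    V.valuation (tt Q) ^ Nm π = vo V π := by
  have hF : IsAlgClosed Ω := IsAlgClosure.isAlgClosed F
  have hA : Algebra.IsAlgebraic F Ω := IsAlgClosure.isAlgebraic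
  have hval : ∀ s, c s ∈ Tor π Ω := fun s => by
    have := C.val s
    rwa [hin] at this
  set ϖ := vo V π with hϖ
  set q := Nm π with hq
  have hq3 : 3 ≤ q := qv_q C
  have hϖ0 : ϖ ≠ 0 := qv_pos V C.pr.ne_zero
  have hϖp : 0 < ϖ := zero_lt_iff.2 hϖ0
  -- the value of the points killed by pi
  set R₀ := c s₀ with hR₀
  obtain ⟨hR₀K, hR₀q⟩ := kr_tor_ram π C.pr C.prim V hV (hval s₀) h3
  set τ := V.valuation (tt R₀) with hτ
  have hτ0 : 0 < τ := by
    rw [zero_lt_iff]
    intro h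
    have h4 : τ ^ (q - 1) = ϖ := hR₀q
    rw [h, zero_pow (by omega)] at h4
    exact hϖ0 h4.symm
  have hτ1 : τ < 1 := kr_tt_lt V hR₀K
  have hTor : ∀ R ∈ Tor π Ω, Kr V R ∧ V.valuation (tt R) ≤ τ := by
    intro R hR
    by_cases h0 : R = 0
    · rw [h0]
      refine ⟨kr_zero V, ?_⟩
      have : tt (0 : P27 Ω) = 0 := (kr_tt_zero V (kr_zero V)).2 rfl
      rw [this, map_zero]
      exact zero_le
    · obtain ⟨h4, h5⟩ := kr_tor_ram π C.pr C.prim V hV hR h0
      refine ⟨h4, le_of_eq ?_⟩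
      have h6 : V.valuation (tt R) ^ (q - 1) = τ ^ (q - 1) := h5.trans hR₀q.symm
      exact (pow_left_inj₀ zero_le zero_le (by omega)).1 h6
  -- translates
  have hs₀ : ∀ R ∈ Tor π Ω, ac W27 s₀ R = R := (hL.2 s₀).1 h1
  have hlow : ∀ R ∈ Tor π Ω, Kr V (Q + R) ∧ τ ≤ V.valuation (tt (Q + R)) := by
    intro R hR
    have hK := kr_add V hQ (hTor R hR).1
    refine ⟨hK, ?_⟩
    have e : R₀ = ac W27 s₀ (Q + R) + -(Q + R) := by
      rw [hR₀, hc s₀ h2, map_add, hs₀ R hR]
      abel
    obtain ⟨n1, n2⟩ := qv_neg V hK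
    have e2 : V.valuation (tt (ac W27 s₀ (Q + R))) = V.valuation (tt (Q + R)) := by
      rw [qv_tt, qv_val V s₀ h2]
    rw [hτ, e]
    exact qv_add V (qv_kr V s₀ h2 hK) n1 _ (kr_tt_lt V hK).le e2.le n2
  -- the point X₀
  have hX₀K := kr_act V π hQ
  have hprod := kr_prod π C.pr C.prim V hV hQ
  obtain ⟨hcard, -⟩ := gi_gen (Ω := Ω) π C.pr C.prim
  have hfin : Finite (Tor π Ω) := by
    apply Nat.finite_of_card_ne_zero
    rw [hcard]
    omega
  let _ : Fintype (Tor π Ω) := Fintype.ofFinite _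
  rw [finprod_eq_prod_of_fintype] at hprod
  have hX₀v : V.valuation (tt (act π Q)) ≠ 0 := by
    rw [← hprod]
    refine Finset.prod_ne_zero_iff.2 fun R _ => ?_
    exact (hτ0.trans_le (hlow R.1 R.2).2).ne'
  have hX₀t : tt (act π Q) ≠ 0 := (Valuation.ne_zero_iff _).1 hX₀v
  have hfix : ∀ s ∈ (⊥ : IntermediateField F Ω).fixingSubgroup, Inert V s →
      s (tt (act π Q)) = tt (act π Q) := by
    intro s _ hs
    have e1 : ac W27 s Q = Q + c s := by
      rw [hc s hs]
      abel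
    rw [← qv_tt, ac_act, e1, map_add, mem_Tor.1 (hval s), add_zero]
  have hNF : NumberField (⊥ : IntermediateField F Ω) := NumberField.of_module_finite F _
  obtain ⟨a, ha, hva⟩ := value_fixed (⊥ : IntermediateField F Ω) V _ hX₀t hfix
  obtain ⟨a', ha'⟩ := IntermediateField.mem_bot.1 a.2
  have ha'0 : a' ≠ 0 := by
    rintro rfl
    rw [map_zero] at ha'
    exact ha (Subtype.ext ha'.symm)
  obtain ⟨k, hk⟩ := qv_intpow V C.pr hV a' ha'0
  rw [ha'] at hk
  have hXk : V.valuation (tt (act π Q)) = ϖ ^ k := hva.trans hk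
  have hk1 : 0 < k := by
    by_contra hcon
    push Not at hcon
    have h4 : V.valuation (tt (act π Q)) < 1 := kr_tt_lt V hX₀K
    rw [hXk] at h4
    have h5 : 1 ≤ ϖ ^ k := by
      rw [← neg_neg k, zpow_neg]
      have h6 : 0 < ϖ ^ (-k) := zpow_pos hϖp _
      rw [one_le_inv₀ h6]
      obtain ⟨n, hn⟩ := Int.eq_ofNat_of_zero_le (neg_nonneg.2 hcon)
      rw [hn]
      exact pow_le_one' hV.le n
    exact absurd h4 (not_lt.2 h5)
  obtain ⟨n, rfl⟩ := Int.eq_ofNat_of_zero_le hk1.le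
  have hn1 : 0 < n := by exact_mod_cast hk1
  have hXn : V.valuation (tt (act π Q)) = ϖ ^ n := hXk
  -- strict monotonicity of the powers
  have hlt : ∀ i j : ℕ, ϖ ^ i < ϖ ^ j → j < i := by
    intro i j h
    by_contra hcon
    push Not at hcon
    exact absurd h (not_lt.2 (pow_le_pow_right_of_le_one' hV.le hcon))
  have heq : ∀ i j : ℕ, ϖ ^ i = ϖ ^ j → i = j := by
    have hanti : StrictAnti (fun i : ℕ => ϖ ^ i) := by
      refine strictAnti_nat_of_succ_lt fun i => ?_
      rw [pow_succ]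
      calc ϖ ^ i * ϖ < ϖ ^ i * 1 := mul_lt_mul_of_pos_left hV (pow_pos hϖp i)
        _ = ϖ ^ i := mul_one _
    exact fun i j h => hanti.injective h
  have hcard' : Fintype.card (Tor π Ω) = q := by
    rw [← Nat.card_eq_fintype_card]
    exact hcard
  have hQlow : τ ≤ V.valuation (tt Q) := by
    have := (hlow 0 (Tor π Ω).zero_mem).2
    rwa [add_zero] at this
  have hQ1 : V.valuation (tt Q) < 1 := kr_tt_lt V hQ
  rcases hQlow.lt_or_eq with hgt | heq'
  · have hall : ∀ R : Tor π Ω, V.valuation (tt (Q + (R : P27 Ω))) = V.valuation (tt Q) := by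
      intro R
      have h4 := (hTor R.1 R.2).2
      have h5 := kr_tt_add V hQ (hTor R.1 R.2).1 (V.valuation (tt Q)) le_rfl (h4.trans hQlow)
      have h6 : V.valuation (tt Q) ^ 2 < V.valuation (tt Q) := by
        rw [sq]
        calc V.valuation (tt Q) * V.valuation (tt Q) < V.valuation (tt Q) * 1 :=
              mul_lt_mul_of_pos_left hQ1 (hτ0.trans hgt)
          _ = _ := mul_one _
      have e : tt (Q + (R : P27 Ω)) = tt Q + ((tt (Q + (R : P27 Ω)) - tt Q - tt (R : P27 Ω)) + tt (R : P27 Ω)) := by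
        ring
      rw [e]
      exact Valuation.map_add_eq_of_lt_left _ (Valuation.map_add_lt _ (h5.trans_lt h6) (h4.trans_lt hgt))
    rw [Finset.prod_congr rfl fun R _ => hall R, Finset.prod_const, Finset.card_univ, hcard', hXn] at hprod
    have h7 : τ ^ (q * (q - 1)) < V.valuation (tt Q) ^ (q * (q - 1)) :=
      pow_lt_pow_left₀ hgt zero_le (Nat.mul_ne_zero (by omega) (by omega))
    have h8 : ϖ ^ q < ϖ ^ (n * (q - 1)) := by
      calc ϖ ^ q = τ ^ (q * (q - 1)) := by
            rw [mul_comm, pow_mul]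
            exact congrArg (fun z => z ^ q) hR₀q.symm
        _ < V.valuation (tt Q) ^ (q * (q - 1)) := h7
        _ = ϖ ^ (n * (q - 1)) := by rw [pow_mul, hprod, ← pow_mul]
    have h9 := hlt _ _ h8
    have hn : n = 1 := by
      by_contra hne
      have hn2 : 2 ≤ n := by omega
      have h10 : 2 * (q - 1) ≤ n * (q - 1) := Nat.mul_le_mul_right _ hn2
      omega
    rw [hn, pow_one] at hprod
    exact hprod
  · exfalso
    have hall : ∀ R : Tor π Ω, V.valuation (tt (Q + (R : P27 Ω))) = τ := by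
      intro R
      refine le_antisymm ?_ (hlow R.1 R.2).2
      exact qv_add V hQ (hTor R.1 R.2).1 τ hτ1.le heq'.symm.le (hTor R.1 R.2).2
    rw [Finset.prod_congr rfl fun R _ => hall R, Finset.prod_const, Finset.card_univ, hcard', hXn] at hprod
    have h8 : ϖ ^ q = ϖ ^ (n * (q - 1)) := by
      calc ϖ ^ q = τ ^ (q * (q - 1)) := by
            rw [mul_comm, pow_mul]
            exact congrArg (fun z => z ^ q) hR₀q.symm
        _ = ϖ ^ (n * (q - 1)) := by rw [pow_mul, hprod, ← pow_mul]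
    have h9 := heq _ _ h8
    have h10 : (q - 1) ∣ q := ⟨n, h9.trans (mul_comm _ _)⟩
    have h11 : (q - 1) ∣ 1 := by
      have h12 := Nat.dvd_sub h10 (dvd_refl (q - 1))
      have e : q - (q - 1) = 1 := by omega
      rwa [e] at h12
    have h12 := Nat.le_of_dvd one_pos h11
    omega

end H13S
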