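import Mathlib
import Pool.Agent.Lib.H13S.IN4

open NumberField IsDedekindDomain

namespace H13S

open H55P H28G H55B

/-- Chunk OR1 (S). value_fixed: V.valuation y = V.valuation a, so V.valuation m = V.valuation (a^l); Abv.le: w.valuation m = w.valuation (a^l) =
(w.valuation a)^l, w.valuation a = exp k. -/
theorem ord_of_unr {F₀ : Type} [Field F₀] [NumberField F₀] {Ω : Type} [Field Ω] [Algebra F₀ Ω]
    [IsAlgClosure F₀ Ω] (L : IntermediateField F₀ Ω) [NumberField L] (V : ValuationSubring Ω)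
    (w : HeightOneSpectrum (𝓞 L)) (hw : Abv L V w) (l : ℕ) (m : L) (hm : m ≠ 0) (y : Ω)
    (hy : y ^ l = (m : Ω)) (h : ∀ s ∈ L.fixingSubgroup, Inert V s → s y = y) :
    ∃ k : ℤ, w.valuation L m = WithZero.exp ((l : ℤ) * k) := by
  by_cases hl : l = 0
  · subst hl
    have h1 : m = 1 := Subtype.ext (by rw [← hy, pow_zero]; rfl)
    refine ⟨0, ?_⟩
    rw [h1, map_one, mul_zero, WithZero.exp_zero]
  have hy0 : y ≠ 0 := by
    rintro rfl
    rw [zero_pow hl] at hy
    exact hm (Subtype.ext hy.symm)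
  obtain ⟨a, ha0, ha⟩ := value_fixed L V y hy0 h
  have h1 : V.valuation (m : Ω) = V.valuation ((a ^ l : L) : Ω) := by
    rw [← hy, map_pow, ha]
    exact (map_pow V.valuation (a : Ω) l).symm
  have h2 : w.valuation L m = w.valuation L (a ^ l) :=
    le_antisymm ((hw.le m (a ^ l)).1 h1.le) ((hw.le (a ^ l) m).1 h1.ge)
  have h3 : w.valuation L a ≠ 0 := (Valuation.ne_zero_iff _).2 ha0
  refine ⟨WithZero.log (w.valuation L a), ?_⟩
  rw [h2, map_pow]
  conv_lhs => rw [← WithZero.exp_log h3]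
  rw [← WithZero.exp_nsmul, nsmul_eq_mul]

end H13S
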