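import Mathlib
import Pool.Agent.Lib.H28G.Defs

open NumberField IsDedekindDomain

namespace H13S

open H55P H28G H55B

/-- Chunk LD1 (M). f = prod over J of (X - C (α R)), a = coefficients, integral (V.valuation ≤ 1: coefficients of a product of integral polynomials, induction on J) and fixed by H (s permutes the factors, hperm: Polynomial.map s f = f by
Finset.prod_bij or prod_equiv with R -> R + d). Then every coefficient satisfies hb, so V.valuation (s₁ a_n - a_n)^n₀ ≤ B. f(x) = 0 for x = α 0, (map s₁ f)(x) = prod (x - s₁ (α R)) = (map s₁ f)(x) - f(x) = sum of (s₁ a_n - a_n) x^n. The value of the sum is at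
most the value of one of the terms (Finset.exists_max_image, Valuation.map_sum_le), so its n₀-th power is ≤ B. -/
theorem prod_bound {Ω M : Type} [Field Ω] [AddCommGroup M] (V : ValuationSubring Ω) (J : Finset M)
    (h0 : (0 : M) ∈ J) (α : M → Ω) (hα : ∀ R ∈ J, V.valuation (α R) ≤ 1) (H : Set (Ω ≃+* Ω))
    (hperm : ∀ s ∈ H, ∃ d : M, (∀ R ∈ J, s (α R) = α (R + d)) ∧ ∀ R, R ∈ J ↔ R + d ∈ J)
    (s₁ : Ω ≃+* Ω) (n₀ : ℕ) (B : V.ValueGroup)
    (hb : ∀ a : Ω, V.valuation a ≤ 1 → (∀ s ∈ H, s a = a) → V.valuation (s₁ a - a) ^ n₀ ≤ B) :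
    V.valuation (∏ R ∈ J, (α 0 - s₁ (α R))) ^ n₀ ≤ B := by
  classical
  let f : Polynomial Ω := ∏ R ∈ J, (Polynomial.X - Polynomial.C (α R))
  -- integrality of coefficients
  have hint : ∀ n, V.valuation (f.coeff n) ≤ 1 := by
    intro n
    let β : M → V := fun R => if h : R ∈ J then ⟨α R, (V.valuation_le_one_iff _).1 (hα R h)⟩ else 0
    have hβ : ∀ R ∈ J, ((β R : V) : Ω) = α R := by
      intro R hR
      change ((if h : R ∈ J then (⟨α R, (V.valuation_le_one_iff _).1 (hα R h)⟩ : V) else 0 : V) : Ω) = _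
      rw [dif_pos hR]
    let f0 : Polynomial V := ∏ R ∈ J, (Polynomial.X - Polynomial.C (β R))
    have hf0 : f0.map V.subtype = f := by
      rw [Polynomial.map_prod]
      refine Finset.prod_congr rfl fun R hR => ?_
      rw [Polynomial.map_sub, Polynomial.map_X, Polynomial.map_C]
      congr 2
      exact hβ R hR
    rw [← hf0, Polynomial.coeff_map]
    exact (V.valuation_le_one_iff _).2 (f0.coeff n).2
  have hmap : ∀ s : Ω ≃+* Ω, f.map (s : Ω →+* Ω) =
      ∏ R ∈ J, (Polynomial.X - Polynomial.C (s (α R))) := by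
    intro s
    rw [Polynomial.map_prod]
    refine Finset.prod_congr rfl fun R hR => ?_
    rw [Polynomial.map_sub, Polynomial.map_X, Polynomial.map_C]
    rfl
  have hfix : ∀ s ∈ H, ∀ n, s (f.coeff n) = f.coeff n := by
    intro s hs n
    obtain ⟨d, hd1, hd2⟩ := hperm s hs
    have h1 : f.map (s : Ω →+* Ω) = f := by
      rw [hmap s]
      refine Finset.prod_bij (fun R _ => R + d) (fun R hR => (hd2 R).1 hR)
        (fun R _ R' _ h => add_right_cancel h) ?_ ?_
      · intro R hR
        refine ⟨R - d, ?_, sub_add_cancel R d⟩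
        rw [hd2, sub_add_cancel]
        exact hR
      · intro R hR
        rw [hd1 R hR]
    have h2 := congrArg (fun p : Polynomial Ω => p.coeff n) h1
    simp only [Polynomial.coeff_map] at h2
    exact h2
  have hev : ∏ R ∈ J, (α 0 - s₁ (α R)) =
      ∑ n ∈ Finset.range (f.natDegree + 1), (s₁ (f.coeff n) - f.coeff n) * α 0 ^ n := by
    have h1 : (f.map (s₁ : Ω →+* Ω)).eval (α 0) = ∏ R ∈ J, (α 0 - s₁ (α R)) := by
      rw [hmap s₁, Polynomial.eval_prod]
      refine Finset.prod_congr rfl fun R hR => ?_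
      simp
    have h2 : f.eval (α 0) = 0 := by
      change (∏ R ∈ J, (Polynomial.X - Polynomial.C (α R))).eval (α 0) = 0
      rw [Polynomial.eval_prod]
      refine Finset.prod_eq_zero h0 ?_
      simp
    have h3 : (f.map (s₁ : Ω →+* Ω)).eval (α 0) =
        ∑ n ∈ Finset.range (f.natDegree + 1), s₁ (f.coeff n) * α 0 ^ n := by
      rw [Polynomial.eval_map, Polynomial.eval₂_eq_sum_range]
      rfl
    have h4 : f.eval (α 0) = ∑ n ∈ Finset.range (f.natDegree + 1), f.coeff n * α 0 ^ n :=
      Polynomial.eval_eq_sum_range _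
    rw [← h1, ← sub_zero (Polynomial.eval _ _), ← h2, h3, h4, ← Finset.sum_sub_distrib]
    refine Finset.sum_congr rfl fun n _ => ?_
    ring
  rw [hev]
  have hne : (Finset.range (f.natDegree + 1)).Nonempty := ⟨0, by simp⟩
  obtain ⟨k, hk, hmax⟩ := Finset.exists_max_image (Finset.range (f.natDegree + 1))
    (fun n => V.valuation ((s₁ (f.coeff n) - f.coeff n) * α 0 ^ n)) hne
  have h5 : V.valuation (∑ n ∈ Finset.range (f.natDegree + 1),
      (s₁ (f.coeff n) - f.coeff n) * α 0 ^ n) ≤ V.valuation (s₁ (f.coeff k) - f.coeff k) := by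
    refine (V.valuation.map_sum_le hmax).trans ?_
    rw [map_mul, map_pow]
    have h6 : V.valuation (α 0) ^ k ≤ 1 := pow_le_one₀ zero_le (hα 0 h0)
    exact mul_le_of_le_one_right' h6
  exact (pow_le_pow_left₀ zero_le h5 n₀).trans (hb _ (hint k) fun s hs => hfix s hs k)

end H13S
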