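import Mathlib
import Pool.Agent.Lib.H13S.VW

open NumberField IsDedekindDomain

namespace H13S

open H55P H28G H55B

private theorem LA_one {G : Type} [LinearOrderedCommGroupWithZero G] (a : G) (n : ℕ) (hn : n ≠ 0)
    (h : a ^ n = 1) : a = 1 := by
  have h0 : (0 : G) ≤ a := zero_le
  exact (pow_eq_one_iff_of_nonneg h0 hn).1 h

private theorem LA_root {Ω : Type} [Field Ω] (V : ValuationSubring Ω) (l : ℕ) (hl : l.Prime)
    (ζ : Ω) (hζ : ζ ^ l = 1) : V.valuation (ζ - 1) ^ (l - 1) ≤ V.valuation (l : Ω) := by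
  have hl2 := hl.two_le
  by_cases h1 : ζ = 1
  · rw [h1, sub_self, map_zero, zero_pow (by omega)]
    exact zero_le
  have hv1 : V.valuation ζ = 1 := by
    apply LA_one _ l hl.ne_zero
    rw [← map_pow, hζ, map_one]
  have hpr : IsPrimitiveRoot ζ l := by
    have : Fact l.Prime := ⟨hl⟩
    have := orderOf_eq_prime hζ h1
    rw [← this]
    exact IsPrimitiveRoot.orderOf ζ
  have key : ∀ j ∈ Finset.range (l - 1), V.valuation (1 - ζ) ≤ V.valuation (1 - ζ ^ (j + 1)) := by
    intro j hj
    rw [Finset.mem_range] at hj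
    have hcop : Nat.Coprime (j + 1) l := by
      rw [Nat.coprime_comm]
      refine (Nat.Prime.coprime_iff_not_dvd hl).2 ?_
      intro hd
      have := Nat.le_of_dvd (by omega) hd
      omega
    obtain ⟨k, hk⟩ := Nat.exists_mul_mod_eq_one_of_coprime hcop (by omega)
    have hz : ζ = (ζ ^ (j + 1)) ^ k := by
      rw [← pow_mul]
      conv_lhs => rw [← pow_one ζ, ← hk.2]
      exact (pow_eq_pow_mod _ hζ).symm
    have e1 : (1 - ζ : Ω) = (1 - ζ ^ (j + 1)) * ∑ i ∈ Finset.range k, (ζ ^ (j + 1)) ^ i := by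
      rw [mul_comm, geom_sum_mul_neg, ← hz]
    rw [e1, map_mul]
    have e2 : V.valuation (∑ i ∈ Finset.range k, (ζ ^ (j + 1)) ^ i) ≤ 1 := by
      apply Valuation.map_sum_le
      intro i _
      rw [map_pow, map_pow, hv1, one_pow, one_pow]
    calc V.valuation (1 - ζ ^ (j + 1)) * V.valuation (∑ i ∈ Finset.range k, (ζ ^ (j + 1)) ^ i)
        ≤ V.valuation (1 - ζ ^ (j + 1)) * 1 := by gcongr
      _ = _ := mul_one _
  have hprod : ∏ k ∈ Finset.range (l - 1), (1 - ζ ^ (k + 1)) = (l : Ω) := by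
    have hpr' : IsPrimitiveRoot ζ ((l - 1) + 1) := by
      have : l - 1 + 1 = l := by omega
      rw [this]; exact hpr
    rw [hpr'.prod_one_sub_pow_eq_order]
    have : ((l - 1 : ℕ) : Ω) + 1 = ((l - 1 + 1 : ℕ) : Ω) := by push_cast; ring
    rw [this]
    congr 1
    omega
  rw [← hprod, map_prod, Valuation.map_sub_swap]
  calc V.valuation (1 - ζ) ^ (l - 1) = ∏ _k ∈ Finset.range (l - 1), V.valuation (1 - ζ) := by
        rw [Finset.prod_const, Finset.card_range]
    _ ≤ _ := Finset.prod_le_prod' key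

private theorem LA_eq {F₀ : Type} [Field F₀] {Ω : Type} [Field Ω] [Algebra F₀ Ω]
    {L : IntermediateField F₀ Ω} [NumberField L] {V : ValuationSubring Ω}
    {w : HeightOneSpectrum (𝓞 L)} (hw : Abv L V w) (x y : L) :
    V.valuation (x : Ω) = V.valuation (y : Ω) ↔ w.valuation L x = w.valuation L y := by
  rw [le_antisymm_iff, le_antisymm_iff, hw.le, hw.le]

/-- The l-th powers: solving u = b^l modulo w. -/
private theorem LA_frob {L : Type} [Field L] [NumberField L] (w : HeightOneSpectrum (𝓞 L))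
    (l : ℕ) (hl : l.Prime) (hV : w.valuation L (l : L) < 1) (u : L) (hu : w.valuation L u = 1) :
    ∃ b : L, w.valuation L b = 1 ∧ w.valuation L (u - b ^ l) < 1 := by
  obtain ⟨x, hx⟩ := w.exists_valuation_sub_lt_of_integer (K := L) hu.le 1
  rw [Units.val_one] at hx
  have : Fact l.Prime := ⟨hl⟩
  have hlm : ((l : ℕ) : 𝓞 L) ∈ w.asIdeal := by
    have e0 : algebraMap (𝓞 L) L ((l : ℕ) : 𝓞 L) = (l : L) := map_natCast _ _
    have e1 : w.valuation L (algebraMap (𝓞 L) L ((l : ℕ) : 𝓞 L)) < 1 := by rw [e0]; exact hV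
    exact (w.valuation_lt_one_iff_mem (K := L) _).1 e1
  have : Finite (𝓞 L ⧸ w.asIdeal) := Ideal.finiteQuotientOfFreeOfNeBot _ w.ne_bot
  have : IsDomain (𝓞 L ⧸ w.asIdeal) := Ideal.Quotient.isDomain _
  have : CharP (𝓞 L ⧸ w.asIdeal) l := by
    rw [CharP.charP_iff_prime_eq_zero hl]
    have := Ideal.Quotient.eq_zero_iff_mem.2 hlm
    simpa using this
  have hsur : Function.Surjective (frobenius (𝓞 L ⧸ w.asIdeal) l) :=
    Finite.injective_iff_surjective.1 (frobenius_inj _ _)
  obtain ⟨q, hq⟩ := hsur (Ideal.Quotient.mk w.asIdeal x)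
  obtain ⟨c, rfl⟩ := Ideal.Quotient.mk_surjective q
  rw [frobenius_def, ← map_pow, Ideal.Quotient.eq] at hq
  have h2 : w.valuation L (algebraMap (𝓞 L) L (c ^ l - x)) < 1 :=
    (w.valuation_lt_one_iff_mem (K := L) _).2 hq
  have h3 : w.valuation L (u - (algebraMap (𝓞 L) L c) ^ l) < 1 := by
    have e1 : u - (algebraMap (𝓞 L) L c) ^ l = -((algebraMap (𝓞 L) L x - u) +
        algebraMap (𝓞 L) L (c ^ l - x)) := by
      rw [map_sub, map_pow]; ring
    rw [e1, Valuation.map_neg]
    exact Valuation.map_add_lt _ hx h2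
  refine ⟨algebraMap (𝓞 L) L c, ?_, h3⟩
  apply LA_one _ l hl.ne_zero
  rw [← map_pow]
  have e2 : (algebraMap (𝓞 L) L c) ^ l = u - (u - (algebraMap (𝓞 L) L c) ^ l) := by ring
  rw [e2, Valuation.map_sub_eq_of_lt_left, hu]
  rw [hu]; exact h3

/-- Chunk LA (M). Step A: an element Z for a Kummer generator of level at most one. nu = the exponent of w.valuation m. Case 1: l does not divide nu. a' nu + l b' = 1 (a' in {1..l-1} modulo l, b' integer), t a uniformizer of w in
L: Z = y^a' t^(b') up to sign of the exponents so that V.valuation Z ^ l = V.valuation t; s Z - Z = (zeta^a' - 1) Z, zeta = s y/y, and V.valuation (zeta^a' - 1)^(l-1) ≤ V.valuation l (equality if zeta^a' ≠ 1: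
product of (1 - zeta^j) = l, all of the same value; every (1 - zeta^j)/(1 - zeta) is in V and conversely); y^i is in L Z^j, j = a'' i modulo l, because Z^l is in L. Case 2: l divides nu: y₁ = y/a, a = power of t,
y₁^l = u a w-unit, b with u = b^l modulo w (finite residue field of characteristic l, hl : value of l < 1), y₂ = y₁/b, u₂ = y₂^l = 1 modulo w, and by hlev u₂ - 1 is not of value ≤ exp(-2), so it has value
exp(-1) : it is a uniformizer t. Z = y₂ - 1: V.valuation Z < 1, u₂ - 1 = (1+Z)^l - 1 = Z^l + l Z (..), V.valuation (l Z ..) < V.valuation t (value of l ≤ value of t), so V.valuation Z^l = V.valuation t. s Z - Z = (zeta - 1) y₂; y^i = (a b)^i (1 + Z)^i. -/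
theorem step_a {F₀ : Type} [Field F₀] [NumberField F₀] {Ω : Type} [Field Ω] [Algebra F₀ Ω]
    [IsAlgClosure F₀ Ω] (L : IntermediateField F₀ Ω) [NumberField L] (V : ValuationSubring Ω)
    (w : HeightOneSpectrum (𝓞 L)) (hw : Abv L V w) (l : ℕ) (hl : l.Prime) (h3 : 3 ≤ l)
    (hV : V.valuation (l : Ω) < 1)
    (hμ : ∀ ζ : Ω, ζ ^ l = 1 → ζ ∈ L) (m : L) (hm : m ≠ 0) (y : Ω) (hy : y ^ l = (m : Ω))
    (hlev : ¬ ∃ z : L, z ≠ 0 ∧ w.valuation L (m / z ^ l - 1) ≤ WithZero.exp (-2 : ℤ)) :
    ∃ Z : Ω, (∃ t : L, w.valuation L t = WithZero.exp (-1 : ℤ) ∧ V.valuation Z ^ l = V.valuation (t : Ω)) ∧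
      (∀ s ∈ L.fixingSubgroup, s y = y → s Z = Z) ∧
      (∀ s ∈ L.fixingSubgroup, V.valuation (s Z - Z) ^ (l - 1) ≤ V.valuation (l : Ω)) ∧
      ∀ i < l, ∃ a : ℕ → L, y ^ i = ∑ j ∈ Finset.range l, (a j : Ω) * Z ^ j := by
  have hl2 := hl.two_le
  have hy0 : y ≠ 0 := by
    rintro rfl
    rw [zero_pow hl.ne_zero] at hy
    exact hm (Subtype.ext (by simpa using hy.symm))
  have hl0 : (l : L) ≠ 0 := by exact_mod_cast hl.ne_zero
  have hwl : w.valuation L (l : L) < 1 := by
    rw [← hw.lt]
    simpa using hV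
  have hfix : ∀ s ∈ L.fixingSubgroup, ∀ x : L, s (x : Ω) = x := by
    intro s hs x
    exact (IntermediateField.mem_fixingSubgroup_iff _ _).1 hs x x.2
  have hzeta : ∀ s ∈ L.fixingSubgroup, (s y / y) ^ l = 1 := by
    intro s hs
    rw [div_pow, ← map_pow, hy, hfix s hs, div_self]
    rw [← hy]; exact pow_ne_zero _ hy0
  have hmv : w.valuation L m ≠ 0 := (Valuation.ne_zero_iff _).2 hm
  obtain ⟨ν, hν⟩ : ∃ ν : ℤ, w.valuation L m = WithZero.exp ν :=
    ⟨WithZero.log (w.valuation L m), (WithZero.exp_log hmv).symm⟩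
  obtain ⟨t, ht⟩ := w.valuation_exists_uniformizer L
  have ht' : w.valuation L t = WithZero.exp (-1 : ℤ) := by
    rw [ht]
  have ht0 : t ≠ 0 := by
    rintro rfl
    rw [map_zero] at ht'
    exact WithZero.exp_ne_zero ht'.symm
  have hyl : V.valuation y ^ l = V.valuation (m : Ω) := by rw [← map_pow, hy]
  by_cases hdv : (l : ℤ) ∣ ν
  · -- case 2
    obtain ⟨ν', rfl⟩ := hdv
    have ha0 : t ^ (-ν') ≠ 0 := zpow_ne_zero _ ht0
    have hwa : w.valuation L (t ^ (-ν')) = WithZero.exp ν' := by
      rw [map_zpow₀, ht', ← WithZero.exp_zsmul]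
      congr 1
      simp
    have hwu : w.valuation L (m / (t ^ (-ν')) ^ l) = 1 := by
      rw [map_div₀, map_pow, hwa, hν, ← WithZero.exp_nsmul]
      rw [nsmul_eq_mul]
      exact div_self WithZero.exp_ne_zero
    obtain ⟨b, hb1, hb2⟩ := LA_frob w l hl hwl _ hwu
    have hb0 : b ≠ 0 := by
      rintro rfl
      rw [map_zero] at hb1
      exact zero_ne_one hb1
    set a : L := t ^ (-ν') with ha
    set c : L := a * b with hc
    have hc0 : c ≠ 0 := mul_ne_zero ha0 hb0
    have hcΩ : (c : Ω) ≠ 0 := by exact_mod_cast hc0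
    set τ : L := m / c ^ l - 1 with hτ
    have hτ1 : w.valuation L τ < 1 := by
      have e1 : τ = (m / a ^ l - b ^ l) * (b ^ l)⁻¹ := by
        rw [hτ, hc, mul_pow]
        field_simp
      rw [e1, map_mul, map_inv₀, map_pow, hb1, one_pow, inv_one, mul_one]
      exact hb2
    have hτ2 : ¬ w.valuation L τ ≤ WithZero.exp (-2 : ℤ) := fun h => hlev ⟨c, hc0, h⟩
    have hτv : w.valuation L τ = WithZero.exp (-1 : ℤ) := by
      have h0 : w.valuation L τ ≠ 0 := by
        intro h0
        apply hτ2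
        rw [h0]
        exact zero_le
      rw [← WithZero.exp_log h0] at hτ1 hτ2 ⊢
      rw [WithZero.exp_le_exp, not_le] at hτ2
      rw [← WithZero.exp_zero, WithZero.exp_lt_exp] at hτ1
      congr 1
      omega
    have hτV : V.valuation (τ : Ω) < 1 := by
      rw [hw.lt]; exact hτ1
    -- y₂
    set y₂ : Ω := y / c with hy₂
    have hy₂l : y₂ ^ l = (τ : Ω) + 1 := by
      rw [hy₂, div_pow, hy, hτ]
      push_cast
      ring
    have hvy₂ : V.valuation y₂ = 1 := by
      apply LA_one _ l hl.ne_zero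
      rw [← map_pow, hy₂l, Valuation.map_add_eq_of_lt_right, map_one]
      rw [map_one]; exact hτV
    have hlτ : V.valuation (l : Ω) ≤ V.valuation (τ : Ω) := by
      have h1 : w.valuation L (l : L) ≤ w.valuation L τ := by
        rw [hτv]
        have h0 : w.valuation L (l : L) ≠ 0 := (Valuation.ne_zero_iff _).2 hl0
        rw [← WithZero.exp_log h0] at hwl ⊢
        rw [← WithZero.exp_zero, WithZero.exp_lt_exp] at hwl
        rw [WithZero.exp_le_exp]
        omega
      have := (hw.le (l : L) τ).2 h1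
      simpa using this
    have hlΩ : V.valuation (l : Ω) ≠ 0 := by
      rw [Valuation.ne_zero_iff]
      intro h
      apply hl0
      exact Subtype.ext (by simpa using h)
    set Z : Ω := y₂ - 1 with hZ
    have hZV : Z ∈ V := by
      rw [← V.valuation_le_one_iff, hZ]
      refine (Valuation.map_sub _ _ _).trans ?_
      rw [hvy₂, map_one, max_self]
    have hexp : V.valuation ((τ : Ω) - Z ^ l) ≤ V.valuation (l : Ω) * V.valuation Z := by
      obtain ⟨r, hr⟩ := exists_add_pow_prime_eq hl (⟨Z, hZV⟩ : V) 1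
      have hr' := congrArg (fun x : V => (x : Ω)) hr
      push_cast at hr'
      have e1 : (τ : Ω) - Z ^ l = (l : Ω) * Z * (r : Ω) := by
        have e2 : Z + 1 = y₂ := by rw [hZ]; ring
        rw [e2, hy₂l, one_pow] at hr'
        linear_combination hr'
      rw [e1, map_mul, map_mul]
      have hr1 : V.valuation (r : Ω) ≤ 1 := V.valuation_le_one r
      calc V.valuation (l : Ω) * V.valuation Z * V.valuation (r : Ω)
          ≤ V.valuation (l : Ω) * V.valuation Z * 1 := by gcongr
        _ = _ := mul_one _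
    have hZ1 : V.valuation Z < 1 := by
      have hZle : V.valuation Z ≤ 1 := (V.valuation_le_one_iff _).2 hZV
      have h1 : V.valuation (Z ^ l) < 1 := by
        have e1 : Z ^ l = (τ : Ω) - ((τ : Ω) - Z ^ l) := by ring
        rw [e1]
        apply Valuation.map_sub_lt _ hτV
        refine lt_of_le_of_lt hexp ?_
        calc V.valuation (l : Ω) * V.valuation Z ≤ V.valuation (l : Ω) * 1 := by gcongr
          _ = V.valuation (l : Ω) := mul_one _
          _ < 1 := hV
      rw [map_pow] at h1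
      by_contra h2
      have h3 : V.valuation Z = 1 := le_antisymm hZle (not_lt.1 h2)
      rw [h3, one_pow] at h1
      exact lt_irrefl _ h1
    have hZτ : V.valuation Z ^ l = V.valuation (τ : Ω) := by
      rw [← map_pow]
      have h1 : V.valuation ((τ : Ω) - Z ^ l) < V.valuation (τ : Ω) := by
        refine lt_of_le_of_lt hexp ?_
        refine lt_of_lt_of_le ?_ hlτ
        calc V.valuation (l : Ω) * V.valuation Z < V.valuation (l : Ω) * 1 := by
              apply mul_lt_mul_of_pos_left hZ1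
              exact zero_lt_iff.2 hlΩ
          _ = V.valuation (l : Ω) := mul_one _
      have e1 : Z ^ l = (τ : Ω) - ((τ : Ω) - Z ^ l) := by ring
      rw [e1, Valuation.map_sub_eq_of_lt_left _ h1]
    refine ⟨Z, ⟨τ, hτv, hZτ⟩, ?_, ?_, ?_⟩
    · intro s hs hsy
      rw [hZ, hy₂, map_sub, map_div₀, hsy, hfix s hs, map_one]
    · intro s hs
      have e1 : s Z - Z = (s y / y - 1) * y₂ := by
        rw [hZ, hy₂, map_sub, map_div₀, hfix s hs, map_one]
        field_simp
        ring
      rw [e1, map_mul, hvy₂, mul_one]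
      exact LA_root V l hl _ (hzeta s hs)
    · intro i hi
      refine ⟨fun j => c ^ i * (i.choose j : L), ?_⟩
      have e1 : y = (c : Ω) * (Z + 1) := by
        rw [hZ, hy₂]
        field_simp
        ring
      have e2 : y ^ i = (c : Ω) ^ i * (Z + 1) ^ i := by
        rw [← mul_pow, ← e1]
      rw [e2, add_pow, Finset.mul_sum]
      rw [← Finset.sum_subset (Finset.range_subset_range.2 (show i + 1 ≤ l by omega))]
      · apply Finset.sum_congr rfl
        intro j _
        push_cast
        ring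
      · intro j _ hj
        rw [Finset.mem_range, not_lt] at hj
        have h0 : i.choose j = 0 := Nat.choose_eq_zero_of_lt (by omega)
        simp only [h0]
        push_cast
        ring
  · -- case 1
    have hcop : IsCoprime (l : ℤ) ν := (Nat.prime_iff_prime_int.1 hl).coprime_iff_not_dvd.2 hdv
    obtain ⟨p, q, hpq⟩ := hcop
    set Z : Ω := y ^ (-q) * (t : Ω) ^ p with hZ
    set d : L := m ^ (-q) * (t ^ p) ^ l with hd
    have hmΩ : (m : Ω) ≠ 0 := by exact_mod_cast hm
    have htΩ : (t : Ω) ≠ 0 := by exact_mod_cast ht0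
    have hz : ∀ (x : L) (n : ℤ), ((x ^ n : L) : Ω) = (x : Ω) ^ n :=
      fun x n => map_zpow₀ (algebraMap L Ω) x n
    have hZ0 : Z ≠ 0 := mul_ne_zero (zpow_ne_zero _ hy0) (zpow_ne_zero _ htΩ)
    have hZl : Z ^ l = (d : Ω) := by
      rw [hZ, hd, mul_pow]
      push_cast
      rw [hz, hz, ← hy, ← zpow_natCast (y ^ (-q)), ← zpow_natCast y, ← zpow_mul, ← zpow_mul,
        mul_comm (-q) (l : ℤ)]
    have hwd : w.valuation L d = w.valuation L t := by
      rw [hd, map_mul, map_zpow₀, map_pow, map_zpow₀, ht', hν, ← WithZero.exp_zsmul,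
        ← WithZero.exp_zsmul, ← WithZero.exp_nsmul, ← WithZero.exp_add]
      congr 1
      simp only [smul_eq_mul, nsmul_eq_mul]
      linear_combination -hpq
    have hvZ : V.valuation Z ^ l = V.valuation (t : Ω) := by
      rw [← map_pow, hZl]
      exact (LA_eq hw _ _).2 hwd
    have hZ1 : V.valuation Z ≤ 1 := by
      by_contra h
      have h1 : 1 < V.valuation Z ^ l := one_lt_pow₀ (not_le.1 h) hl.ne_zero
      rw [hvZ] at h1
      have h2 : V.valuation (t : Ω) < 1 := by
        rw [hw.lt, ht', ← WithZero.exp_zero, WithZero.exp_lt_exp]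
        norm_num
      exact lt_asymm h1 h2
    have hst : ∀ s ∈ L.fixingSubgroup, s Z = (s y) ^ (-q) * (t : Ω) ^ p := by
      intro s hs
      rw [hZ, map_mul, map_zpow₀, map_zpow₀, hfix s hs]
    refine ⟨Z, ⟨t, ht', hvZ⟩, ?_, ?_, ?_⟩
    · intro s hs hsy
      rw [hst s hs, hsy]
    · intro s hs
      have e1 : s Z - Z = ((s y / y) ^ (-q) - 1) * Z := by
        rw [hst s hs, div_zpow, sub_mul, one_mul, hZ]
        congr 1
        field_simp
      rw [e1, map_mul, mul_pow]
      calc V.valuation ((s y / y) ^ (-q) - 1) ^ (l - 1) * V.valuation Z ^ (l - 1)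
          ≤ V.valuation ((s y / y) ^ (-q) - 1) ^ (l - 1) * 1 ^ (l - 1) := by gcongr
        _ = V.valuation ((s y / y) ^ (-q) - 1) ^ (l - 1) := by rw [one_pow, mul_one]
        _ ≤ _ := by
          apply LA_root V l hl
          rw [← zpow_natCast, ← zpow_mul, mul_comm, zpow_mul, zpow_natCast, hzeta s hs, one_zpow]
    · intro i hi
      have hl0' : (l : ℤ) ≠ 0 := by exact_mod_cast hl.ne_zero
      have hlpos : (0 : ℤ) < l := by exact_mod_cast hl.pos
      set r : ℤ := (-ν * i) % l with hr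
      set k : ℤ := (-ν * i) / l with hk
      have hrk : -ν * i = l * k + r := by
        rw [hr, hk]
        have := Int.emod_add_mul_ediv (-ν * i) l
        linarith
      have hr0 : 0 ≤ r := Int.emod_nonneg _ hl0'
      have hrl : r < l := Int.emod_lt_of_pos _ hlpos
      have e1 : y = Z ^ (-ν) * ((m : Ω) ^ p * (t : Ω) ^ (p * ν)) := by
        rw [hZ, mul_zpow, ← zpow_mul, ← zpow_mul]
        rw [← hy, ← zpow_natCast, ← zpow_mul]
        have e3 : y ^ (-q * -ν) * (t : Ω) ^ (p * -ν) * (y ^ ((l : ℤ) * p) * (t : Ω) ^ (p * ν)) =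
            (y ^ (-q * -ν) * y ^ ((l : ℤ) * p)) * ((t : Ω) ^ (p * -ν) * (t : Ω) ^ (p * ν)) := by ring
        rw [e3, ← zpow_add₀ hy0, ← zpow_add₀ htΩ]
        have e4 : -q * -ν + (l : ℤ) * p = 1 := by linear_combination hpq
        have e5 : p * -ν + p * ν = 0 := by ring
        rw [e4, e5, zpow_one, zpow_zero, mul_one]
      have e2 : y ^ i = ((d ^ k * (m ^ p * t ^ (p * ν)) ^ i : L) : Ω) * Z ^ r.toNat := by
        conv_lhs => rw [e1]
        rw [mul_pow, ← zpow_natCast (Z ^ (-ν)), ← zpow_mul, hrk, zpow_add₀ hZ0, zpow_mul, zpow_natCast,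
          hZl]
        have : Z ^ r = Z ^ r.toNat := by
          rw [← zpow_natCast, Int.toNat_of_nonneg hr0]
        rw [this]
        push_cast
        rw [hz, hz, hz]
        ring
      refine ⟨fun j => if j = r.toNat then (d ^ k * (m ^ p * t ^ (p * ν)) ^ i : L) else 0, ?_⟩
      rw [Finset.sum_eq_single r.toNat]
      · simp only [if_true]
        rw [e2]
      · intro j _ hj
        simp only [if_neg hj]
        push_cast
        ring
      · intro h
        exfalso
        apply h
        rw [Finset.mem_range]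
        omega

end H13S
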