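import Mathlib
import Pool.Agent.Lib.H28G.Defs

open NumberField IsDedekindDomain

namespace H13S

open H55P H28G H55B

section lbaux

variable {F₀ : Type} [Field F₀] {Ω : Type} [Field Ω] [Algebra F₀ Ω] {V : ValuationSubring Ω}

private theorem lb_mem {s : Ω ≃ₐ[F₀] Ω} (h : Inert V s) {x : Ω} (hx : x ∈ V) : s x ∈ V := by
  have h1 : s x - x ∈ V := (V.valuation_le_one_iff _).1 (h x hx).le
  have h2 := V.add_mem _ _ h1 hx
  rwa [sub_add_cancel] at h2

private theorem lb_mem' {s : Ω ≃ₐ[F₀] Ω} (h : Inert V s) {x : Ω} (hx : s x ∈ V) : x ∈ V := by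
  by_contra hcon
  have h1 : 1 < V.valuation x := by
    rw [← not_le, V.valuation_le_one_iff]
    exact hcon
  have x0 : V.valuation x ≠ 0 := (zero_lt_one.trans h1).ne'
  have h2 : V.valuation x⁻¹ < 1 := by
    rw [map_inv₀]
    exact inv_lt_one_of_one_lt₀ h1
  have h3 := h x⁻¹ ((V.valuation_le_one_iff _).1 h2.le)
  have h4 : V.valuation (s x⁻¹) < 1 := by
    have h5 := V.valuation.map_add_lt h3 h2
    rwa [sub_add_cancel] at h5
  rw [map_inv₀ s, map_inv₀] at h4
  have h6 : V.valuation (s x) ≤ 1 := (V.valuation_le_one_iff _).2 hx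
  have hx0 : x ≠ 0 := by
    rintro rfl
    exact x0 (map_zero _)
  have h7 : V.valuation (s x) ≠ 0 := (V.valuation.ne_zero_iff).2 ((map_ne_zero s).2 hx0)
  exact absurd h4 (not_lt.2 ((one_le_inv₀ (zero_lt_iff.2 h7)).2 h6))

private theorem lb_mul {s t : Ω ≃ₐ[F₀] Ω} (hs : Inert V s) (ht : Inert V t) : Inert V (s * t) := by
  intro x hx
  have h1 := hs (t x) (lb_mem ht hx)
  have h2 := ht x hx
  have h3 := V.valuation.map_add_lt h1 h2
  rw [sub_add_sub_cancel] at h3
  exact h3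

private theorem lb_inv {s : Ω ≃ₐ[F₀] Ω} (hs : Inert V s) : Inert V s⁻¹ := by
  intro x hx
  have h1 : s (s⁻¹ x) = x := by
    rw [← AlgEquiv.mul_apply, mul_inv_cancel, AlgEquiv.one_apply]
  have h2 : s⁻¹ x ∈ V := lb_mem' hs (by rw [h1]; exact hx)
  have h3 := hs _ h2
  rw [h1] at h3
  rw [← Valuation.map_neg, neg_sub]
  exact h3

private theorem lb_pow {s : Ω ≃ₐ[F₀] Ω} (hs : Inert V s) (n : ℕ) : Inert V (s ^ n) := by
  induction n with
  | zero =>
    intro x _
    rw [pow_zero, AlgEquiv.one_apply, sub_self, map_zero]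
    exact zero_lt_one
  | succ n ih =>
    rw [pow_succ]
    exact lb_mul ih hs

end lbaux

private theorem lb_shift {M : Type} [AddCommGroup M] (f : ℕ → M) (l : ℕ) (hf : ∀ i, f (i + l) = f i) (k : ℕ) :
    ∑ i ∈ Finset.range l, f (i + k) = ∑ i ∈ Finset.range l, f i := by
  induction k with
  | zero => rfl
  | succ k ih =>
    rw [← ih]
    have h1 := Finset.sum_range_succ' (fun i => f (i + k)) l
    have h2 := Finset.sum_range_succ (fun i => f (i + k)) l
    rw [h2] at h1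
    have h3 : f (l + k) = f (0 + k) := by
      rw [add_comm l k, hf, zero_add]
    have h4 : ∀ i, f (i + 1 + k) = f (i + (k + 1)) := fun i => by
      congr 1
      ring
    simp only [h4, h3] at h1
    exact (add_right_cancel h1).symm

/-- Chunk LB (M). Step B: decomposition of the elements fixed by the stabilizer of y. I = {s in L.fixingSubgroup : Inert V s} is a subgroup. If s y = y for all s in I: g 0 = a, g j = 0. Otherwise choose
σ in I, σ y = zeta y, zeta ≠ 1, zeta^l = 1 (y^l in L), zeta in L by hμ, so zeta is fixed by I and primitive. e_j = (1/l) sum over i < l of zeta^(-i j) σ^i a. For s in I: s y = zeta^k y for some k, h = σ^(-k) s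
fixes y, so σ^(-i) h σ^i fixes y as well and fixes a: s σ^i a = σ^(k+i) a, and σ^l a = a: s e_j = zeta^(k j) e_j, sum of the e_j over j < l is a. g j = e_j/y^j is fixed by I. -/
theorem step_b {F₀ : Type} [Field F₀] {Ω : Type} [Field Ω] [CharZero Ω] [Algebra F₀ Ω]
    (L : IntermediateField F₀ Ω) (V : ValuationSubring Ω) (l : ℕ) (hl : l.Prime)
    (hμ : ∀ ζ : Ω, ζ ^ l = 1 → ζ ∈ L) (y : Ω) (hy0 : y ≠ 0) (hy : y ^ l ∈ L) (a : Ω)
    (ha : ∀ s ∈ L.fixingSubgroup, Inert V s → s y = y → s a = a) :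
    ∃ g : ℕ → Ω, (∀ j, ∀ s ∈ L.fixingSubgroup, Inert V s → s (g j) = g j) ∧
      a = ∑ j ∈ Finset.range l, g j * y ^ j := by
  have hl0 : 0 < l := hl.pos
  have hnz : NeZero l := ⟨hl0.ne'⟩
  have hΩl : (l : Ω) ≠ 0 := Nat.cast_ne_zero.2 hl0.ne'
  by_cases hall : ∀ s ∈ L.fixingSubgroup, Inert V s → s y = y
  · refine ⟨fun j => if j = 0 then a else 0, fun j s hs hi => ?_, ?_⟩
    · by_cases hj : j = 0
      · simp only [hj, if_true]
        exact ha s hs hi (hall s hs hi)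
      · simp only [hj, if_false, map_zero]
    · rw [Finset.sum_eq_single 0]
      · simp
      · intro j _ hj
        simp [hj]
      · intro h
        exact absurd (Finset.mem_range.2 hl0) h
  push Not at hall
  obtain ⟨σ, hσL, hσI, hσy⟩ := hall
  have hfixL : ∀ s ∈ L.fixingSubgroup, ∀ x ∈ L, s x = x := fun s hs x hx =>
    (IntermediateField.mem_fixingSubgroup_iff _ _).1 hs x hx
  -- roots of unity
  have hroot : ∀ s ∈ L.fixingSubgroup, (s y / y) ^ l = 1 := by
    intro s hs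
    rw [div_pow, ← map_pow, hfixL s hs _ hy, div_self (pow_ne_zero l hy0)]
  set ζ : Ω := σ y / y with hζ
  have hζl : ζ ^ l = 1 := hroot σ hσL
  have hζ1 : ζ ≠ 1 := fun h => hσy (by rw [hζ, div_eq_one_iff_eq hy0] at h; exact h)
  have hζ0 : ζ ≠ 0 := fun h => by
    rw [h, zero_pow hl0.ne'] at hζl
    exact zero_ne_one hζl
  have hprim : IsPrimitiveRoot ζ l := by
    have hfact := Fact.mk hl
    have h1 := orderOf_eq_prime hζl hζ1
    rw [← h1]
    exact IsPrimitiveRoot.orderOf ζ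
  have hζL : ζ ∈ L := hμ ζ hζl
  have hσy' : ∀ i : ℕ, (σ ^ i) y = ζ ^ i * y := by
    intro i
    induction i with
    | zero => simp
    | succ i ih =>
      rw [pow_succ', AlgEquiv.mul_apply, ih, map_mul, map_pow, hfixL σ hσL ζ hζL]
      have : σ y = ζ * y := by rw [hζ, div_mul_cancel₀ _ hy0]
      rw [this]
      ring
  have hσLp : ∀ i : ℕ, σ ^ i ∈ L.fixingSubgroup := fun i => L.fixingSubgroup.pow_mem hσL i
  -- `s` acts as a power of `σ` on the conjugates of `a`
  have hact : ∀ s ∈ L.fixingSubgroup, Inert V s → ∃ k : ℕ, s y = ζ ^ k * y ∧ ∀ i : ℕ, s ((σ ^ i) a) = (σ ^ (i + k)) a := by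
    intro s hs hi
    obtain ⟨k, -, hk⟩ := hprim.eq_pow_of_pow_eq_one (hroot s hs)
    have hsy : s y = ζ ^ k * y := by rw [hk, div_mul_cancel₀ _ hy0]
    refine ⟨k, hsy, fun i => ?_⟩
    set h : Ω ≃ₐ[F₀] Ω := (σ ^ k)⁻¹ * s with hh
    have hhL : h ∈ L.fixingSubgroup := L.fixingSubgroup.mul_mem (L.fixingSubgroup.inv_mem (hσLp k)) hs
    have hhI : Inert V h := lb_mul (lb_inv (lb_pow hσI k)) hi
    have hsh : s = σ ^ k * h := by rw [hh, mul_inv_cancel_left]
    have hhy : h y = y := by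
      rw [hh, AlgEquiv.mul_apply, hsy, ← hσy' k, ← AlgEquiv.mul_apply, inv_mul_cancel, AlgEquiv.one_apply]
    have hhi : h ((σ ^ i) a) = (σ ^ i) a := by
      have h1 : ((σ ^ i)⁻¹ * h * σ ^ i) y = y := by
        rw [AlgEquiv.mul_apply, AlgEquiv.mul_apply, hσy' i, map_mul, map_pow, hfixL h hhL ζ hζL, hhy, ← hσy' i,
          ← AlgEquiv.mul_apply, inv_mul_cancel, AlgEquiv.one_apply]
      have h2 := ha ((σ ^ i)⁻¹ * h * σ ^ i)
        (L.fixingSubgroup.mul_mem (L.fixingSubgroup.mul_mem (L.fixingSubgroup.inv_mem (hσLp i)) hhL) (hσLp i))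
        (lb_mul (lb_mul (lb_inv (lb_pow hσI i)) hhI) (lb_pow hσI i)) h1
      rw [AlgEquiv.mul_apply, AlgEquiv.mul_apply] at h2
      have h3 : (σ ^ i) ((σ ^ i)⁻¹ (h ((σ ^ i) a))) = (σ ^ i) a := by rw [h2]
      rwa [← AlgEquiv.mul_apply, mul_inv_cancel, AlgEquiv.one_apply] at h3
    rw [hsh, AlgEquiv.mul_apply, hhi, ← AlgEquiv.mul_apply, ← pow_add, add_comm]
  have hσl : (σ ^ l) a = a := by
    refine ha _ (hσLp l) (lb_pow hσI l) ?_
    rw [hσy' l, hζl, one_mul]
  set f : ℕ → ℕ → Ω := fun j i => (ζ⁻¹) ^ (i * j) * (σ ^ i) a with hf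
  have hper : ∀ j i, f j (i + l) = f j i := by
    intro j i
    simp only [hf]
    rw [pow_add, AlgEquiv.mul_apply, hσl, add_mul, pow_add, pow_mul (ζ⁻¹) l j, inv_pow ζ l, hζl, inv_one, one_pow, mul_one]
  set e : ℕ → Ω := fun j => (l : Ω)⁻¹ * ∑ i ∈ Finset.range l, f j i with he
  have hes : ∀ j, ∀ s ∈ L.fixingSubgroup, ∀ k : ℕ, (∀ i : ℕ, s ((σ ^ i) a) = (σ ^ (i + k)) a) →
      s (e j) = (ζ ^ k) ^ j * e j := by
    intro j s hs k hk
    simp only [he]
    rw [map_mul, map_inv₀, map_natCast, map_sum]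
    have h1 : ∀ i, s (f j i) = (ζ ^ k) ^ j * f j (i + k) := by
      intro i
      simp only [hf]
      rw [map_mul, map_pow, map_inv₀, hfixL s hs ζ hζL, hk, ← mul_assoc]
      congr 1
      rw [add_mul, pow_add, ← pow_mul]
      have h2 : ζ ^ (k * j) * (ζ⁻¹) ^ (k * j) = 1 := by
        rw [← mul_pow, mul_inv_cancel₀ hζ0, one_pow]
      linear_combination (-(ζ⁻¹) ^ (i * j)) * h2
    simp only [h1]
    rw [← Finset.mul_sum, lb_shift (f j) l (hper j) k]
    ring
  refine ⟨fun j => e j / y ^ j, fun j s hs hi => ?_, ?_⟩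
  · obtain ⟨k, hk1, hk2⟩ := hact s hs hi
    simp only
    rw [map_div₀, map_pow, hes j s hs k hk2, hk1, mul_pow, mul_div_mul_left _ _ (pow_ne_zero j (pow_ne_zero k hζ0))]
  · have h1 : ∀ j ∈ Finset.range l, e j / y ^ j * y ^ j = e j := fun j _ => div_mul_cancel₀ _ (pow_ne_zero j hy0)
    rw [Finset.sum_congr rfl h1]
    simp only [he]
    rw [← Finset.mul_sum, Finset.sum_comm]
    have h2 : ∀ i ∈ Finset.range l, ∑ j ∈ Finset.range l, f j i = if i = 0 then (l : Ω) * a else 0 := by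
      intro i hi
      simp only [hf]
      rw [← Finset.sum_mul]
      by_cases hi0 : i = 0
      · rw [hi0]
        simp
      · rw [if_neg hi0]
        have h3 : (ζ⁻¹) ^ i ≠ 1 := by
          intro h
          rw [inv_pow, inv_eq_one] at h
          exact hprim.pow_ne_one_of_pos_of_lt hi0 (Finset.mem_range.1 hi) h
        have h4 : (∑ j ∈ Finset.range l, ((ζ⁻¹) ^ i) ^ j) * ((ζ⁻¹) ^ i - 1) = 0 := by
          rw [geom_sum_mul, ← pow_mul, mul_comm i l, pow_mul, inv_pow ζ l, hζl, inv_one, one_pow, sub_self]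
        have h5 := (mul_eq_zero.1 h4).resolve_right (sub_ne_zero.2 h3)
        simp only [pow_mul]
        rw [h5, zero_mul]
    rw [Finset.sum_congr rfl h2, Finset.sum_ite_eq' (Finset.range l) 0 fun _ => (l : Ω) * a,
      if_pos (Finset.mem_range.2 hl0), ← mul_assoc, inv_mul_cancel₀ hΩl, one_mul]

end H13S
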