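import Mathlib
import Pool.Agent.Lib.H13S.IN4

open NumberField IsDedekindDomain

namespace H13S

open H55P H28G H55B

/-- In a finite sum whose nonzero terms have different values every term is at most the sum. -/
private theorem lc_max {Ω Γ : Type} [Field Ω] [LinearOrderedCommGroupWithZero Γ] (v : Valuation Ω Γ) (n : ℕ) (f : ℕ → Ω)
    (hd : ∀ i < n, ∀ j < n, f i ≠ 0 → f j ≠ 0 → v (f i) = v (f j) → i = j) (j : ℕ) (hj : j < n) :
    v (f j) ≤ v (∑ i ∈ Finset.range n, f i) := by
  classical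
  obtain ⟨m, hm, hmax⟩ := (Finset.range n).exists_max_image (fun i => v (f i)) ⟨j, Finset.mem_range.2 hj⟩
  by_cases h0 : f m = 0
  · have h1 := hmax j (Finset.mem_range.2 hj)
    rw [h0, map_zero] at h1
    exact h1.trans zero_le
  have hv0 : v (f m) ≠ 0 := (v.ne_zero_iff).2 h0
  have hlt : v (∑ i ∈ (Finset.range n).erase m, f i) < v (f m) := by
    refine v.map_sum_lt hv0 fun i hi => ?_
    rw [Finset.mem_erase] at hi
    by_cases hi0 : f i = 0
    · rw [hi0, map_zero]
      exact zero_lt_iff.2 hv0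
    · refine lt_of_le_of_ne (hmax i hi.2) fun h => hi.1 ?_
      exact hd i (Finset.mem_range.1 hi.2) m (Finset.mem_range.1 hm) hi0 h0 h
  have hsum : v (∑ i ∈ Finset.range n, f i) = v (f m) := by
    rw [← Finset.add_sum_erase _ _ hm, v.map_add_eq_of_lt_left hlt]
  rw [hsum]
  exact hmax j (Finset.mem_range.2 hj)

private theorem lc_mem {F₀ : Type} [Field F₀] {Ω : Type} [Field Ω] [Algebra F₀ Ω] {V : ValuationSubring Ω}
    {s : Ω ≃ₐ[F₀] Ω} (h : Inert V s) {x : Ω} (hx : x ∈ V) : s x ∈ V := by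
  have h1 : s x - x ∈ V := (V.valuation_le_one_iff _).1 (h x hx).le
  have h2 := V.add_mem _ _ h1 hx
  rwa [sub_add_cancel] at h2

/-- Chunk LC (M). Step C: valuations. V.valuation (g j) is 0 or the value of an element of L (value_fixed), that is an integral power of T = V.valuation t < 1 (t a uniformizer of w; T generates the values of
L^*: Abv.le). Put r = V.valuation Z, r^l = T, so r < 1. The values V.valuation (g j) r^j for j < l with g j ≠ 0 are pairwise different: T^a r^i = T^b r^j gives r^(l a + i) = r^(l b + j), l a + i = l b + j (r < 1), i = j. So the value of the sum is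
the maximum of V.valuation (g j) r^j (Finset induction or Valuation.map_sum_eq...), each is ≤ 1: T^a r^j ≤ 1 with j < l gives l a + j ≥ 0, a ≥ 0: V.valuation (g j) ≤ 1. s (sum) - sum = sum of g j ((s Z)^j - Z^j), and
(s Z)^j - Z^j = (s Z - Z) (...) with V.valuation (s Z) = V.valuation Z ≤ 1 (Inert V s preserves V). -/
theorem step_c {F₀ : Type} [Field F₀] [NumberField F₀] {Ω : Type} [Field Ω] [Algebra F₀ Ω]
    [IsAlgClosure F₀ Ω] (L : IntermediateField F₀ Ω) [NumberField L] (V : ValuationSubring Ω)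
    (w : HeightOneSpectrum (𝓞 L)) (hw : Abv L V w) (l : ℕ) (hl : 0 < l) (Z : Ω) (t : L)
    (ht : w.valuation L t = WithZero.exp (-1 : ℤ)) (hZ : V.valuation Z ^ l = V.valuation (t : Ω)) (g : ℕ → Ω)
    (hg : ∀ j, ∀ s ∈ L.fixingSubgroup, Inert V s → s (g j) = g j)
    (h1 : V.valuation (∑ j ∈ Finset.range l, g j * Z ^ j) ≤ 1) (s : Ω ≃ₐ[F₀] Ω) (hs : s ∈ L.fixingSubgroup)
    (hi : Inert V s) :
    V.valuation (s (∑ j ∈ Finset.range l, g j * Z ^ j) - ∑ j ∈ Finset.range l, g j * Z ^ j) ≤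
      V.valuation (s Z - Z) := by
  classical
  set v := V.valuation with hv
  set r := v Z with hr
  have ht0 : t ≠ 0 := by
    rintro rfl
    rw [map_zero] at ht
    exact (WithZero.exp_ne_zero (a := (-1 : ℤ))) ht.symm
  have htΩ : (t : Ω) ≠ 0 := by
    intro h
    exact ht0 (Subtype.ext h)
  have hT0 : v (t : Ω) ≠ 0 := (v.ne_zero_iff).2 htΩ
  have hT1 : v (t : Ω) < 1 := by
    rw [hv, hw.lt, ht, ← WithZero.exp_zero, WithZero.exp_lt_exp]
    norm_num
  have hr0 : 0 < r := by
    rw [zero_lt_iff]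
    intro h
    rw [h, zero_pow hl.ne'] at hZ
    exact hT0 hZ.symm
  have hr1 : r < 1 := by
    by_contra hcon
    rw [not_lt] at hcon
    have := one_le_pow₀ (n := l) hcon
    rw [hZ] at this
    exact absurd hT1 (not_lt.2 this)
  -- the values of the coefficients
  have hval : ∀ j, g j ≠ 0 → ∃ n : ℤ, v (g j) = r ^ ((l : ℤ) * n) := by
    intro j hj
    obtain ⟨a, ha0, ha⟩ := value_fixed L V (g j) hj (hg j)
    have hwa : w.valuation L a ≠ 0 := ((w.valuation L).ne_zero_iff).2 ha0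
    set m : ℤ := WithZero.log (w.valuation L a) with hm
    have h2 : w.valuation L a = w.valuation L (t ^ (-m)) := by
      rw [map_zpow₀, ht, ← WithZero.exp_zsmul, ← WithZero.exp_log hwa, ← hm]
      simp
    have h3 : v (a : Ω) = v ((t ^ (-m) : L) : Ω) :=
      le_antisymm ((hw.le _ _).2 h2.le) ((hw.le _ _).2 h2.ge)
    refine ⟨-m, ?_⟩
    rw [hv, ha, ← hv, h3, zpow_mul, zpow_natCast, hZ, ← map_zpow₀]
    rfl
  have hterm : ∀ j, g j ≠ 0 → ∃ n : ℤ, v (g j) = r ^ ((l : ℤ) * n) ∧ v (g j * Z ^ j) = r ^ ((l : ℤ) * n + j) := by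
    intro j hj
    obtain ⟨n, hn⟩ := hval j hj
    refine ⟨n, hn, ?_⟩
    rw [map_mul, map_pow, hn, ← hr, zpow_add₀ hr0.ne', zpow_natCast]
  have hinj := (zpow_right_strictAnti₀ hr0 hr1)
  have hmod : ∀ (n n' : ℤ) (i j : ℕ), i < l → j < l → (l : ℤ) * n + i = (l : ℤ) * n' + j → i = j := by
    intro n n' i j hi hj h
    have h2 : (i : ℤ) % l = (j : ℤ) % l := by
      have e1 : (i : ℤ) % l = ((l : ℤ) * n + i) % l := by rw [add_comm, Int.add_mul_emod_self_left]
      have e2 : (j : ℤ) % l = ((l : ℤ) * n' + j) % l := by rw [add_comm, Int.add_mul_emod_self_left]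
      rw [e1, e2, h]
    rw [Int.emod_eq_of_lt (by positivity) (by exact_mod_cast hi), Int.emod_eq_of_lt (by positivity) (by exact_mod_cast hj)] at h2
    exact_mod_cast h2
  have hdist : ∀ i < l, ∀ j < l, g i * Z ^ i ≠ 0 → g j * Z ^ j ≠ 0 → v (g i * Z ^ i) = v (g j * Z ^ j) → i = j := by
    intro i hi j hj h0i h0j h
    obtain ⟨n, -, hn⟩ := hterm i (left_ne_zero_of_mul h0i)
    obtain ⟨n', -, hn'⟩ := hterm j (left_ne_zero_of_mul h0j)
    rw [hn, hn'] at h
    exact hmod n n' i j hi hj (hinj.injective h)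
  have hle : ∀ j < l, v (g j) ≤ 1 := by
    intro j hj
    by_cases h0 : g j = 0
    · rw [h0, map_zero]
      exact zero_le_one
    obtain ⟨n, hn, hn'⟩ := hterm j h0
    have h2 := (lc_max v l (fun j => g j * Z ^ j) hdist j hj).trans h1
    rw [hn', ← zpow_zero r, hinj.le_iff_ge] at h2
    have h3 : 0 ≤ n := by
      by_contra hcon
      rw [not_le] at hcon
      have h4 : n ≤ -1 := by omega
      have h5 : (l : ℤ) * n ≤ (l : ℤ) * (-1) := mul_le_mul_of_nonneg_left h4 (by positivity)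
      have h6 : (j : ℤ) < l := by exact_mod_cast hj
      linarith
    rw [hn, ← zpow_zero r, hinj.le_iff_ge]
    positivity
  -- the difference
  have hZV : Z ∈ V := (V.valuation_le_one_iff _).1 hr1.le
  have hsZ : v (s Z) ≤ 1 := (V.valuation_le_one_iff _).2 (lc_mem hi hZV)
  have hdiff : s (∑ j ∈ Finset.range l, g j * Z ^ j) - ∑ j ∈ Finset.range l, g j * Z ^ j =
      ∑ j ∈ Finset.range l, g j * ((∑ i ∈ Finset.range j, (s Z) ^ i * Z ^ (j - 1 - i)) * (s Z - Z)) := by
    rw [map_sum, ← Finset.sum_sub_distrib]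
    refine Finset.sum_congr rfl fun j _ => ?_
    rw [map_mul, map_pow, hg j s hs hi, geom_sum₂_mul]
    ring
  rw [hdiff]
  refine v.map_sum_le fun j hj => ?_
  rw [map_mul, map_mul, ← mul_assoc]
  refine mul_le_of_le_one_left' ?_
  refine mul_le_one' (hle j (Finset.mem_range.1 hj)) ?_
  refine v.map_sum_le fun i _ => ?_
  rw [map_mul, map_pow, map_pow]
  exact mul_le_one' (pow_le_one' hsZ i) (pow_le_one' hr1.le _)

end H13S
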