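import Mathlib
import Pool.Agent.Lib.H13S.LA
import Pool.Agent.Lib.H13S.LB
import Pool.Agent.Lib.H13S.LC

open NumberField IsDedekindDomain

namespace H13S

open H55P H28G H55B

/-- Chunk LD2 (S/M). Steps A, B, C together. step_a gives Z; step_b: a = sum over j < l of g_j y^j; y^j = sum over i < l of a_(j,i) Z^i with a_(j,i) in L; so a = sum over i < l of (sum over j of g_j a_(j,i)) Z^i, the coefficients are fixed by every s in
L.fixingSubgroup with Inert V s. step_c: V.valuation (s a - a) ≤ V.valuation (s Z - Z), and step_a: (...)^(l-1) ≤ V.valuation l. -/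
theorem coef_bound {F₀ : Type} [Field F₀] [NumberField F₀] {Ω : Type} [Field Ω] [CharZero Ω] [Algebra F₀ Ω]
    [IsAlgClosure F₀ Ω] (L : IntermediateField F₀ Ω) [NumberField L] (V : ValuationSubring Ω)
    (w : HeightOneSpectrum (𝓞 L)) (hw : Abv L V w) (l : ℕ) (hl : l.Prime) (h3 : 3 ≤ l)
    (hV : V.valuation (l : Ω) < 1)
    (hμ : ∀ ζ : Ω, ζ ^ l = 1 → ζ ∈ L) (m : L) (hm : m ≠ 0) (y : Ω) (hy : y ^ l = (m : Ω))
    (hlev : ¬ ∃ z : L, z ≠ 0 ∧ w.valuation L (m / z ^ l - 1) ≤ WithZero.exp (-2 : ℤ))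
    (a : Ω) (ha : V.valuation a ≤ 1) (hf : ∀ s ∈ L.fixingSubgroup, Inert V s → s y = y → s a = a)
    (s : Ω ≃ₐ[F₀] Ω) (hs : s ∈ L.fixingSubgroup) (hi : Inert V s) :
    V.valuation (s a - a) ^ (l - 1) ≤ V.valuation (l : Ω) := by
  classical
  obtain ⟨Z, ⟨t, ht, hZt⟩, hZ1, hZ2, hZ3⟩ := step_a L V w hw l hl h3 hV hμ m hm y hy hlev
  have hy0 : y ≠ 0 := by
    rintro rfl
    rw [zero_pow hl.ne_zero] at hy
    exact hm (Subtype.ext hy.symm)
  have hyL : y ^ l ∈ L := by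
    rw [hy]
    exact m.2
  obtain ⟨g, hg, hag⟩ := step_b L V l hl hμ y hy0 hyL a hf
  have hex : ∀ j : ℕ, ∃ A : ℕ → L, j < l → y ^ j = ∑ i ∈ Finset.range l, (A i : Ω) * Z ^ i := by
    intro j
    by_cases hj : j < l
    · obtain ⟨A, hA⟩ := hZ3 j hj
      exact ⟨A, fun _ => hA⟩
    · exact ⟨fun _ => 0, fun h => absurd h hj⟩
  choose A hA using hex
  set g' : ℕ → Ω := fun i => ∑ j ∈ Finset.range l, g j * (A j i : Ω) with hg'
  have hfix : ∀ i, ∀ σ ∈ L.fixingSubgroup, Inert V σ → σ (g' i) = g' i := by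
    intro i σ hσ hσi
    rw [hg']
    show σ (∑ j ∈ Finset.range l, g j * (A j i : Ω)) = ∑ j ∈ Finset.range l, g j * (A j i : Ω)
    rw [map_sum]
    refine Finset.sum_congr rfl fun j _ => ?_
    rw [map_mul, hg j σ hσ hσi, (IntermediateField.mem_fixingSubgroup_iff _ _).1 hσ _ (A j i).2]
  have hsum : a = ∑ i ∈ Finset.range l, g' i * Z ^ i := by
    rw [hag]
    have h1 : ∀ j ∈ Finset.range l, g j * y ^ j = ∑ i ∈ Finset.range l, g j * (A j i : Ω) * Z ^ i := by
      intro j hj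
      rw [hA j (Finset.mem_range.1 hj), Finset.mul_sum]
      refine Finset.sum_congr rfl fun i _ => ?_
      ring
    rw [Finset.sum_congr rfl h1, Finset.sum_comm]
    refine Finset.sum_congr rfl fun i _ => ?_
    rw [hg']
    show _ = (∑ j ∈ Finset.range l, g j * (A j i : Ω)) * Z ^ i
    rw [Finset.sum_mul]
  rw [hsum] at ha ⊢
  have h1 := step_c L V w hw l hl.pos Z t ht hZt g' hfix ha s hs hi
  exact (pow_le_pow_left' h1 _).trans (hZ2 s hs)

end H13S
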