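import Mathlib
import Pool.Agent.Lib.H13S.IN4

open NumberField IsDedekindDomain

namespace H13S

open H55P H28G H55B

/-- Every integral element is congruent to an l-th power modulo a prime above l. -/
theorem lu_frob {L : Type} [Field L] [NumberField L] (w : HeightOneSpectrum (𝓞 L)) (l : ℕ)
    (hl : l.Prime) (hlw : (l : 𝓞 L) ∈ w.asIdeal) (u : L) (hu : w.valuation L u ≤ 1) :
    ∃ b : L, w.valuation L (u - b ^ l) < 1 := by
  obtain ⟨u₀, hu₀⟩ := w.exists_valuation_sub_lt_of_integer hu 1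
  have hm := w.isMaximal
  let k := 𝓞 L ⧸ w.asIdeal
  let _ : Field k := Ideal.Quotient.field w.asIdeal
  have hfin : Finite k := Ring.HasFiniteQuotients.finiteQuotient w.ne_bot
  have hch : CharP k l := by
    rw [CharP.charP_iff_prime_eq_zero hl, ← map_natCast (Ideal.Quotient.mk w.asIdeal),
      Ideal.Quotient.eq_zero_iff_mem]
    exact hlw
  have hF : Fact l.Prime := ⟨hl⟩
  obtain ⟨b', hb'⟩ := surjective_frobenius k l (Ideal.Quotient.mk w.asIdeal u₀)
  obtain ⟨b, rfl⟩ := Ideal.Quotient.mk_surjective b'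
  rw [frobenius_def, ← map_pow, eq_comm, ← sub_eq_zero, ← map_sub, Ideal.Quotient.eq_zero_iff_mem] at hb'
  refine ⟨algebraMap (𝓞 L) L b, ?_⟩
  have h1 : w.valuation L (algebraMap (𝓞 L) L (u₀ - b ^ l)) < 1 := (w.valuation_lt_one_iff_mem _).2 hb'
  have h2 : w.valuation L (algebraMap (𝓞 L) L u₀ - u) < 1 := by
    simpa using hu₀
  have e : u - algebraMap (𝓞 L) L b ^ l =
      algebraMap (𝓞 L) L (u₀ - b ^ l) - (algebraMap (𝓞 L) L u₀ - u) := by
    rw [map_sub, map_pow]
    ring
  rw [e]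
  exact Valuation.map_sub_lt _ h1 h2

theorem lu_exp {x : WithZero (Multiplicative ℤ)} (hx : x < 1) : x ≤ WithZero.exp (-1 : ℤ) := by
  by_cases h0 : x = 0
  · rw [h0]
    exact zero_le
  · rw [← WithZero.exp_log h0] at hx ⊢
    rw [← WithZero.exp_zero, WithZero.exp_lt_exp] at hx
    rw [WithZero.exp_le_exp]
    omega

/-- Chunk LU (M). The level of a Kummer generator fixed by inertia, at a prime w above l. value_fixed: V.valuation y = V.valuation a, a in L; y₁ = y/a, u = y₁^l = m/a^l is a w-unit. The residue field of w is finite of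
characteristic l, so its Frobenius is surjective: b in L, a w-unit, with w.valuation (u - b^l) < 1. y₂ = y₁/b: y₂^l = u/b^l =: u₂, V.valuation (u₂ - 1) < 1, so V.valuation (y₂ - 1) < 1
((y₂ - 1)^l = y₂^l - 1 modulo l). Z = y₂ - 1 is fixed by the inertia group over L; if Z = 0 take z = a b. Otherwise value_fixed: V.valuation Z is the value of an element of L, < 1, so at most
the value of a uniformizer t of w. u₂ - 1 = (1 + Z)^l - 1 = Z^l + l Z (...): value at most max(value t^l, value l * value t) ≤ (value t)^2, as l ≥ 2 and value l ≤ value t. z = a b. -/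
theorem level_unr {F₀ : Type} [Field F₀] [NumberField F₀] {Ω : Type} [Field Ω] [Algebra F₀ Ω]
    [IsAlgClosure F₀ Ω] (L : IntermediateField F₀ Ω) [NumberField L] (V : ValuationSubring Ω)
    (w : HeightOneSpectrum (𝓞 L)) (hw : Abv L V w) (l : ℕ) (hl : l.Prime) (hV : V.valuation (l : Ω) < 1) (m : L)
    (hm : m ≠ 0) (y : Ω) (hy : y ^ l = (m : Ω)) (h : ∀ s ∈ L.fixingSubgroup, Inert V s → s y = y) :
    ∃ z : L, z ≠ 0 ∧ w.valuation L (m / z ^ l - 1) ≤ WithZero.exp (-2 : ℤ) := by
  have hl0 : l ≠ 0 := hl.ne_zero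
  have hmΩ : (m : Ω) ≠ 0 := fun h0 => hm (Subtype.ext h0)
  have hy0 : y ≠ 0 := by
    rintro rfl
    rw [zero_pow hl0] at hy
    exact hmΩ hy.symm
  obtain ⟨a, ha, hya⟩ := value_fixed L V y hy0 h
  have haΩ : (a : Ω) ≠ 0 := fun h0 => ha (Subtype.ext h0)
  have hva : V.valuation (a : Ω) ≠ 0 := (Valuation.ne_zero_iff _).2 haΩ
  set u : L := m / a ^ l with hu
  have huΩ : ((u : L) : Ω) = y ^ l / (a : Ω) ^ l := by
    rw [hu, hy]
    push_cast
    rfl
  have hvu : V.valuation ((u : L) : Ω) = 1 := by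
    rw [huΩ, map_div₀, map_pow, map_pow, hya, div_self (pow_ne_zero _ hva)]
  have h1Ω : (((1 : L) : L) : Ω) = 1 := rfl
  have hwu : w.valuation L u = 1 := by
    refine le_antisymm ?_ ?_
    · have := (hw.le u 1).1 (by rw [hvu, h1Ω, map_one])
      rwa [map_one] at this
    · have := (hw.le 1 u).1 (by rw [hvu, h1Ω, map_one])
      rwa [map_one] at this
  have hlL : (((l : L) : L) : Ω) = (l : Ω) := by push_cast; rfl
  have hwl : w.valuation L (l : L) < 1 := (hw.lt _).1 (by rw [hlL]; exact hV)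
  have hlw : (l : 𝓞 L) ∈ w.asIdeal := by
    rw [← w.valuation_lt_one_iff_mem (K := L)]
    change w.valuation L (algebraMap (𝓞 L) L (l : 𝓞 L)) < 1
    rw [map_natCast]
    exact hwl
  obtain ⟨b, hb⟩ := lu_frob w l hl hlw u hwu.le
  have hwbl : w.valuation L (b ^ l) = 1 := by
    have e : b ^ l = u + -(u - b ^ l) := by ring
    rw [e, Valuation.map_add_eq_of_lt_left, hwu]
    rw [Valuation.map_neg, hwu]
    exact hb
  have hb0 : b ≠ 0 := by
    rintro rfl
    rw [zero_pow hl0, map_zero] at hwbl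
    exact zero_ne_one hwbl
  have hbΩ : (b : Ω) ≠ 0 := fun h0 => hb0 (Subtype.ext h0)
  have hvbl : V.valuation ((b : Ω) ^ l) = 1 := by
    have e : (((b ^ l : L) : L) : Ω) = (b : Ω) ^ l := by push_cast; rfl
    rw [← e]
    refine le_antisymm ?_ ?_
    · have := (hw.le (b ^ l) 1).2 (by rw [hwbl, map_one])
      rwa [h1Ω, map_one] at this
    · have := (hw.le 1 (b ^ l)).2 (by rw [hwbl, map_one])
      rwa [h1Ω, map_one] at this
  have hvb : V.valuation (b : Ω) = 1 := by
    rw [map_pow] at hvbl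
    exact (pow_eq_one_iff.1 hvbl).resolve_right hl0
  set z : L := a * b with hz
  have hz0 : z ≠ 0 := mul_ne_zero ha hb0
  have hzΩ : (z : Ω) = (a : Ω) * b := rfl
  have hzΩ0 : (z : Ω) ≠ 0 := by
    rw [hzΩ]
    exact mul_ne_zero haΩ hbΩ
  set D : L := m / z ^ l - 1 with hD
  have hDu : D = (u - b ^ l) / b ^ l := by
    rw [hD, hu, hz, mul_pow]
    field_simp
  have hwD : w.valuation L D < 1 := by
    rw [hDu, map_div₀, hwbl, div_one]
    exact hb
  have hvD : V.valuation ((D : L) : Ω) < 1 := (hw.lt D).2 hwD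
  set Z : Ω := y / z - 1 with hZ
  have hvy2 : V.valuation (y / z) = 1 := by
    rw [hzΩ, map_div₀, map_mul, hvb, mul_one, hya, div_self hva]
  have hZV : Z ∈ V := by
    rw [← V.valuation_le_one_iff]
    exact Valuation.map_sub_le _ hvy2.le (by rw [map_one])
  obtain ⟨r, hr⟩ := exists_add_pow_prime_eq hl (⟨Z, hZV⟩ : V) 1
  have hrΩ : (Z + 1) ^ l = Z ^ l + 1 + l * Z * r := by
    have := congrArg (fun x : V => (x : Ω)) hr
    push_cast at this
    rw [one_pow, mul_one] at this
    exact this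
  have hDΩ : ((D : L) : Ω) = Z ^ l + l * Z * r := by
    have e1 : ((D : L) : Ω) = (y / z) ^ l - 1 := by
      rw [hD, div_pow, hy]
      push_cast
      rfl
    have e2 : y / (z : Ω) = Z + 1 := by rw [hZ]; ring
    rw [e1, e2, hrΩ]
    ring
  have hvZ : V.valuation Z < 1 := by
    have hvZ1 : V.valuation Z ≤ 1 := (V.valuation_le_one_iff _).2 hZV
    have hvr : V.valuation (r : Ω) ≤ 1 := (V.valuation_le_one_iff _).2 r.2
    have e1 : V.valuation (l * Z * r) < 1 := by
      rw [map_mul, map_mul]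
      calc V.valuation (l : Ω) * V.valuation Z * V.valuation (r : Ω) ≤ V.valuation (l : Ω) * 1 * 1 :=
            mul_le_mul' (mul_le_mul' le_rfl hvZ1) hvr
        _ < 1 := by rw [mul_one, mul_one]; exact hV
    have e2 : V.valuation (Z ^ l) < 1 := by
      have e3 : Z ^ l = ((D : L) : Ω) - l * Z * r := by rw [hDΩ]; ring
      rw [e3]
      exact Valuation.map_sub_lt _ hvD e1
    rw [map_pow] at e2
    exact lt_of_not_ge fun h5 => not_lt.2 (one_le_pow_of_one_le' h5 l) e2
  refine ⟨z, hz0, ?_⟩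
  rw [← hD]
  by_cases hZ0 : Z = 0
  · have hD0 : ((D : L) : Ω) = 0 := by
      rw [hDΩ, hZ0, zero_pow hl0]
      ring
    have hD0' : D = 0 := Subtype.ext hD0
    rw [hD0', map_zero]
    exact zero_le
  · have hfix : ∀ s ∈ L.fixingSubgroup, Inert V s → s Z = Z := by
      intro s hs hs'
      have e1 : s (z : Ω) = z := (IntermediateField.mem_fixingSubgroup_iff L s).1 hs _ z.2
      rw [hZ, map_sub, map_div₀, h s hs hs', e1, map_one]
    obtain ⟨a', ha', hZa⟩ := value_fixed L V Z hZ0 hfix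
    have hwa' : w.valuation L a' < 1 := (hw.lt a').1 (by rw [← hZa]; exact hvZ)
    have h6 := lu_exp hwa'
    have h7 := lu_exp hwl
    have hvr : V.valuation (r : Ω) ≤ 1 := (V.valuation_le_one_iff _).2 r.2
    have hmax : V.valuation ((D : L) : Ω) ≤
        max (V.valuation (((a' ^ 2 : L) : L) : Ω)) (V.valuation (((l * a' : L) : L) : Ω)) := by
      rw [hDΩ]
      have e2 : (((a' ^ 2 : L) : L) : Ω) = (a' : Ω) ^ 2 := by push_cast; rfl
      have e3 : (((l * a' : L) : L) : Ω) = (l : Ω) * (a' : Ω) := by push_cast; rfl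
      rw [e2, e3]
      refine Valuation.map_add_le _ (le_max_of_le_left ?_) (le_max_of_le_right ?_)
      · rw [map_pow, map_pow, hZa]
        rw [hZa] at hvZ
        exact pow_le_pow_right_of_le_one' hvZ.le hl.two_le
      · rw [map_mul, map_mul, map_mul, hZa]
        calc _ ≤ V.valuation (l : Ω) * V.valuation (a' : Ω) * 1 := mul_le_mul' le_rfl hvr
          _ = _ := mul_one _
    have hexp : WithZero.exp (-2 : ℤ) = WithZero.exp (-1 : ℤ) * WithZero.exp (-1 : ℤ) := by
      rw [← WithZero.exp_add]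
      norm_num
    rw [hexp]
    rcases max_choice (V.valuation (((a' ^ 2 : L) : L) : Ω)) (V.valuation (((l * a' : L) : L) : Ω)) with
      hc | hc
    · rw [hc] at hmax
      have h8 := (hw.le D (a' ^ 2)).1 hmax
      rw [map_pow, sq] at h8
      exact h8.trans (mul_le_mul' h6 h6)
    · rw [hc] at hmax
      have h8 := (hw.le D (l * a')).1 hmax
      rw [map_mul] at h8
      exact h8.trans (mul_le_mul' h7 h6)

end H13S
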