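import Mathlib
import Pool.Agent.Lib.H13S.Defs
import Pool.Agent.Lib.H13S.GIA

open NumberField IsDedekindDomain

namespace H13S

open H55P H28G H55B

variable {Ω : Type} [Field Ω] [DecidableEq Ω] [Algebra F Ω] [IsAlgClosure F Ω]

/-- Chunk MU (S). In the inert case L contains the l-th roots of unity. gi_gen: a point X ≠ 0 in Tor π = Tor (cj π); he.nondeg gives T with e X T ≠ 1: a primitive l-th root of unity (l prime). s in L.fixingSubgroup: s (e X T) = e (ac s X) (ac s T) = e X T
(hL). So e X T lies in L (fixed field of L.fixingSubgroup: InfiniteGalois.fixedField_fixingSubgroup; Ω/F is Galois, characteristic 0), and ζ is a power of it. -/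
theorem mu_mem {π : O} {l : ℕ} (hl : l.Prime) (hπ : Prime π) (h3 : Prim π) (hin : cj π = π)
    {e : P27 Ω → P27 Ω → Ω} (he : Pairing π l e) {L : IntermediateField F Ω} (hL : IsTF π L)
    (ζ : Ω) (hζ : ζ ^ l = 1) : ζ ∈ L := by
  obtain ⟨-, X, hX, -, hX0⟩ := gi_gen (Ω := Ω) π hπ h3
  have hXne : X ≠ 0 := by
    intro h
    have h1 : act (1 : O) X = 0 := by rw [h, map_zero]
    exact hπ.not_isUnit (isUnit_of_dvd_one ((hX0 1).1 h1))
  have hX' : X ∈ Tor (cj π) Ω := by rw [hin]; exact hX
  obtain ⟨T, hT, hTe⟩ : ∃ T ∈ Tor π Ω, e X T ≠ 1 := by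
    by_contra h
    push Not at h
    exact hXne (he.nondeg X hX' h)
  have hprim : IsPrimitiveRoot (e X T) l := by
    have : Fact l.Prime := ⟨hl⟩
    have h1 := orderOf_eq_prime (he.root X hX' T hT) hTe
    rw [← h1]
    exact IsPrimitiveRoot.orderOf _
  have : NeZero l := ⟨hl.ne_zero⟩
  obtain ⟨i, -, hi⟩ := hprim.eq_pow_of_pow_eq_one hζ
  have hmem : e X T ∈ L := by
    have hg : IsGalois F Ω := IsAlgClosure.isGalois F Ω
    rw [← InfiniteGalois.fixedField_fixingSubgroup L]
    rw [IntermediateField.mem_fixedField_iff]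
    intro s hs
    rw [he.act s X hX' T hT, (hL.2 s).1 hs T hT, (hL.2 s).1 hs X hX]
  rw [← hi]
  exact pow_mem hmem i

end H13S
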