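import Mathlib
import Pool.Agent.Lib.H13S.GIF

open NumberField IsDedekindDomain

namespace H13S

open H55P H28G H55B

theorem qi_nat {Ω : Type} [Field Ω] (V : ValuationSubring Ω) (n : ℕ) : V.valuation (n : Ω) ≤ 1 :=
  (V.valuation_le_one_iff _).2 (natCast_mem V n)

theorem qi_pow {Ω : Type} [Field Ω] (V : ValuationSubring Ω) {a b : Ω} (ha : V.valuation a ≤ 1)
    (hb : V.valuation b ≤ 1) (h : V.valuation (a - b) < 1) (n : ℕ) : V.valuation (a ^ n - b ^ n) < 1 := by
  have ha' : a ∈ V := (V.valuation_le_one_iff _).1 ha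
  have hb' : b ∈ V := (V.valuation_le_one_iff _).1 hb
  obtain ⟨c, hc⟩ := sub_dvd_pow_sub_pow (⟨a, ha'⟩ : V) ⟨b, hb'⟩ n
  have h1 := congrArg (fun z : V => (z : Ω)) hc
  push_cast at h1
  rw [h1, map_mul]
  exact mul_lt_one_of_lt_of_le h ((V.valuation_le_one_iff _).2 c.2)

/-- Powers in the residue field: x is congruent to a power of x. -/
theorem qi_res {Ω : Type} [Field Ω] [Algebra F Ω] [IsAlgClosure F Ω] (V : ValuationSubring Ω) (l : ℕ)
    (hl : l.Prime) (hV : V.valuation (l : Ω) < 1) (x : Ω) (hx : V.valuation x ≤ 1) :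
    ∃ k, 0 < k ∧ ∀ m, V.valuation (x ^ ((l ^ k) ^ m) - x) < 1 := by
  have hcz : CharZero Ω := charZero_of_injective_algebraMap (algebraMap F Ω).injective
  have hal : Algebra.IsAlgebraic F Ω := IsAlgClosure.isAlgebraic
  have hal0 : Algebra.IsAlgebraic ℚ F := inferInstance
  have hal1 : Algebra.IsAlgebraic ℚ Ω := Algebra.IsAlgebraic.trans ℚ F Ω
  have hxz : IsAlgebraic ℤ x := (IsFractionRing.isAlgebraic_iff ℤ ℚ Ω).2 (hal1.isAlgebraic x)
  obtain ⟨p, hp0, hp⟩ := hxz
  have hpp : Polynomial.aeval x p.primPart = 0 := Polynomial.aeval_primPart_eq_zero hp0 hp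
  have hprim : p.primPart.IsPrimitive := Polynomial.isPrimitive_primPart p
  generalize p.primPart = P at hpp hprim
  have hx' : x ∈ V := (V.valuation_le_one_iff _).1 hx
  let r : V →+* IsLocalRing.ResidueField V := IsLocalRing.residue V
  have hlk : (l : IsLocalRing.ResidueField V) = 0 := by
    have h1 : ((l : V) : Ω) = (l : Ω) := by push_cast; rfl
    have h2 : (l : V) ∈ IsLocalRing.maximalIdeal V := by
      rw [V.valuation_lt_one_iff, h1]
      exact hV
    have h3 := (IsLocalRing.residue_eq_zero_iff (l : V)).2 h2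
    rw [map_natCast] at h3
    exact h3
  have hfl : Fact l.Prime := ⟨hl⟩
  have hch : CharP (IsLocalRing.ResidueField V) l := (CharP.charP_iff_prime_eq_zero hl).2 hlk
  letI : Algebra (ZMod l) (IsLocalRing.ResidueField V) := ZMod.algebra _ l
  have hPl : P.map (Int.castRingHom (ZMod l)) ≠ 0 := by
    intro h0
    have h1 : Polynomial.C (l : ℤ) ∣ P := by
      rw [Polynomial.C_dvd_iff_dvd_coeff]
      intro i
      have h2 := congrArg (fun q => Polynomial.coeff q i) h0
      simp only [Polynomial.coeff_map, Polynomial.coeff_zero] at h2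
      exact (ZMod.intCast_zmod_eq_zero_iff_dvd _ _).1 h2
    have h3 := hprim _ h1
    rw [Int.isUnit_iff] at h3
    have := hl.two_le
    omega
  have hPx : Polynomial.eval₂ (Int.castRingHom V) ⟨x, hx'⟩ P = 0 := by
    apply Subtype.ext
    have h1 := Polynomial.hom_eval₂ P (Int.castRingHom V) V.subtype ⟨x, hx'⟩
    have h2 : V.subtype.comp (Int.castRingHom V) = algebraMap ℤ Ω := RingHom.ext_int _ _
    rw [h2] at h1
    exact h1.trans hpp
  have hPr : Polynomial.aeval (r ⟨x, hx'⟩) (P.map (Int.castRingHom (ZMod l))) = 0 := by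
    rw [Polynomial.aeval_def, Polynomial.eval₂_map]
    have h1 := Polynomial.hom_eval₂ P (Int.castRingHom V) r ⟨x, hx'⟩
    have h2 : r.comp (Int.castRingHom V) =
        (algebraMap (ZMod l) (IsLocalRing.ResidueField V)).comp (Int.castRingHom (ZMod l)) :=
      RingHom.ext_int _ _
    rw [h2, hPx, map_zero] at h1
    exact h1.symm
  have hint : IsIntegral (ZMod l) (r ⟨x, hx'⟩) := IsAlgebraic.isIntegral ⟨_, hPl, hPr⟩
  have hfd : FiniteDimensional (ZMod l) (IntermediateField.adjoin (ZMod l) {r ⟨x, hx'⟩}) :=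
    IntermediateField.adjoin.finiteDimensional hint
  have hfin : Finite (IntermediateField.adjoin (ZMod l) {r ⟨x, hx'⟩}) := Module.finite_of_finite (ZMod l)
  have hft : Fintype (IntermediateField.adjoin (ZMod l) {r ⟨x, hx'⟩}) := Fintype.ofFinite _
  have hcard := Module.card_eq_pow_finrank (K := ZMod l)
    (V := IntermediateField.adjoin (ZMod l) {r ⟨x, hx'⟩})
  rw [ZMod.card] at hcard
  have hpw := FiniteField.pow_card (⟨r ⟨x, hx'⟩, IntermediateField.mem_adjoin_simple_self _ _⟩ :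
    IntermediateField.adjoin (ZMod l) {r ⟨x, hx'⟩})
  rw [hcard] at hpw
  have hpw' : r ⟨x, hx'⟩ ^ l ^ Module.finrank (ZMod l) (IntermediateField.adjoin (ZMod l) {r ⟨x, hx'⟩}) =
      r ⟨x, hx'⟩ := congrArg Subtype.val hpw
  refine ⟨Module.finrank (ZMod l) (IntermediateField.adjoin (ZMod l) {r ⟨x, hx'⟩}), Module.finrank_pos, ?_⟩
  intro m
  have hit : ∀ m, r ⟨x, hx'⟩ ^ ((l ^ Module.finrank (ZMod l)
      (IntermediateField.adjoin (ZMod l) {r ⟨x, hx'⟩})) ^ m) = r ⟨x, hx'⟩ := by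
    intro m
    induction m with
    | zero => rw [pow_zero, pow_one]
    | succ m ih => rw [pow_succ, pow_mul, ih, hpw']
  have h4 : ((⟨x, hx'⟩ : V) ^ ((l ^ Module.finrank (ZMod l)
      (IntermediateField.adjoin (ZMod l) {r ⟨x, hx'⟩})) ^ m) - ⟨x, hx'⟩) ∈ IsLocalRing.maximalIdeal V := by
    rw [← IsLocalRing.residue_eq_zero_iff, map_sub, map_pow, sub_eq_zero]
    exact hit m
  rw [V.valuation_lt_one_iff] at h4
  exact h4

variable {Ω : Type} [Field Ω] [DecidableEq Ω] [Algebra F Ω] [IsAlgClosure F Ω]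

theorem qi_vo (V : ValuationSubring Ω) (b : O) : vo V b ≤ 1 := by
  have h1 : IsIntegral ℤ (algebraMap F Ω (b : F)) :=
    (RingOfIntegers.isIntegral_coe b).map ((Algebra.ofId F Ω).restrictScalars ℤ)
  have h2 : IsIntegral V (algebraMap F Ω (b : F)) := h1.tower_top
  obtain ⟨y, hy⟩ := IsIntegrallyClosed.isIntegral_iff.1 h2
  rw [vo, ← hy]
  exact (V.valuation_le_one_iff _).2 y.2

theorem qi_three (V : ValuationSubring Ω) (l : ℕ) (hl : l.Prime) (h5 : 5 ≤ l)
    (hV : V.valuation (l : Ω) < 1) : V.valuation (3 : Ω) = 1 := by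
  have h3 : V.valuation (3 : Ω) ≤ 1 := by
    have := qi_nat V 3
    push_cast at this
    exact this
  by_contra hne
  have hlt : V.valuation (3 : Ω) < 1 := lt_of_le_of_ne h3 hne
  have hco : IsCoprime (3 : ℤ) (l : ℤ) := by
    have h4 : Nat.Coprime 3 l := (Nat.coprime_primes Nat.prime_three hl).2 (by omega)
    exact_mod_cast Nat.isCoprime_iff_coprime.2 h4
  obtain ⟨a, b, hab⟩ := hco
  have h6 : ((a : Ω) * 3 + b * l) = 1 := by exact_mod_cast congrArg (fun z : ℤ => (z : Ω)) hab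
  have h7 : ∀ z : ℤ, V.valuation (z : Ω) ≤ 1 := fun z => (V.valuation_le_one_iff _).2 (intCast_mem V z)
  have h8 : V.valuation ((a : Ω) * 3 + b * l) < 1 := by
    refine lt_of_le_of_lt (V.valuation.map_add _ _) (max_lt ?_ ?_)
    · rw [map_mul, mul_comm]
      exact mul_lt_one_of_lt_of_le hlt (h7 a)
    · rw [map_mul, mul_comm]
      exact mul_lt_one_of_lt_of_le hV (h7 b)
  rw [h6, map_one] at h8
  exact lt_irrefl _ h8

theorem qi_iter {π : O} (hp : Prime π) (hpr : Prim π) (V : ValuationSubring Ω) (hV : vo V π < 1)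
    {P : P27 Ω} (hP : P ≠ 0) (h1 : V.valuation (xc P) ≤ 1) (f : ℕ) :
    act (π ^ f) P ≠ 0 ∧ V.valuation (xc (act (π ^ f) P)) ≤ 1 ∧
      V.valuation (xc (act (π ^ f) P) - xc P ^ Nm π ^ f) < 1 ∧
      V.valuation (yc (act (π ^ f) P) - yc P ^ Nm π ^ f) < 1 := by
  have hy1 : V.valuation (yc P) ≤ 1 := int_y V.valuation h1
  induction f with
  | zero =>
    rw [pow_zero, pow_zero, act_one, pow_one, pow_one, sub_self, sub_self, map_zero]
    exact ⟨hP, h1, zero_lt_one, zero_lt_one⟩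
  | succ f ih =>
    obtain ⟨i1, i2, i3, i4⟩ := ih
    obtain ⟨j1, j2, j3, j4⟩ := kr_kron π hp hpr V hV i1 i2
    rw [pow_succ', act_mul]
    refine ⟨j1, j2, ?_, ?_⟩
    · have h2 := qi_pow V i2 (by rw [map_pow]; exact pow_le_one' h1 _) i3 (Nm π)
      have h3 : xc (act π (act (π ^ f) P)) - xc P ^ Nm π ^ (f + 1) =
          (xc (act π (act (π ^ f) P)) - xc (act (π ^ f) P) ^ Nm π) +
          (xc (act (π ^ f) P) ^ Nm π - (xc P ^ Nm π ^ f) ^ Nm π) := by
        rw [← pow_mul, ← pow_succ]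
        ring
      rw [h3]
      exact lt_of_le_of_lt (V.valuation.map_add _ _) (max_lt j3 h2)
    · have h2 := qi_pow V (int_y V.valuation i2) (by rw [map_pow]; exact pow_le_one' hy1 _) i4 (Nm π)
      have h3 : yc (act π (act (π ^ f) P)) - yc P ^ Nm π ^ (f + 1) =
          (yc (act π (act (π ^ f) P)) - yc (act (π ^ f) P) ^ Nm π) +
          (yc (act (π ^ f) P) ^ Nm π - (yc P ^ Nm π ^ f) ^ Nm π) := by
        rw [← pow_mul, ← pow_succ]
        ring
      rw [h3]
      exact lt_of_le_of_lt (V.valuation.map_add _ _) (max_lt j4 h2)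

theorem qi_ac_sub (s : Ω ≃ₐ[F] Ω) (P Q : P27 Ω) : ac W27 s (P - Q) = ac W27 s P - ac W27 s Q := by
  exact map_sub (mp s.toAlgHom) P Q

/-- Chunk QI (M). In the inert case the local point can be taken in the kernel of reduction. C.loc: c s = ac s P - P. If P is in the kernel of reduction take Q = P. If
P = 0 also. Otherwise xc P, yc P are in V, and their classes lie in a finite field (P has coordinates in a number field; V lies above a prime because vo V pi < 1): x^(q^f) = x, y^(q^f) = y modulo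
the maximal ideal for some f ≥ 1, q = Nm pi. kr_kron f times: act (pi^f) P is congruent to (x^(q^f), y^(q^f)) = (x, y), so P' = act (pi^f) P - P = act (pi^f - 1) P is in the kernel of
reduction (kr_congr). ac s P' - P' = act (pi^f - 1) (c s) = - c s, because act pi (c s) = 0 (C.val with cj pi = pi). Q = -P'. -/
theorem inert_point {π : O} {l : ℕ} {c : (Ω ≃ₐ[F] Ω) → P27 Ω} (C : Cl π l c) (hin : cj π = π)
    (V : ValuationSubring Ω) (hV : vo V π < 1) :
    ∃ Q : P27 Ω, Kr V Q ∧ ∀ s, Inert V s → c s = ac W27 s Q - Q := by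
  have hl := C.hl
  have hVl : V.valuation (l : Ω) < 1 := by
    obtain ⟨b, hb⟩ := C.dvd
    have h1 : vo V (l : O) = vo V π * vo V b := by
      rw [hb]
      rw [← vo_eq, ← vo_eq, ← vo_eq, map_mul, map_mul]
    have h2 : vo V (l : O) = V.valuation (l : Ω) := by
      change V.valuation (algebraMap F Ω ((l : O) : F)) = _
      push_cast
      rfl
    rw [← h2, h1]
    exact mul_lt_one_of_lt_of_le hV (qi_vo V b)
  have hV3 : V.valuation (3 : Ω) = 1 := qi_three V l hl C.five hVl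
  obtain ⟨P, hP⟩ := C.loc V
  by_cases hK : Kr V P
  · exact ⟨P, hK, hP⟩
  have hP0 : P ≠ 0 := fun h => hK (Or.inl h)
  have hx1 : V.valuation (xc P) ≤ 1 := not_lt.1 fun h => hK (Or.inr h)
  have hy1 : V.valuation (yc P) ≤ 1 := int_y V.valuation hx1
  obtain ⟨k1, hk1, h1⟩ := qi_res V l hl hVl (xc P) hx1
  obtain ⟨k2, hk2, h2⟩ := qi_res V l hl hVl (yc P) hy1
  obtain ⟨a, ha⟩ : ∃ a, Nm π = l ^ a := by
    have h3 : Nm π ∣ l ^ 2 := by
      obtain ⟨b, hb⟩ := C.dvd
      refine ⟨Nm b, ?_⟩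
      rw [← Nm_mul, ← hb]
      have := Nm_repr (l : ℤ) 0
      push_cast at this
      rw [zero_mul, add_zero] at this
      zify
      rw [this]
      ring
    obtain ⟨a, _, ha⟩ := (Nat.dvd_prime_pow hl).1 h3
    exact ⟨a, ha⟩
  have hkr := qi_iter C.pr C.prim V hV hP0 hx1
  obtain ⟨e1, e2, e3, e4⟩ := hkr (k1 * k2)
  have hq1 : (Nm π) ^ (k1 * k2) = (l ^ k1) ^ (a * k2) := by
    rw [ha, ← pow_mul, ← pow_mul]
    congr 1
    ring
  have hq2 : (Nm π) ^ (k1 * k2) = (l ^ k2) ^ (a * k1) := by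
    rw [ha, ← pow_mul, ← pow_mul]
    congr 1
    ring
  have hcx : V.valuation (xc (act (π ^ (k1 * k2)) P) - xc P) < 1 := by
    have h5 := h1 (a * k2)
    rw [← hq1] at h5
    have h6 : xc (act (π ^ (k1 * k2)) P) - xc P = (xc (act (π ^ (k1 * k2)) P) - xc P ^ Nm π ^ (k1 * k2)) +
        (xc P ^ Nm π ^ (k1 * k2) - xc P) := by ring
    rw [h6]
    exact lt_of_le_of_lt (V.valuation.map_add _ _) (max_lt e3 h5)
  have hcy : V.valuation (yc (act (π ^ (k1 * k2)) P) - yc P) < 1 := by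
    have h5 := h2 (a * k1)
    rw [← hq2] at h5
    have h6 : yc (act (π ^ (k1 * k2)) P) - yc P = (yc (act (π ^ (k1 * k2)) P) - yc P ^ Nm π ^ (k1 * k2)) +
        (yc P ^ Nm π ^ (k1 * k2) - yc P) := by ring
    rw [h6]
    exact lt_of_le_of_lt (V.valuation.map_add _ _) (max_lt e4 h5)
  have hK' := kr_congr V hV3 e1 hP0 e2 hcx hcy
  refine ⟨P - act (π ^ (k1 * k2)) P, ?_, ?_⟩
  · have h7 := kr_act V (-1 : O) hK'
    rw [act_neg, act_one, neg_sub] at h7
    exact h7
  · intro s hs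
    have h8 := hP s hs
    have h9 : act π (c s) = 0 := by
      have h10 := C.val s
      rw [hin] at h10
      exact h10
    have h11 : act (π ^ (k1 * k2)) (c s) = 0 := by
      obtain ⟨m, hm⟩ := Nat.exists_eq_succ_of_ne_zero (Nat.mul_pos hk1 hk2).ne'
      rw [hm, Nat.succ_eq_add_one, pow_succ, act_mul, h9, map_zero]
    have h12 : ac W27 s (P - act (π ^ (k1 * k2)) P) = ac W27 s P - act (π ^ (k1 * k2)) (ac W27 s P) := by
      rw [qi_ac_sub, ac_act]
    rw [h12]
    have h13 : act (π ^ (k1 * k2)) (ac W27 s P) = act (π ^ (k1 * k2)) P := by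
      have h14 : ac W27 s P = c s + P := by rw [h8, sub_add_cancel]
      rw [h14, map_add, h11, zero_add]
    rw [h13, h8]
    abel

end H13S
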