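import Mathlib
import Pool.Agent.Lib.H13S.LU
import Pool.Agent.Lib.H13S.QI
import Pool.Agent.Lib.H13S.QV
import Pool.Agent.Lib.H13S.QR
import Pool.Agent.Lib.H13S.MU
import Pool.Agent.Lib.H13S.LD1
import Pool.Agent.Lib.H13S.LD2

open NumberField IsDedekindDomain

namespace H13S

open H55P H28G H55B

section inert

variable {F₀ : Type} [Field F₀] {Ω : Type} [Field Ω] [Algebra F₀ Ω] {V : ValuationSubring Ω}

theorem ld3_le {s : Ω ≃ₐ[F₀] Ω} (hs : Inert V s) {x : Ω} (hx : x ∈ V) : s x ∈ V := by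
  rw [← V.valuation_le_one_iff] at hx ⊢
  have h1 := hs x ((V.valuation_le_one_iff x).1 hx)
  have h2 : s x = (s x - x) + x := by ring
  rw [h2]
  exact (V.valuation.map_add _ _).trans (max_le h1.le hx)

theorem ld3_iff {s : Ω ≃ₐ[F₀] Ω} (hs : Inert V s) (x : Ω) : s x ∈ V ↔ x ∈ V := by
  refine ⟨fun h => ?_, ld3_le hs⟩
  by_contra hx
  have hx0 : x ≠ 0 := by
    rintro rfl
    exact hx V.zero_mem
  have h1 : 1 < V.valuation x := by
    rw [← not_le, V.valuation_le_one_iff]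
    exact hx
  have h2 : V.valuation x⁻¹ < 1 := by
    rw [map_inv₀]
    exact inv_lt_one_of_one_lt₀ h1
  have h3 := hs x⁻¹ ((V.valuation_le_one_iff _).1 h2.le)
  have h4 : V.valuation (s x⁻¹) < 1 := by
    have h5 : s x⁻¹ = (s x⁻¹ - x⁻¹) + x⁻¹ := by ring
    rw [h5]
    exact (V.valuation.map_add _ _).trans_lt (max_lt h3 h2)
  rw [map_inv₀, map_inv₀] at h4
  rw [← V.valuation_le_one_iff] at h
  have h5 : V.valuation (s x) ≠ 0 := by
    rw [Ne, map_eq_zero, map_eq_zero]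
    exact hx0
  have h6 : 1 ≤ (V.valuation (s x))⁻¹ := (one_le_inv₀ (zero_lt_iff.2 h5)).2 h
  exact absurd h4 (not_lt.2 h6)

theorem ld3_mul {s t : Ω ≃ₐ[F₀] Ω} (hs : Inert V s) (ht : Inert V t) : Inert V (s * t) := by
  intro x hx
  have h1 := hs (t x) (ld3_le ht hx)
  have h2 := ht x hx
  have h3 : (s * t) x - x = (s (t x) - t x) + (t x - x) := by
    change s (t x) - x = _
    ring
  rw [h3]
  exact (V.valuation.map_add _ _).trans_lt (max_lt h1 h2)

theorem ld3_inv {s : Ω ≃ₐ[F₀] Ω} (hs : Inert V s) : Inert V s⁻¹ := by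
  intro x hx
  have e : s (s⁻¹ x) = x := AlgEquiv.apply_symm_apply s x
  have h1 : s⁻¹ x ∈ V := by
    rw [← ld3_iff hs, e]
    exact hx
  have h2 := hs _ h1
  rw [e] at h2
  rw [← V.valuation.map_neg, neg_sub]
  exact h2

end inert

variable {Ω : Type} [Field Ω] [DecidableEq Ω] [Algebra F Ω] [IsAlgClosure F Ω]

theorem ld3_tt (s : Ω ≃ₐ[F] Ω) (P : P27 Ω) : tt (ac W27 s P) = s (tt P) := tt_mp s.toAlgHom P

theorem ld3_e0 {π : O} {l : ℕ} (hl : l ≠ 0) {e : P27 Ω → P27 Ω → Ω} (he : Pairing π l e) {T : P27 Ω}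
    (hT : T ∈ Tor π Ω) : e 0 T = 1 := by
  have h0 : (0 : P27 Ω) ∈ Tor (cj π) Ω := AddSubgroup.zero_mem _
  have h1 := he.add_left 0 h0 0 h0 T hT
  have h2 := he.root 0 h0 T hT
  rw [add_zero] at h1
  have h3 : e 0 T ≠ 0 := by
    intro h
    rw [h, zero_pow hl] at h2
    exact zero_ne_one h2
  exact (mul_eq_left₀ h3).1 h1.symm

theorem ld3_e0' {π : O} {l : ℕ} (hl : l ≠ 0) {e : P27 Ω → P27 Ω → Ω} (he : Pairing π l e) {X : P27 Ω}
    (hX : X ∈ Tor (cj π) Ω) : e X 0 = 1 := by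
  have h0 : (0 : P27 Ω) ∈ Tor π Ω := AddSubgroup.zero_mem _
  have h1 := he.add_right X hX 0 h0 0 h0
  have h2 := he.root X hX 0 h0
  rw [add_zero] at h1
  have h3 : e X 0 ≠ 0 := by
    intro h
    rw [h, zero_pow hl] at h2
    exact zero_ne_one h2
  exact (mul_eq_left₀ h3).1 h1.symm

theorem ld3_unit (V : ValuationSubring Ω) {u : O} (hu : IsUnit u) : vo V u = 1 := by
  obtain ⟨v, hv⟩ := hu.exists_right_inv
  have h1 : vo V u * vo V v = 1 := by
    unfold vo
    rw [← map_mul, ← map_mul]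
    have : (u : F) * (v : F) = ((u * v : O) : F) := by push_cast; rfl
    rw [this, hv]
    simp
  have h2 : vo V u ≤ 1 := ak_le V.valuation u
  have h3 : vo V v ≤ 1 := ak_le V.valuation v
  refine le_antisymm h2 ?_
  rw [← h1]
  exact mul_le_of_le_one_right zero_le h3

theorem ld3_l {π : O} {l : ℕ} (hl : l.Prime) (hd : π ∣ (l : O)) (hq : Nm π = l ^ 2) (V : ValuationSubring Ω) :
    V.valuation (l : Ω) = vo V π := by
  obtain ⟨u, hu⟩ := hd
  have h1 : Nm (l : O) = l ^ 2 := by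
    have := Nm_repr (l : ℤ) 0
    have e : ((l : ℤ) : O) + ((0 : ℤ) : O) * om = (l : O) := by push_cast; ring
    rw [e] at this
    have h2 : (Nm (l : O) : ℤ) = ((l ^ 2 : ℕ) : ℤ) := by
      rw [this]
      push_cast
      ring
    exact_mod_cast h2
  have h2 : Nm u = 1 := by
    have h3 := congrArg Nm hu
    rw [h1, Nm_mul, hq] at h3
    have h4 : 0 < l ^ 2 := pow_pos hl.pos 2
    exact (Nat.eq_of_mul_eq_mul_left h4 (by rw [mul_one]; exact h3)).symm
  have h3 : vo V u = 1 := ld3_unit V (Nm_eq_one.1 h2)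
  have h4 : V.valuation (l : Ω) = vo V (l : O) := by
    unfold vo
    simp
  rw [h4, hu]
  have h5 : vo V (π * u) = vo V π * vo V u := by
    unfold vo
    rw [← map_mul, ← map_mul]
    push_cast
    rfl
  rw [h5, h3, mul_one]

/-- Step D (final step for the level in the inert case). -/
theorem level_inert {π : O} {l : ℕ} {c : (Ω ≃ₐ[F] Ω) → P27 Ω} (C : Cl π l c) (hin : cj π = π)
    (hq : Nm π = l ^ 2) {e : P27 Ω → P27 Ω → Ω} (he : Pairing π l e) {L : IntermediateField F Ω} (hL : IsTF π L)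
    [NumberField L] (V : ValuationSubring Ω) (hV : vo V π < 1) (w : HeightOneSpectrum (𝓞 L)) (hw : Abv L V w)
    (T : P27 Ω) (hT : T ∈ Tor π Ω) (m : L) (hm : m ≠ 0) (y : Ω) (hyk : Kum L e c T y) (hy : y ^ l = (m : Ω)) :
    ∃ z : L, z ≠ 0 ∧ w.valuation L (m / z ^ l - 1) ≤ WithZero.exp (-2 : ℤ) := by
  classical
  have hchar : CharZero Ω := charZero_of_injective_algebraMap (algebraMap F Ω).injective
  have hl0 : l ≠ 0 := C.hl.ne_zero
  have hVl : V.valuation (l : Ω) = vo V π := ld3_l C.hl C.dvd hq V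
  have hVl1 : V.valuation (l : Ω) < 1 := hVl ▸ hV
  by_contra hlev
  have hex : ∃ s ∈ L.fixingSubgroup, Inert V s ∧ s y ≠ y := by
    by_contra hcon
    push Not at hcon
    exact hlev (level_unr L V w hw l C.hl hVl1 m hm y hy hcon)
  obtain ⟨s₁, hs1, hi1, hne1⟩ := hex
  have hTfix : ∀ s ∈ L.fixingSubgroup, ∀ R ∈ Tor π Ω, ac W27 s R = R := fun s hs => (hL.2 s).1 hs
  have hcT : ∀ s, c s ∈ Tor π Ω := fun s => by
    have := C.val s
    rwa [hin] at this
  have hc1 : c s₁ ≠ 0 := by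
    intro h0
    apply hne1
    rw [hyk.2 s₁ hs1, h0, ld3_e0 hl0 he hT, one_mul]
  have hT0 : T ≠ 0 := by
    intro h0
    apply hne1
    rw [hyk.2 s₁ hs1, h0, ld3_e0' hl0 he (C.val _), one_mul]
  obtain ⟨Q, hQ, hQc⟩ := inert_point C hin V hV
  have hr := val_point C hin V hV Q hQ hQc L hL s₁ hs1 hi1 hc1
  have hq3 : 3 ≤ Nm π := by
    rw [hq]
    nlinarith [C.five]
  have hvr := fun R (hR : R ∈ Tor π Ω) (h0 : R ≠ 0) => val_ratio C.pr C.prim hq3 V hV Q hQ hr R hR h0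
  have hcard : Nat.card (Tor π Ω) = Nm π := (gi_gen π C.pr C.prim).1
  have hfin : Finite (Tor π Ω) := Nat.finite_of_card_ne_zero (by rw [hcard]; omega)
  have hV0 : vo V π ≠ 0 := by
    unfold vo
    rw [Ne, map_eq_zero, map_eq_zero]
    exact_mod_cast C.pr.ne_zero
  have hQ0 : V.valuation (tt Q) ≠ 0 := by
    intro h0
    rw [h0, zero_pow (by omega)] at hr
    exact hV0 hr.symm
  -- the set J
  have hJfin : {R : P27 Ω | ∃ h ∈ L.fixingSubgroup, Inert V h ∧ h y = y ∧ c h = R}.Finite := by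
    refine Set.Finite.subset (Set.toFinite (Tor π Ω : Set (P27 Ω))) ?_
    rintro R ⟨h, -, -, -, rfl⟩
    exact hcT h
  set J : Finset (P27 Ω) := hJfin.toFinset with hJ
  have hJmem : ∀ R, R ∈ J ↔ ∃ h ∈ L.fixingSubgroup, Inert V h ∧ h y = y ∧ c h = R := fun R => by
    rw [hJ, Set.Finite.mem_toFinset]
    rfl
  have hJT : ∀ R ∈ J, R ∈ Tor π Ω := fun R hR => by
    obtain ⟨h, -, -, -, rfl⟩ := (hJmem R).1 hR
    exact hcT h
  have hJcard : J.card ≤ Nm π := by
    rw [← hcard]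
    have h1 : (J : Set (P27 Ω)) ⊆ (Tor π Ω : Set (P27 Ω)) := fun R hR => hJT R hR
    calc J.card = Set.ncard (J : Set (P27 Ω)) := (Set.ncard_coe_finset J).symm
      _ ≤ Set.ncard (Tor π Ω : Set (P27 Ω)) := Set.ncard_le_ncard h1 (Set.toFinite _)
      _ = Nat.card (Tor π Ω) := rfl
  have hJ0 : (0 : P27 Ω) ∈ J := (hJmem 0).2 ⟨1, Subgroup.one_mem _, fun x _ => by simp, rfl, C.one⟩
  have hcadd : ∀ h ∈ L.fixingSubgroup, ∀ h' , c (h * h') = c h + c h' := fun h hh h' => by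
    rw [C.mul, hTfix h hh _ (hcT h')]
  have hcinv : ∀ h ∈ L.fixingSubgroup, c h⁻¹ = -c h := fun h hh => by
    have h1 := hcadd h hh h⁻¹
    rw [mul_inv_cancel, C.one] at h1
    exact (neg_eq_of_add_eq_zero_right h1.symm).symm
  -- values
  have hval : ∀ R ∈ Tor π Ω, V.valuation (tt (Q + R)) = V.valuation (tt Q) := fun R hR => by
    by_cases h0 : R = 0
    · rw [h0, add_zero]
    · exact (hvr R hR h0).1
  have htau : ∀ R ∈ Tor π Ω, R ≠ 0 → V.valuation (tt R) = V.valuation (tt T) := fun R hR h0 => by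
    have h1 := (kr_tor_ram π C.pr C.prim V hV hR h0).2
    have h2 := (kr_tor_ram π C.pr C.prim V hV hT hT0).2
    exact (pow_left_inj₀ zero_le zero_le (by omega)).1 (h1.trans h2.symm)
  have hTQ : V.valuation (tt T) < V.valuation (tt Q) := (hvr T hT hT0).2.2
  have hTv : V.valuation (tt T) ^ (Nm π - 1) = vo V π := (kr_tor_ram π C.pr C.prim V hV hT hT0).2
  have hT0' : V.valuation (tt T) ≠ 0 := by
    intro h0
    rw [h0, zero_pow (by omega)] at hTv
    exact hV0 hTv.symm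
  obtain ⟨a, ha⟩ : ∃ a, a = V.valuation (tt T) / V.valuation (tt Q) := ⟨_, rfl⟩
  have ha1 : a < 1 := by
    rw [ha]
    exact (div_lt_one₀ (zero_lt_iff.2 hQ0)).2 hTQ
  have ha0 : 0 < a := by
    rw [ha, zero_lt_iff]
    exact div_ne_zero hT0' hQ0
  have haq : a ^ (Nm π * (Nm π - 1)) = vo V π := by
    have h1 : V.valuation (tt T) ^ (Nm π * (Nm π - 1)) = vo V π ^ Nm π := by
      rw [mul_comm, pow_mul, hTv]
    have h2 : V.valuation (tt Q) ^ (Nm π * (Nm π - 1)) = vo V π ^ (Nm π - 1) := by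
      rw [pow_mul, hr]
    have h3 : vo V π ^ Nm π = vo V π ^ (Nm π - 1) * vo V π := by
      rw [← pow_succ]
      congr 1
      omega
    rw [ha, div_pow, h1, h2, h3]
    exact mul_div_cancel_left₀ _ (pow_ne_zero _ hV0)
  -- the bound
  have hbd := prod_bound V J hJ0 (fun R => tt T / tt (Q + R))
    (fun R hR => by
      rw [map_div₀, hval R (hJT R hR), ← ha]
      exact ha1.le)
    {σ : Ω ≃+* Ω | ∃ h ∈ L.fixingSubgroup, Inert V h ∧ h y = y ∧ σ = (h : Ω ≃+* Ω)}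
    (by
      rintro σ ⟨h, hh, hih, hhy, rfl⟩
      refine ⟨c h, fun R hR => ?_, fun R => ⟨fun hR => ?_, fun hR => ?_⟩⟩
      · change h (tt T / tt (Q + R)) = tt T / tt (Q + (R + c h))
        rw [map_div₀, ← ld3_tt, ← ld3_tt, hTfix h hh T hT, map_add, hTfix h hh R (hJT R hR)]
        have h1 : ac W27 h Q = c h + Q := by
          rw [hQc h hih, sub_add_cancel]
        rw [h1]
        congr 2
        abel
      · obtain ⟨k, hk, hik, hky, rfl⟩ := (hJmem R).1 hR
        refine (hJmem _).2 ⟨k * h, Subgroup.mul_mem _ hk hh, ld3_mul hik hih, ?_, hcadd k hk h⟩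
        change k (h y) = y
        rw [hhy, hky]
      · obtain ⟨k, hk, hik, hky, hkc⟩ := (hJmem _).1 hR
        refine (hJmem _).2 ⟨k * h⁻¹, Subgroup.mul_mem _ hk (Subgroup.inv_mem _ hh),
          ld3_mul hik (ld3_inv hih), ?_, ?_⟩
        · change k (h⁻¹ y) = y
          have h1 : h⁻¹ y = y := by
            have h2 : h⁻¹ (h y) = y := AlgEquiv.symm_apply_apply h y
            rwa [hhy] at h2
          rw [h1, hky]
        · rw [hcadd k hk, hcinv h hh, hkc, add_neg_cancel_right])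
    (s₁ : Ω ≃+* Ω) (l - 1) (V.valuation (l : Ω))
    (fun b hb hf => coef_bound L V w hw l C.hl (by have := C.five; omega) hVl1
      (mu_mem C.hl C.pr C.prim hin he hL) m hm y hy hlev b hb
      (fun s hs hi hsy => hf (s : Ω ≃+* Ω) ⟨s, hs, hi, hsy, rfl⟩) s₁ hs1 hi1)
  have hterm : ∀ R ∈ J, V.valuation (tt T / tt (Q + 0) - (s₁ : Ω ≃+* Ω) (tt T / tt (Q + R))) = a ^ 2 := by
    intro R hR
    have hR' := hJT R hR
    have h0 : R + c s₁ ≠ 0 := by
      intro h0
      obtain ⟨k, hk, hik, hky, hkc⟩ := (hJmem R).1 hR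
      apply hne1
      have h1 : c s₁ = c k⁻¹ := by
        rw [hcinv k hk, hkc]
        exact eq_neg_of_add_eq_zero_right h0
      have h2 : k⁻¹ y = y := by
        have h3 : k⁻¹ (k y) = y := AlgEquiv.symm_apply_apply k y
        rwa [hky] at h3
      rw [hyk.2 s₁ hs1, h1, ← hyk.2 k⁻¹ (Subgroup.inv_mem _ hk), h2]
    have hT' : R + c s₁ ∈ Tor π Ω := AddSubgroup.add_mem _ hR' (hcT s₁)
    have e1 : (s₁ : Ω ≃+* Ω) (tt T / tt (Q + R)) = tt T / tt (Q + (R + c s₁)) := by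
      change s₁ (tt T / tt (Q + R)) = _
      rw [map_div₀, ← ld3_tt, ← ld3_tt, hTfix s₁ hs1 T hT, map_add, hTfix s₁ hs1 R hR']
      have h1 : ac W27 s₁ Q = c s₁ + Q := by
        rw [hQc s₁ hi1, sub_add_cancel]
      rw [h1]
      congr 2
      abel
    rw [e1, add_zero]
    have hv1 := hvr _ hT' h0
    have hne2 : tt (Q + (R + c s₁)) ≠ 0 := by
      intro h1
      rw [h1, map_zero] at hv1
      exact hQ0 hv1.1.symm
    have hne3 : tt Q ≠ 0 := by
      intro h1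
      rw [h1, map_zero] at hQ0
      exact hQ0 rfl
    have e2 : tt T / tt Q - tt T / tt (Q + (R + c s₁)) =
        tt T * (tt (Q + (R + c s₁)) - tt Q) / (tt Q * tt (Q + (R + c s₁))) := by
      field_simp
    rw [e2, map_div₀, map_mul, map_mul, hv1.1, hv1.2.1, htau _ hT' h0, ha, div_pow, sq, sq]
  rw [Finset.prod_congr rfl (fun R hR => rfl), map_prod] at hbd
  rw [Finset.prod_congr rfl hterm, Finset.prod_const, hVl, ← haq, ← pow_mul, ← pow_mul] at hbd
  have h1 := (pow_le_pow_iff_right_of_lt_one₀ ha0 ha1).1 hbd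
  have h2 : 2 * J.card * (l - 1) ≤ 2 * Nm π * (l - 1) := by
    exact Nat.mul_le_mul_right _ (Nat.mul_le_mul_left _ hJcard)
  have h3 : Nm π * (Nm π - 1) ≤ Nm π * (2 * (l - 1)) := by
    calc Nm π * (Nm π - 1) ≤ 2 * (J.card * (l - 1)) := h1
      _ = 2 * J.card * (l - 1) := by ring
      _ ≤ 2 * Nm π * (l - 1) := h2
      _ = Nm π * (2 * (l - 1)) := by ring
  have h4 := Nat.le_of_mul_le_mul_left h3 (by omega)
  rw [hq] at h4
  have h5 := C.five
  have h6 : l * l = l ^ 2 := by ring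
  have h7 : 5 * l ≤ l ^ 2 := by
    rw [← h6]
    exact Nat.mul_le_mul_right l h5
  omega

end H13S
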