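import Mathlib
import Pool.Agent.Lib.H28G.Defs

open NumberField IsDedekindDomain

namespace H13S

open H55P H28G H55B

/-- Chunk CO1 (S/M), pure group theory. A cocycle killed by l and vanishing on a subgroup of index prime to l is a coboundary: c (s n) = c s for n in N, so c is a function on the finite
set G/N of left cosets; S = sum of c over G/N; a s S = sum (c (s g) - c s) = S - index * c s. With u * index = 1 modulo l: X = -u S. -/
theorem cob_of_vanish {G M : Type} [Group G] [AddCommGroup M] (a : G → M →+ M)
    (ha : ∀ s t m, a (s * t) m = a s (a t m)) (c : G → M) (hc : ∀ s t, c (s * t) = c s + a s (c t))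
    (N : Subgroup G) (hN : N.index ≠ 0) (h0 : ∀ n ∈ N, c n = 0) (l : ℕ) (hl : l.Coprime N.index)
    (hlc : ∀ s, l • c s = 0) (B : AddSubgroup M) (hB : ∀ s, c s ∈ B) :
    ∃ X ∈ B, ∀ s, c s = a s X - X := by
  classical
  have hfin : Finite (G ⧸ N) := Subgroup.index_ne_zero_iff_finite.1 hN
  have hft : Fintype (G ⧸ N) := Fintype.ofFinite _
  have hwd : ∀ x y : G, (QuotientGroup.leftRel N) x y → c x = c y := by
    intro x y h
    rw [QuotientGroup.leftRel_apply] at h
    have h1 := hc x (x⁻¹ * y)
    rw [h0 _ h, map_zero, add_zero, mul_inv_cancel_left] at h1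
    exact h1.symm
  set cb : G ⧸ N → M := Quotient.lift c hwd with hcb
  have hcbm : ∀ g : G, cb (g : G ⧸ N) = c g := fun g => rfl
  have key : ∀ (s : G) (x : G ⧸ N), a s (cb x) = cb (s • x) - c s := by
    intro s x
    induction x using QuotientGroup.induction_on with
    | H g =>
      change a s (c g) = c (s * g) - c s
      rw [hc, add_sub_cancel_left]
  set S : M := ∑ x : G ⧸ N, cb x with hS
  have hcard : Fintype.card (G ⧸ N) = N.index := by
    rw [← Nat.card_eq_fintype_card]
    rfl
  have hsum : ∀ s, a s S = S - N.index • c s := by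
    intro s
    rw [hS, map_sum]
    simp only [key]
    rw [Finset.sum_sub_distrib, Finset.sum_const, Finset.card_univ, hcard]
    congr 1
    exact Fintype.sum_equiv (MulAction.toPerm s) _ _ fun x => rfl
  have hSB : S ∈ B := AddSubgroup.sum_mem _ fun x _ => by
    induction x using QuotientGroup.induction_on with
    | H g => exact hB g
  have hcop : IsCoprime (l : ℤ) (N.index : ℤ) := Nat.isCoprime_iff_coprime.2 hl
  obtain ⟨v, u, huv⟩ := hcop
  refine ⟨-(u • S), B.neg_mem (B.zsmul_mem hSB u), fun s => ?_⟩
  rw [map_neg, map_zsmul, hsum, smul_sub]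
  have h1 : (u * (N.index : ℤ)) • c s = c s := by
    have h2 : u * (N.index : ℤ) = 1 - v * l := by linarith
    rw [h2, sub_smul, one_smul, mul_smul, natCast_zsmul, hlc, smul_zero, sub_zero]
  rw [mul_smul, natCast_zsmul] at h1
  rw [h1]
  abel

end H13S
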