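import Mathlib
import Pool.Agent.Lib.H13S.Defs

open NumberField IsDedekindDomain

namespace H13S

open H55P H28G H55B

/-- Hilbert 90 for a cocycle which is trivial on the automorphisms fixing a finite set. -/
theorem ku1_h90 {k Ω : Type} [Field k] [Field Ω] [Algebra k Ω] [Normal k Ω]
    (u : (Ω ≃ₐ[k] Ω) → Ω) (hu0 : ∀ s, u s ≠ 0) (hcoc : ∀ s t, u (s * t) = u s * s (u t))
    (S : Set Ω) [Finite S] (hS1 : ∀ s, u s ∈ S)
    (hS2 : ∀ n : Ω ≃ₐ[k] Ω, (∀ x ∈ S, n x = x) → u n = 1) :
    ∃ y : Ω, y ≠ 0 ∧ ∀ s : Ω ≃ₐ[k] Ω, s y = u s * y := by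
  classical
  have hfin : FiniteDimensional k (IntermediateField.adjoin k S) :=
    IntermediateField.finiteDimensional_adjoin fun x _ => Normal.isIntegral inferInstance x
  let N : IntermediateField k Ω :=
    IntermediateField.normalClosure k (IntermediateField.adjoin k S) Ω
  have hNn : Normal k N := normalClosure.normal k (IntermediateField.adjoin k S) Ω
  have hNf : FiniteDimensional k N := normalClosure.is_finiteDimensional k (IntermediateField.adjoin k S) Ω
  have hSN : ∀ x ∈ S, x ∈ N := fun x hx =>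
    (IntermediateField.le_normalClosure (IntermediateField.adjoin k S))
      (IntermediateField.subset_adjoin k S hx)
  have hres : ∀ (s : Ω ≃ₐ[k] Ω) (x : N), ((AlgEquiv.restrictNormalHom N s x : N) : Ω) = s x :=
    fun s x => s.restrictNormal_commutes N x
  have hsur := AlgEquiv.restrictNormalHom_surjective (F := k) (K₁ := N) Ω
  choose g hg using hsur
  -- u depends only on the restriction
  have hdep : ∀ s t : Ω ≃ₐ[k] Ω, AlgEquiv.restrictNormalHom N s = AlgEquiv.restrictNormalHom N t →
      u s = u t := by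
    intro s t hst
    have h1 : u (t⁻¹ * s) = 1 := by
      apply hS2
      intro x hx
      have h2 : AlgEquiv.restrictNormalHom N (t⁻¹ * s) = 1 := by
        rw [map_mul, map_inv, hst, inv_mul_cancel]
      have h3 := hres (t⁻¹ * s) ⟨x, hSN x hx⟩
      rw [h2] at h3
      exact h3.symm
    have h2 := hcoc t (t⁻¹ * s)
    rw [h1, map_one, mul_one, mul_inv_cancel_left] at h2
    exact h2
  let f : (N ≃ₐ[k] N) → Nˣ := fun σ => Units.mk0 ⟨u (g σ), hSN _ (hS1 _)⟩
    (fun h => hu0 (g σ) (congrArg Subtype.val h))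
  have hf : groupCohomology.IsMulCocycle₁ f := by
    intro σ τ
    apply Units.ext
    apply Subtype.ext
    show u (g (σ * τ)) = ((σ ⟨u (g τ), hSN _ (hS1 _)⟩ : N) : Ω) * u (g σ)
    rw [hdep (g (σ * τ)) (g σ * g τ) (by rw [hg, map_mul, hg, hg]), hcoc, mul_comm]
    congr 1
    have h1 := hres (g σ) ⟨u (g τ), hSN _ (hS1 _)⟩
    rw [hg] at h1
    exact h1.symm
  obtain ⟨β, hβ⟩ := groupCohomology.isMulCoboundary₁_of_isMulCocycle₁_of_aut_to_units f hf
  refine ⟨((β : N) : Ω), ?_, fun s => ?_⟩
  · intro h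
    exact β.ne_zero (Subtype.ext h)
  · have h1 := hβ (AlgEquiv.restrictNormalHom N s)
    rw [div_eq_iff_eq_mul] at h1
    have h2 : (((AlgEquiv.restrictNormalHom N s) • β : Nˣ) : N) = AlgEquiv.restrictNormalHom N s (β : N) := rfl
    have h3 := congrArg (fun z : Nˣ => ((z : N) : Ω)) h1
    simp only [h2] at h3
    rw [hres] at h3
    rw [h3]
    show u (g (AlgEquiv.restrictNormalHom N s)) * ((β : N) : Ω) = _
    rw [hdep (g (AlgEquiv.restrictNormalHom N s)) s (hg _)]

variable {Ω : Type} [Field Ω] [DecidableEq Ω] [Algebra F Ω] [IsAlgClosure F Ω]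

/-- Chunk KU1 (M). Kummer generators by Hilbert 90. E₁ = the field of C.cont; zeta = a primitive l-th root of unity; N = normal closure over F of the compositum of
E₁, L, F(zeta): finite Galois over F, N ≥ L. For n in N.fixingSubgroup: c n = 0; so c (s n) = c s. For s in L.fixingSubgroup put u s = e (c s) T: an l-th root of
unity (he.root, C.val), in N. u (s t) = e (c s + ac s (c t)) T = u s * e (ac s (c t)) (ac s T) = u s * s (u t), because ac s T = T (IsTF), he.add_left, he.act. So u induces a multiplicative 1-cocycle of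
Gal(N/L) (elements of Gal(N/L) lift to L.fixingSubgroup, u does not depend on the lift) with values in N^*. Hilbert 90
(groupCohomology.isMulCoboundary₁_of_isMulCocycle₁_of_aut_to_units, or Dedekind independence by hand) gives y in N^* with s y = u s * y. -/
theorem exists_kum {π : O} {l : ℕ} {c : (Ω ≃ₐ[F] Ω) → P27 Ω} (C : Cl π l c) {e : P27 Ω → P27 Ω → Ω}
    (he : Pairing π l e) {L : IntermediateField F Ω} (hL : IsTF π L) {T : P27 Ω} (hT : T ∈ Tor π Ω) :
    ∃ y : Ω, Kum L e c T y := by
  classical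
  obtain ⟨E₁, hE₁, hc₁⟩ := C.cont
  have hNF : Normal F Ω := IsAlgClosure.normal F Ω
  have hNL : Normal L Ω := Normal.tower_top_of_normal F L Ω
  let b := Module.finBasis F E₁
  let S : Set Ω := Set.range (fun i => ((b i : E₁) : Ω)) ∪ {x : Ω | x ^ l = 1}
  have hl0 : 0 < l := C.hl.pos
  have hfr : {x : Ω | x ^ l = 1}.Finite := by
    have h1 := (Polynomial.nthRoots l (1 : Ω)).toFinset.finite_toSet
    refine h1.subset fun x hx => ?_
    rw [Finset.mem_coe, Multiset.mem_toFinset, Polynomial.mem_nthRoots hl0]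
    exact hx
  have hSf : Finite S := ((Set.finite_range _).union hfr).to_subtype
  -- the inclusion of the automorphism groups
  have hmem : ∀ s : Ω ≃ₐ[L] Ω, s.restrictScalars F ∈ L.fixingSubgroup := by
    intro s
    rw [IntermediateField.mem_fixingSubgroup_iff]
    intro x hx
    exact s.commutes ⟨x, hx⟩
  have hacT : ∀ s : Ω ≃ₐ[L] Ω, ac W27 (s.restrictScalars F) T = T := fun s =>
    (hL.2 _).1 (hmem s) T hT
  have h0 : ∀ s : Ω ≃ₐ[L] Ω, e (c (s.restrictScalars F)) T ≠ 0 := by
    intro s h0
    have h1 := he.root _ (C.val (s.restrictScalars F)) T hT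
    rw [h0, zero_pow hl0.ne'] at h1
    exact zero_ne_one h1
  have hcoc : ∀ s t : Ω ≃ₐ[L] Ω, e (c ((s * t).restrictScalars F)) T =
      e (c (s.restrictScalars F)) T * s (e (c (t.restrictScalars F)) T) := by
    intro s t
    have h1 : (s * t).restrictScalars F = s.restrictScalars F * t.restrictScalars F := rfl
    rw [h1, C.mul, he.add_left _ (C.val _) _ (ac_mem _ (C.val _)) T hT]
    congr 1
    have h2 := he.act (s.restrictScalars F) _ (C.val (t.restrictScalars F)) T hT
    rw [hacT] at h2
    exact h2.symm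
  have htriv : ∀ n : Ω ≃ₐ[L] Ω, (∀ x ∈ S, n x = x) → e (c (n.restrictScalars F)) T = 1 := by
    intro n hn
    have h1 : n.restrictScalars F ∈ E₁.fixingSubgroup := by
      rw [IntermediateField.mem_fixingSubgroup_iff]
      intro x hx
      have h2 := b.sum_repr ⟨x, hx⟩
      have h3 : x = ∑ i, (b.repr ⟨x, hx⟩ i) • ((b i : E₁) : Ω) := by
        have h4 := congrArg (fun z : E₁ => (z : Ω)) h2
        refine h4.symm.trans ?_
        push_cast
        rfl
      rw [h3, map_sum]
      refine Finset.sum_congr rfl fun i _ => ?_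
      rw [map_smul]
      congr 1
      exact hn _ (Or.inl ⟨i, rfl⟩)
    have h2 := hc₁ _ h1
    rw [h2]
    have h3 := he.add_left 0 (zero_mem _) 0 (zero_mem _) T hT
    rw [add_zero] at h3
    have h4 := he.root 0 (zero_mem _) T hT
    have h5 : e 0 T ≠ 0 := by
      intro h0
      rw [h0, zero_pow hl0.ne'] at h4
      exact zero_ne_one h4
    exact (mul_eq_left₀ h5).1 h3.symm
  obtain ⟨y, hy0, hy⟩ := ku1_h90 (k := L) (Ω := Ω) (fun s => e (c (s.restrictScalars F)) T) h0 hcoc S
    (fun s => Or.inr (he.root _ (C.val _) T hT)) htriv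
  refine ⟨y, hy0, fun s hs => ?_⟩
  exact hy (IntermediateField.fixingSubgroupEquiv L ⟨s, hs⟩)

end H13S
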