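import Mathlib
import Pool.Agent.Lib.H13S.FR
import Pool.Agent.Lib.H13S.GIF
import Pool.Agent.Lib.H55B.Z3

open NumberField IsDedekindDomain

namespace H13S

open H55P H28G H55B

variable {Ω : Type} [Field Ω] [DecidableEq Ω] [Algebra F Ω] [IsAlgClosure F Ω]

theorem dc_prim_cj {x : O} (h : Prim x) : Prim (cj x) := by
  obtain ⟨y, hy⟩ := h
  refine ⟨cj y, ?_⟩
  have h1 := congrArg cj hy
  rw [map_sub, map_one, map_mul, map_ofNat] at h1
  exact h1

theorem dc_Nm_cj (x : O) : Nm (cj x) = Nm x := by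
  have h1 := mul_cj x
  have h2 := mul_cj (cj x)
  rw [cj_cj, mul_comm, h1] at h2
  exact_mod_cast h2.symm

theorem dc_Nm_nat (l : ℕ) : Nm (l : O) = l ^ 2 := by
  have h := Nm_repr (l : ℤ) 0
  simp only [Int.cast_natCast, Int.cast_zero, zero_mul, add_zero] at h
  have h2 : (Nm (l : O) : ℤ) = (l : ℤ) ^ 2 := by rw [h]; ring
  exact_mod_cast h2

/-- Chunk DC (S/M), arithmetic. pi primary prime above l ≥ 5: either cj pi = pi and Nm pi = l^2, or pi does not divide cj pi, Nm pi = l, and then pi does not divide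
cj pi - 1. Proof: pi divides l, so Nm pi divides l^2 and Nm pi = l or l^2. If Nm pi = l^2: pi and l are associated (l = pi x, Nm x = 1), cj pi is associated to pi, and
primary elements which are associated (and prime to 3) are equal. If Nm pi = l: if pi divided cj pi then cj pi = u pi, = pi (primary), pi^2 = l: but l is not a square of an Eisenstein integer (pi =
a + b om = cj pi gives b = 0, a^2 = l, false). If pi divides cj pi - 1 then pi divides the integer t = pi + cj pi - 1, so l divides t (Nm); |pi + cj pi| ≤ 2 sqrt l, so |t| ≤ 2 sqrt l + 1 < l for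
l ≥ 7 (l = 5: Nm pi = 5 is impossible, a^2 - a b + b^2 = 5 has no solution, norms are 0 or 1 modulo 3), so t = 0; but t = 1 + 1 - 1 = 1 modulo 3. -/
theorem dichotomy (π : O) (l : ℕ) (hl : l.Prime) (h5 : 5 ≤ l) (hπ : Prime π) (h3 : Prim π)
    (hd : π ∣ (l : O)) : (cj π = π ∧ Nm π = l ^ 2) ∨ (¬ π ∣ cj π ∧ Nm π = l ∧ ¬ π ∣ cj π - 1) := by
  obtain ⟨x, hx⟩ := hd
  have hl0 : (l : O) ≠ 0 := by exact_mod_cast hl.ne_zero
  have hN : Nm π * Nm x = l ^ 2 := by rw [← Nm_mul, ← hx, dc_Nm_nat]
  obtain ⟨k, hk, hk2⟩ := (Nat.dvd_prime_pow hl).1 (Dvd.intro _ hN)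
  have hlp : 0 < l := hl.pos
  have hk0 : k ≠ 0 := by
    rintro rfl
    rw [pow_zero] at hk2
    exact hπ.not_isUnit (Nm_eq_one.1 hk2)
  have hk12 : k = 1 ∨ k = 2 := by omega
  rcases hk12 with rfl | rfl
  · right
    rw [pow_one] at hk2
    have hmc : π * cj π = (l : O) := by rw [mul_cj, hk2]
    obtain ⟨a, b, hab⟩ := exists_repr π
    have hcj : cj π = ((a - b : ℤ) : O) + ((-b : ℤ) : O) * om := by
      rw [hab, map_add, map_mul, map_intCast, map_intCast, cj_om]
      push_cast
      linear_combination (b : O) * om_rel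
    have hnorm : (l : ℤ) = a ^ 2 - a * b + b ^ 2 := by
      rw [← hk2, hab]
      exact Nm_repr a b
    refine ⟨?_, hk2, ?_⟩
    · rintro ⟨u, hu⟩
      have h1 : Nm π * Nm u = Nm π * 1 := by rw [← Nm_mul, ← hu, dc_Nm_cj, mul_one]
      have h2 : Nm u = 1 := Nat.eq_of_mul_eq_mul_left (by rw [hk2]; exact hlp) h1
      have h4 : Associated π (cj π) := by
        obtain ⟨w, hw⟩ := Nm_eq_one.1 h2
        exact ⟨w, by rw [hw, hu]⟩
      have h6 : π = cj π := h3.eq_of_associated (dc_prim_cj h3) h4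
      rw [hcj] at h6
      nth_rw 1 [hab] at h6
      have h7 := (repr_unique h6).2
      have h8 : b = 0 := by omega
      rw [h8] at hnorm
      have h9 : (l : ℤ) = a * a := by rw [hnorm]; ring
      have h10 : l = a.natAbs * a.natAbs := by
        rw [← Int.natAbs_mul, ← h9, Int.natAbs_natCast]
      have h11 : ¬ Nat.Prime (a.natAbs * a.natAbs) := Nat.not_prime_mul (by
        intro h; rw [h] at h10; omega) (by intro h; rw [h] at h10; omega)
      exact h11 (h10 ▸ hl)
    · intro h
      have h1 : π ∣ ((2 * a - b - 1 : ℤ) : O) := by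
        have e : ((2 * a - b - 1 : ℤ) : O) = π + (cj π - 1) := by
          rw [hcj]
          nth_rw 1 [hab]
          push_cast
          ring
        rw [e]
        exact dvd_add dvd_rfl h
      obtain ⟨y, hy⟩ := h1
      have h2 : (Nm ((2 * a - b - 1 : ℤ) : O) : ℤ) = (2 * a - b - 1) ^ 2 := by
        have h := Nm_repr (2 * a - b - 1) 0
        rw [Int.cast_zero, zero_mul, add_zero] at h
        rw [h]
        ring
      have h4 : (l : ℤ) ∣ (2 * a - b - 1) ^ 2 := by
        rw [← h2, hy, Nm_mul, hk2]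
        push_cast
        exact Dvd.intro _ rfl
      have h6 : (l : ℤ) ∣ 2 * a - b - 1 := (Nat.prime_iff_prime_int.1 hl).dvd_of_dvd_pow h4
      -- the congruences modulo three
      have h7 : (3 : O) ∣ ((a - 1 : ℤ) : O) + (b : ℤ) * om := by
        have h8 : (3 : O) ∣ π - 1 := h3
        have e : ((a - 1 : ℤ) : O) + (b : ℤ) * om = π - 1 := by
          rw [hab]
          push_cast
          ring
        rw [e]
        exact h8
      obtain ⟨h8, h9⟩ := Z3_three_dvd h7
      obtain ⟨c, hc⟩ := h6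
      have h10 : (2 * a - b) ^ 2 ≤ 4 * (l : ℤ) := by
        rw [hnorm]
        nlinarith [sq_nonneg b]
      have h5' : (5 : ℤ) ≤ l := by exact_mod_cast h5
      have h11 : c ≠ 0 := by
        rintro rfl
        rw [mul_zero] at hc
        omega
      have h12 : 2 * a - b = l * c + 1 := by linarith
      rw [h12] at h10
      have hl5 : (l : ℤ) ≤ 5 := by
        rcases lt_or_gt_of_ne h11 with h13 | h13
        · have h14 : c ≤ -1 := by omega
          have h15 : (l : ℤ) * c + 1 ≤ -(l - 1) := by nlinarith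
          have h16 : ((l : ℤ) - 1) ^ 2 ≤ (l * c + 1) ^ 2 := by nlinarith
          nlinarith
        · have h14 : 1 ≤ c := by omega
          have h15 : (l : ℤ) + 1 ≤ l * c + 1 := by nlinarith
          have h16 : ((l : ℤ) + 1) ^ 2 ≤ (l * c + 1) ^ 2 := by nlinarith
          nlinarith
      have hl5' : (l : ℤ) = 5 := le_antisymm hl5 h5'
      rw [hl5'] at hnorm
      obtain ⟨a', ha'⟩ := h8
      obtain ⟨b', hb'⟩ := h9
      have ha : a = 3 * a' + 1 := by linarith
      rw [ha, hb'] at hnorm
      ring_nf at hnorm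
      omega
  · left
    refine ⟨?_, hk2⟩
    have h1 : Nm x = 1 := by
      rw [hk2] at hN
      exact Nat.eq_of_mul_eq_mul_left (pow_pos hlp 2) (by rw [hN, mul_one])
    have h2 := Nm_eq_one.1 h1
    have h4 : Associated π (l : O) := by
      obtain ⟨w, hw⟩ := h2
      exact ⟨w, by rw [hw, hx]⟩
    have h6 : Associated (cj π) (l : O) := by
      obtain ⟨w, hw⟩ := h4
      refine ⟨Units.map (cj : O →* O) w, ?_⟩
      have h7 := congrArg cj hw
      rw [map_mul, map_natCast] at h7
      exact h7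
    exact (dc_prim_cj h3).eq_of_associated h3 (h6.trans h4.symm)

/-- At the places above cj pi (split case) some element of the decomposition group moves a point: s = Frobenius element (exists_frob for the prime span {cj pi}), gi_frob with
gamma = cj pi: ac s T = act (cj pi) T, not T for T ≠ 0 because pi does not divide cj pi - 1. -/
theorem dec_conj (π : O) (l : ℕ) (hl : l.Prime) (h5 : 5 ≤ l) (hπ : Prime π) (h3 : Prim π)
    (hd : π ∣ (l : O)) (hs : ¬ π ∣ cj π) (V : ValuationSubring Ω) (hV : vo V (cj π) < 1) :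
    ∃ s : Ω ≃ₐ[F] Ω, Dec V s ∧ ∃ T ∈ Tor π Ω, ac W27 s T ≠ T := by
  have hc : Prime (cj π) := (MulEquiv.prime_iff cj.toMulEquiv).2 hπ
  have hne : ¬ cj π ∣ π := by
    intro h
    apply hs
    have h1 := map_dvd cj h
    rwa [cj_cj] at h1
  have hd1 : ¬ π ∣ cj π - 1 := by
    rcases dichotomy π l hl h5 hπ h3 hd with h | h
    · exact absurd (by rw [h.1]) hs
    · exact h.2.2
  let v : HeightOneSpectrum O := ⟨Ideal.span {cj π}, (Ideal.span_singleton_prime hc.ne_zero).2 hc, by
    rw [Ne, Ideal.span_singleton_eq_bot]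
    exact hc.ne_zero⟩
  obtain ⟨s, hs1, hs2⟩ := exists_frob v V (by
    intro a ha
    obtain ⟨b, rfl⟩ := Ideal.mem_span_singleton.1 ha
    have e : algebraMap F Ω ((cj π * b : O) : F) =
        algebraMap F Ω ((cj π : O) : F) * algebraMap F Ω ((b : O) : F) := by
      rw [← map_mul]
      rfl
    rw [e, map_mul]
    exact mul_lt_one_of_lt_of_le hV (ak_le V.valuation b))
  obtain ⟨-, T, hT, -, hT2⟩ := gi_gen (Ω := Ω) π hπ h3
  refine ⟨s, hs1, T, hT, ?_⟩
  rw [gi_frob π (cj π) hπ h3 hc (dc_prim_cj h3) hne V hV s hs2 T hT]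
  intro h
  apply hd1
  rw [← hT2, act_sub, h, act_one, sub_self]

end H13S
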