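import Mathlib
import Pool.Agent.Lib.H13S.GIA
import Pool.Agent.Lib.H13S.GIF
import Pool.Agent.Lib.H13S.GIT

/-! # H13S: the geometric facts -/
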