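import Mathlib
import Pool.Agent.Lib.H13S.GI

open NumberField IsDedekindDomain

namespace H13S

open H55P H28G H55B

variable {Ω : Type} [Field Ω] [DecidableEq Ω] [Algebra F Ω] [IsAlgClosure F Ω]

/-- Chunk CH (S/M). The Galois character on the points killed by beta. From gi_gen: T₀ generates, act a T₀ = 0 iff beta divides a.
For s: ac s T₀ lies in Tor, = act a T₀, a unique modulo beta, prime to beta (ac s is injective); chi s = class of a, a unit of the field
O/beta (span {beta} maximal). Multiplicative: ac (s t) T₀ = ac s (act a_t T₀) = act a_t (act a_s T₀) (ac_act). -/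
theorem exists_chi (β : O) (hβ : Prime β) (h3 : Prim β) :
    ∃ χ : (Ω ≃ₐ[F] Ω) →* (O ⧸ Ideal.span {β})ˣ,
      (∀ s (a : O), Ideal.Quotient.mk (Ideal.span {β}) a = (χ s : O ⧸ Ideal.span {β}) →
        ∀ T ∈ Tor β Ω, ac W27 s T = act a T) ∧
      ∀ s, (∀ T ∈ Tor β Ω, ac W27 s T = T) → χ s = 1 := by
  obtain ⟨-, T₀, hT₀, hgen, hker⟩ := gi_gen (Ω := Ω) β hβ h3
  have hq : ∀ a b : O, act a T₀ = act b T₀ ↔
      Ideal.Quotient.mk (Ideal.span {β}) a = Ideal.Quotient.mk (Ideal.span {β}) b := by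
    intro a b
    rw [Ideal.Quotient.eq, Ideal.mem_span_singleton, ← hker, act_sub, sub_eq_zero]
  choose a ha using fun s : Ω ≃ₐ[F] Ω => hgen (ac W27 s T₀) (ac_mem s hT₀)
  obtain ⟨f, hf⟩ : ∃ f : (Ω ≃ₐ[F] Ω) →* (O ⧸ Ideal.span {β}), ∀ s, f s =
      Ideal.Quotient.mk (Ideal.span {β}) (a s) := by
    refine ⟨⟨⟨fun s => Ideal.Quotient.mk (Ideal.span {β}) (a s), ?_⟩, ?_⟩, fun _ => rfl⟩
    · have h1 : act (a 1) T₀ = act (1 : O) T₀ := by rw [← ha, ac_one, act_one]
      rw [(hq _ _).1 h1, map_one]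
    · intro s t
      have h1 : act (a (s * t)) T₀ = act (a s * a t) T₀ := by
        rw [← ha, ac_mul, ha t, ac_act, ha s, ← act_mul, mul_comm]
      show Ideal.Quotient.mk (Ideal.span {β}) (a (s * t)) = _
      rw [(hq _ _).1 h1, map_mul]
  refine ⟨f.toHomUnits, ?_, ?_⟩
  · intro s b hb T hT
    have hb' : Ideal.Quotient.mk (Ideal.span {β}) b = Ideal.Quotient.mk (Ideal.span {β}) (a s) := by
      rw [hb, MonoidHom.coe_toHomUnits, hf]
    obtain ⟨d, rfl⟩ := hgen T hT
    rw [ac_act, ha s, ← act_mul, ← act_mul, mul_comm, act_mul, mul_comm b d, act_mul,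
      (hq _ _).2 hb']
    rw [← act_mul, ← act_mul, mul_comm]
  · intro s hs
    apply Units.ext
    rw [MonoidHom.coe_toHomUnits, hf, Units.val_one]
    have h1 : act (a s) T₀ = act (1 : O) T₀ := by rw [← ha, hs T₀ hT₀, act_one]
    rw [(hq _ _).1 h1, map_one]

/-- The pointwise stabilizer of the points killed by beta has finite index dividing Nm beta - 1. -/
theorem stab_index (β : O) (hβ : Prime β) (h3 : Prim β) :
    ∃ N : Subgroup (Ω ≃ₐ[F] Ω), (∀ s, s ∈ N ↔ ∀ T ∈ Tor β Ω, ac W27 s T = T) ∧ N.Normal ∧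
      N.index ∣ Nm β - 1 ∧ N.index ≠ 0 := by
  obtain ⟨χ, h1, h2⟩ := exists_chi (Ω := Ω) β hβ h3
  have hp : (Ideal.span {β}).IsPrime := (Ideal.span_singleton_prime hβ.ne_zero).2 hβ
  have hbot : Ideal.span {β} ≠ ⊥ := by
    rw [Ne, Ideal.span_singleton_eq_bot]
    exact hβ.ne_zero
  have hm : (Ideal.span {β}).IsMaximal := hp.isMaximal hbot
  have hfin : Finite (O ⧸ Ideal.span {β}) := Ideal.finiteQuotientOfFreeOfNeBot _ hbot
  have hcard : Nat.card (O ⧸ Ideal.span {β})ˣ = Nm β - 1 := by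
    letI := Ideal.Quotient.field (Ideal.span {β})
    exact Nat.card_units (O ⧸ Ideal.span {β})
  refine ⟨χ.ker, ?_, inferInstance, ?_, ?_⟩
  · intro s
    rw [MonoidHom.mem_ker]
    constructor
    · intro hs T hT
      have h := h1 s 1 (by rw [hs, map_one, Units.val_one]) T hT
      rw [h, act_one]
    · exact h2 s
  · rw [Subgroup.index_ker, ← hcard]
    exact Subgroup.card_subgroup_dvd_card _
  · rw [Subgroup.index_ker]
    exact Nat.card_pos.ne'

end H13S
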