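import Mathlib
import Pool.Agent.Lib.H13S.Defs

open NumberField IsDedekindDomain

namespace H13S

open H55P H28G H55B

variable {Ω : Type} [Field Ω] [DecidableEq Ω] [Algebra F Ω] [IsAlgClosure F Ω]

variable {π : O} {l : ℕ} {c : (Ω ≃ₐ[F] Ω) → P27 Ω} {e : P27 Ω → P27 Ω → Ω}
  {L : IntermediateField F Ω}

/-- an element fixed by the fixing subgroup of `L` is in `L` -/
theorem ku2_mem (L : IntermediateField F Ω) {x : Ω} (h : ∀ s ∈ L.fixingSubgroup, s x = x) :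
    x ∈ L := by
  rw [← InfiniteGalois.fixedField_fixingSubgroup L]
  intro s
  exact h s.1 s.2

omit [IsAlgClosure F Ω] in
theorem ku2_ne (C : Cl π l c) (he : Pairing π l e) {X T : P27 Ω} (hX : X ∈ Tor (cj π) Ω)
    (hT : T ∈ Tor π Ω) : e X T ≠ 0 := by
  intro h
  have h1 := he.root X hX T hT
  rw [h, zero_pow (by have := C.five; omega)] at h1
  exact zero_ne_one h1

omit [IsAlgClosure F Ω] in
theorem ku2_sub (C : Cl π l c) (he : Pairing π l e) {X Y T : P27 Ω} (hX : X ∈ Tor (cj π) Ω)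
    (hY : Y ∈ Tor (cj π) Ω) (hT : T ∈ Tor π Ω) : e (X - Y) T = e X T / e Y T := by
  have h1 := he.add_left (X - Y) (sub_mem hX hY) Y hY T hT
  rw [sub_add_cancel] at h1
  rw [h1, mul_div_assoc, div_self (ku2_ne C he hY hT), mul_one]

omit [IsAlgClosure F Ω] in
/-- conjugates of elements of the fixing subgroup -/
theorem ku2_conj (hL : IsTF π L) (σ : Ω ≃ₐ[F] Ω) {s : Ω ≃ₐ[F] Ω} (hs : s ∈ L.fixingSubgroup) :
    σ⁻¹ * s * σ ∈ L.fixingSubgroup := by
  rw [hL.2]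
  intro T hT
  rw [ac_mul, ac_mul, (hL.2 s).1 hs _ (ac_mem σ hT), ← ac_mul, inv_mul_cancel, ac_one]

/-- Chunk KU2 (S/M), five small lemmas. The fixed field of L.fixingSubgroup is L (IsGalois F Ω:
IsAlgClosure.isGalois, characteristic 0; InfiniteGalois / IntermediateField.fixedField_fixingSubgroup for algebraic Galois extensions). -/
theorem kum_pow (C : Cl π l c) (he : Pairing π l e) (hL : IsTF π L) {T : P27 Ω} (hT : T ∈ Tor π Ω) {y : Ω}
    (hy : Kum L e c T y) : ∃ m : L, (m : Ω) = y ^ l ∧ m ≠ 0 := by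
  have h1 : y ^ l ∈ L := by
    apply ku2_mem
    intro s hs
    rw [map_pow, hy.2 s hs, mul_pow, he.root _ (C.val s) _ hT, one_mul]
  refine ⟨⟨y ^ l, h1⟩, rfl, fun h => ?_⟩
  have h2 : y ^ l = 0 := congrArg (fun z : L => (z : Ω)) h
  exact pow_ne_zero l hy.1 h2

theorem kum_mul (C : Cl π l c) (he : Pairing π l e) (hL : IsTF π L) {T T' : P27 Ω} (hT : T ∈ Tor π Ω)
    (hT' : T' ∈ Tor π Ω) {y y' : Ω} (hy : Kum L e c T y) (hy' : Kum L e c T' y') :
    Kum L e c (T + T') (y * y') := by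
  refine ⟨mul_ne_zero hy.1 hy'.1, fun s hs => ?_⟩
  rw [map_mul, hy.2 s hs, hy'.2 s hs, he.add_right _ (C.val s) _ hT _ hT']
  ring

theorem kum_ratio (hL : IsTF π L) {T : P27 Ω} {y y' : Ω} (hy : Kum L e c T y) (hy' : Kum L e c T y') :
    ∃ z : L, z ≠ 0 ∧ y = (z : Ω) * y' := by
  have h1 : y / y' ∈ L := by
    apply ku2_mem
    intro s hs
    have h2 : e (c s) T ≠ 0 := by
      intro h3
      have h4 := hy.2 s hs
      rw [h3, zero_mul] at h4
      exact hy.1 ((map_eq_zero_iff s s.injective).1 h4)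
    rw [map_div₀, hy.2 s hs, hy'.2 s hs, mul_div_mul_left _ _ h2]
  refine ⟨⟨y / y', h1⟩, fun h => ?_, ?_⟩
  · have h2 : y / y' = 0 := congrArg (fun z : L => (z : Ω)) h
    exact div_ne_zero hy.1 hy'.1 h2
  · show y = y / y' * y'
    rw [div_mul_cancel₀ _ hy'.1]

/-- For s in L.fixingSubgroup also σ⁻¹ s σ is in it (IsTF: s fixes all points of Tor pi). s (σ y) = σ ((σ⁻¹ s σ) y) = σ (e (c (σ⁻¹ s σ)) T) σ y =
e (ac σ (c (σ⁻¹ s σ))) (ac σ T) σ y, and ac σ (c (σ⁻¹ s σ)) = c s + ac s (c σ) - c σ (cocycle identity, c 1 = 0). With g = e (c σ) (ac σ T): e (ac s (c σ)) (ac σ T) =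
e (ac s (c σ)) (ac s (ac σ T)) = s g. -/
theorem kum_act (C : Cl π l c) (he : Pairing π l e) (hL : IsTF π L) (σ : Ω ≃ₐ[F] Ω) {T : P27 Ω}
    (hT : T ∈ Tor π Ω) {y : Ω} (hy : Kum L e c T y) :
    Kum L e c (ac W27 σ T) (σ y / e (c σ) (ac W27 σ T)) := by
  have hT' := ac_mem σ hT
  have hg := ku2_ne C he (C.val σ) hT'
  have hy0 : σ y ≠ 0 := by
    rw [Ne, map_eq_zero_iff σ σ.injective]
    exact hy.1
  refine ⟨div_ne_zero hy0 hg, fun s hs => ?_⟩
  have hs' := ku2_conj hL σ hs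
  have e1 : σ * (σ⁻¹ * s * σ) = s * σ := by group
  have e2 : ac W27 σ (c (σ⁻¹ * s * σ)) = c s + ac W27 s (c σ) - c σ := by
    have h1 := C.mul σ (σ⁻¹ * s * σ)
    rw [e1, C.mul s σ] at h1
    rw [h1, add_sub_cancel_left]
  have e3 : s (σ y) = e (c s + ac W27 s (c σ) - c σ) (ac W27 σ T) * σ y := by
    have h1 : s (σ y) = σ ((σ⁻¹ * s * σ) y) := by
      show (s * σ) y = (σ * (σ⁻¹ * s * σ)) y
      rw [e1]
    rw [h1, hy.2 _ hs', map_mul, he.act σ _ (C.val _) _ hT, e2]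
  have hXs := ac_mem s (C.val σ)
  have e4 : s (e (c σ) (ac W27 σ T)) = e (ac W27 s (c σ)) (ac W27 σ T) := by
    rw [he.act s _ (C.val σ) _ hT', (hL.2 s).1 hs _ hT']
  have hg2 := ku2_ne C he hXs hT'
  rw [map_div₀, e3, e4, ku2_sub C he (add_mem (C.val s) hXs) (C.val σ) hT',
    he.add_left _ (C.val s) _ hXs _ hT']
  field_simp

/-- L is stable under all automorphisms. -/
theorem tf_stable (hL : IsTF π L) (σ : Ω ≃ₐ[F] Ω) (x : L) : σ (x : Ω) ∈ L := by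
  apply ku2_mem
  intro s hs
  have hs' := ku2_conj hL σ hs
  have h1 : (σ⁻¹ * s * σ) (x : Ω) = (x : Ω) :=
    (IntermediateField.mem_fixingSubgroup_iff L _).1 hs' x x.2
  have e1 : σ * (σ⁻¹ * s * σ) = s * σ := by group
  show (s * σ) (x : Ω) = σ (x : Ω)
  rw [← e1]
  show σ ((σ⁻¹ * s * σ) (x : Ω)) = σ (x : Ω)
  rw [h1]

end H13S
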