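import Mathlib
import Pool.Agent.Lib.H13S.CH
import Pool.Agent.Lib.H13S.KU2
import Pool.Agent.Lib.H13S.CO1

open NumberField IsDedekindDomain

namespace H13S

open H55P H28G H55B

variable {Ω : Type} [Field Ω] [DecidableEq Ω] [Algebra F Ω] [IsAlgClosure F Ω]

theorem CO2_Nm_cj (x : O) : Nm (cj x) = Nm x := by
  have h1 := mul_cj (cj x)
  rw [cj_cj, mul_comm, mul_cj] at h1
  exact_mod_cast h1.symm

theorem CO2_cj_prime {π : O} (h : Prime π) : Prime (cj π) :=
  (MulEquiv.prime_iff (cj : O ≃* O)).2 h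

theorem CO2_cj_prim {π : O} (h : Prim π) : Prim (cj π) := by
  obtain ⟨d, hd⟩ := h
  refine ⟨cj d, ?_⟩
  have h1 := congrArg cj hd
  rw [map_sub, map_one, map_mul, map_ofNat] at h1
  exact h1

theorem CO2_Nm {π : O} {l : ℕ} (hl : l.Prime) (hp : Prime π) (hd : π ∣ (l : O)) : l ∣ Nm π := by
  have h1 : Nm (l : O) = l ^ 2 := by
    have h := mul_cj (l : O)
    rw [map_natCast] at h
    have h2 : ((l ^ 2 : ℕ) : O) = ((Nm (l : O) : ℕ) : O) := by
      rw [← h]
      push_cast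
      ring
    exact_mod_cast h2.symm
  obtain ⟨u, hu⟩ := hd
  have h2 : Nm π ∣ l ^ 2 := by
    rw [← h1, hu, Nm_mul]
    exact dvd_mul_right _ _
  obtain ⟨k, -, hk⟩ := (Nat.dvd_prime_pow hl).1 h2
  have hk0 : k ≠ 0 := by
    rintro rfl
    rw [pow_zero, Nm_eq_one] at hk
    exact hp.not_isUnit hk
  rw [hk]
  exact dvd_pow_self _ hk0

theorem CO2_cop {l m n : ℕ} (hl : l.Prime) (h : l ∣ m) (hm : m ≠ 0) (hn : n ∣ m - 1) : l.Coprime n := by
  rw [Nat.Prime.coprime_iff_not_dvd hl]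
  intro h1
  have h2 : l ∣ m - 1 := h1.trans hn
  have h3 : l ∣ 1 := by
    have h4 : m - (m - 1) = 1 := by omega
    rw [← h4]
    exact Nat.dvd_sub h h2
  exact hl.one_lt.ne' (Nat.dvd_one.1 h3)

/-- Chunk CO2 (M). If all Kummer generators are trivial then c is a coboundary. N₀ = the elements fixing Tor pi and Tor (cj pi) pointwise: intersection of the two
subgroups of stab_index, index divides (Nm pi - 1)(Nm (cj pi) - 1) (relIndex/index of an intersection of normal subgroups divides the product), prime to l (Nm pi = l or l^2 because pi divides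
l; Nm (cj pi) = Nm pi), not 0. For s in N₀: s fixes all values e X T (he.act); they contain a primitive l-th root of unity (if Tor (cj pi) has a nonzero point X, he.nondeg gives T with
e X T ≠ 1; gi_gen), so s fixes all l-th roots of unity. For T: y^l = z^l, y = xi z, xi^l = 1, s y = y (s in L.fixingSubgroup by IsTF), so e (c s) T = 1 for all T and c s = 0 by
nondegeneracy. cob_of_vanish with B = Tor (cj pi), l • c s = 0 (act (l) = act (l/cj pi) act (cj pi); cj pi divides l). -/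
theorem cob_of_kum {π : O} {l : ℕ} {c : (Ω ≃ₐ[F] Ω) → P27 Ω} (C : Cl π l c) {e : P27 Ω → P27 Ω → Ω}
    (he : Pairing π l e) {L : IntermediateField F Ω} (hL : IsTF π L)
    (h : ∀ T ∈ Tor π Ω, ∃ y : Ω, Kum L e c T y ∧ ∃ z : L, y ^ l = (z : Ω) ^ l) :
    ∃ X ∈ Tor (cj π) Ω, ∀ s, c s = ac W27 s X - X := by
  obtain ⟨N₁, hN₁, hn₁, hd₁, h0₁⟩ := stab_index (Ω := Ω) π C.pr C.prim
  obtain ⟨N₂, hN₂, hn₂, hd₂, h0₂⟩ := stab_index (Ω := Ω) (cj π) (CO2_cj_prime C.pr) (CO2_cj_prim C.prim)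
  have hlN : l ∣ Nm π := CO2_Nm C.hl C.pr C.dvd
  have hN0 : Nm π ≠ 0 := fun h => C.pr.ne_zero (Nm_eq_zero.1 h)
  rw [CO2_Nm_cj] at hd₂
  have hidx : (N₁ ⊓ N₂).index = N₁.relIndex N₂ * N₂.index := by
    rw [← Subgroup.relIndex_mul_index (inf_le_right : N₁ ⊓ N₂ ≤ N₂), Subgroup.inf_relIndex_right]
  have hrel : N₁.relIndex N₂ ∣ N₁.index := Subgroup.relIndex_dvd_index_of_normal N₁ N₂
  have hcop : l.Coprime (N₁ ⊓ N₂).index := by
    rw [hidx]
    exact Nat.Coprime.mul_right (CO2_cop C.hl hlN hN0 (hrel.trans hd₁)) (CO2_cop C.hl hlN hN0 hd₂)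
  have hne : (N₁ ⊓ N₂).index ≠ 0 := by
    rw [hidx]
    refine mul_ne_zero (fun h => h0₁ ?_) h0₂
    rw [h] at hrel
    exact Nat.eq_zero_of_zero_dvd hrel
  have hlc : ∀ s, l • c s = 0 := by
    intro s
    obtain ⟨u, hu⟩ := C.dvd
    have h1 : (l : O) = cj u * cj π := by
      have h2 := congrArg cj hu
      rw [map_natCast, map_mul] at h2
      rw [h2, mul_comm]
    have h3 : act (cj π) (c s) = 0 := C.val s
    rw [← act_nat, h1, act_mul, h3, map_zero]
  have hvan : ∀ s ∈ N₁ ⊓ N₂, c s = 0 := by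
    intro s hs
    obtain ⟨hs₁, hs₂⟩ := Subgroup.mem_inf.1 hs
    rw [hN₁] at hs₁
    rw [hN₂] at hs₂
    refine he.nondeg _ (C.val s) ?_
    intro T hT
    by_contra hne1
    obtain ⟨y, hy, z, hz⟩ := h T hT
    have hroot := he.root _ (C.val s) T hT
    have hprim : IsPrimitiveRoot (e (c s) T) l := by
      have h1 : Fact l.Prime := ⟨C.hl⟩
      rw [← orderOf_eq_prime hroot hne1]
      exact IsPrimitiveRoot.orderOf _
    have hfix : s (e (c s) T) = e (c s) T := by
      rw [he.act s _ (C.val s) T hT, hs₂ _ (C.val s), hs₁ T hT]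
    have hsL : s ∈ L.fixingSubgroup := (hL.2 s).2 hs₁
    have hy0 : y ≠ 0 := hy.1
    have hz0 : (z : Ω) ≠ 0 := by
      intro h0
      rw [h0, zero_pow C.hl.ne_zero] at hz
      exact pow_ne_zero _ hy0 hz
    have h2 : (y / z) ^ l = 1 := by
      rw [div_pow, hz]
      exact div_self (pow_ne_zero _ hz0)
    have hl0 : NeZero l := ⟨C.hl.ne_zero⟩
    obtain ⟨i, -, hi⟩ := hprim.eq_pow_of_pow_eq_one h2
    have h3 : y = e (c s) T ^ i * z := by
      rw [hi, div_mul_cancel₀ _ hz0]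
    have h4 : s (z : Ω) = z := by
      rw [IntermediateField.mem_fixingSubgroup_iff] at hsL
      exact hsL _ z.2
    have h5 : s y = y := by
      rw [h3, map_mul, map_pow, hfix, h4]
    have h6 := hy.2 s hsL
    rw [h5] at h6
    exact hne1 (mul_right_cancel₀ hy0 (by rw [one_mul]; exact h6.symm))
  exact cob_of_vanish (fun s => (ac W27 s : P27 Ω →+ P27 Ω)) (fun s t P => ac_mul s t P) c C.mul
    (N₁ ⊓ N₂) hne hvan l hcop hlc (Tor (cj π) Ω) C.val

end H13S
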