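import Mathlib
import Pool.Agent.Lib.H13S.GI

open NumberField IsDedekindDomain

namespace H13S

open H55P H28G H55B

variable {Ω : Type} [Field Ω] [DecidableEq Ω] [Algebra F Ω] [IsAlgClosure F Ω]

theorem IZ_ne (s : Ω ≃ₐ[F] Ω) {P : P27 Ω} (hP : P ≠ 0) : ac W27 s P ≠ 0 := by
  rw [ac_eq]
  exact mp_ne _ hP

theorem IZ_xc (s : Ω ≃ₐ[F] Ω) (P : P27 Ω) : xc (ac W27 s P) = s (xc P) := by
  rw [ac_eq, xc_mp]
  rfl

theorem IZ_yc (s : Ω ≃ₐ[F] Ω) (P : P27 Ω) : yc (ac W27 s P) = s (yc P) := by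
  rw [ac_eq, yc_mp]
  rfl

theorem IZ_big (V : ValuationSubring Ω) (s : Ω ≃ₐ[F] Ω) (hs : Inert V s) {x : Ω}
    (hx : 1 < V.valuation x) : 1 < V.valuation (s x) := by
  have hx0 : V.valuation x ≠ 0 := (zero_lt_one.trans hx).ne'
  have h1 : V.valuation x⁻¹ < 1 := by
    rw [map_inv₀]
    exact inv_lt_one_of_one_lt₀ hx
  have h2 : x⁻¹ ∈ V := (V.valuation_le_one_iff _).1 h1.le
  have h3 := hs _ h2
  have h4 : V.valuation (s x⁻¹) < 1 := by
    have e : s x⁻¹ = (s x⁻¹ - x⁻¹) + x⁻¹ := by ring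
    rw [e]
    exact Valuation.map_add_lt _ h3 h1
  have hx' : x ≠ 0 := (Valuation.ne_zero_iff _).1 hx0
  have hsx : s x ≠ 0 := by
    rw [Ne, map_eq_zero_iff s s.injective]
    exact hx'
  rw [map_inv₀, map_inv₀] at h4
  have h5 : 0 < V.valuation (s x) := zero_lt_iff.2 ((Valuation.ne_zero_iff _).2 hsx)
  exact (inv_lt_one₀ h5).1 h4

/-- Chunk IZ (S/M). Inertia acts without effect: c s = ac s P - P (C.loc) is killed by cj pi. If P is in the kernel of reduction so is ac s P (V.valuation (s x - x) < 1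
on V implies: 1 < V.valuation x iff 1 < V.valuation (s x), apply to 1/x), and -P (xc_neg), so c s is in the kernel of reduction (kr_add). Otherwise P = 0 or xc P, yc P are in V (y^2 + y = x^3) and
s x = x, s y = y modulo the maximal ideal: kr_congr. kr_tor: c s = 0. -/
theorem c_inert_zero {π : O} {l : ℕ} {c : (Ω ≃ₐ[F] Ω) → P27 Ω} (C : Cl π l c) (V : ValuationSubring Ω)
    (h3 : V.valuation (3 : Ω) = 1) (hc : vo V (cj π) = 1) (s : Ω ≃ₐ[F] Ω) (hs : Inert V s) : c s = 0 := by
  obtain ⟨P, hP⟩ := C.loc V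
  have h1 := hP s hs
  refine kr_tor V (cj π) hc (C.val s) ?_
  rw [h1]
  by_cases hK : Kr V P
  · rw [sub_eq_add_neg]
    refine kr_add V ?_ ?_
    · rcases hK with h | h
      · left
        rw [h, map_zero]
      · right
        rw [IZ_xc]
        exact IZ_big V s hs h
    · rcases hK with h | h
      · left
        rw [h]
        exact neg_zero
      · right
        rw [xc_neg]
        exact h
  · have hP0 : P ≠ 0 := fun h => hK (Or.inl h)
    have hx : V.valuation (xc P) ≤ 1 := not_lt.1 fun h => hK (Or.inr h)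
    have hy : V.valuation (yc P) ≤ 1 := int_y V.valuation hx
    have hx2 := hs _ ((V.valuation_le_one_iff _).1 hx)
    have hy2 := hs _ ((V.valuation_le_one_iff _).1 hy)
    have hx3 : V.valuation (s (xc P)) ≤ 1 := by
      have e : s (xc P) = (s (xc P) - xc P) + xc P := by ring
      rw [e]
      exact (Valuation.map_add _ _ _).trans (max_le hx2.le hx)
    refine kr_congr V h3 (IZ_ne s hP0) hP0 ?_ ?_ ?_
    · rw [IZ_xc]
      exact hx3
    · rw [IZ_xc]
      exact hx2
    · rw [IZ_yc]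
      exact hy2

end H13S
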