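import Mathlib
import Pool.Agent.Lib.H13S.LD3
import Pool.Agent.Lib.H13S.IZ
import Pool.Agent.Lib.H13S.DC

open NumberField IsDedekindDomain

namespace H13S

open H55P H28G H55B

variable {Ω : Type} [Field Ω] [DecidableEq Ω] [Algebra F Ω] [IsAlgClosure F Ω]

theorem lv_coprime {π : O} (h : Prim π) : IsCoprime π 3 := by
  obtain ⟨c, hc⟩ := h
  exact ⟨1, -c, by linear_combination hc⟩

omit [DecidableEq Ω] [IsAlgClosure F Ω] in
theorem lv_mul (V : ValuationSubring Ω) (a b : O) : vo V (a * b) = vo V a * vo V b := by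
  unfold vo
  rw [← map_mul, ← map_mul]
  push_cast
  rfl

omit [IsAlgClosure F Ω] in
theorem lv_le (V : ValuationSubring Ω) (a : O) : vo V a ≤ 1 := ak_le V.valuation a

omit [IsAlgClosure F Ω] in
theorem lv_unit {V : ValuationSubring Ω} {π x : O} (h : IsCoprime π x) (hV : vo V π < 1) :
    vo V x = 1 := by
  obtain ⟨a, b, hab⟩ := h
  refine le_antisymm (lv_le V x) ?_
  by_contra hx
  rw [not_le] at hx
  have h1 : vo V (a * π) < 1 := by
    rw [lv_mul]
    exact lt_of_le_of_lt (mul_le_of_le_one_left' (lv_le V a)) hV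
  have h2 : vo V (b * x) < 1 := by
    rw [lv_mul]
    exact lt_of_le_of_lt (mul_le_of_le_one_left' (lv_le V b)) hx
  have h3 : vo V (a * π + b * x) < 1 := by
    have e : algebraMap F Ω ((a * π + b * x : O) : F) =
        algebraMap F Ω ((a * π : O) : F) + algebraMap F Ω ((b * x : O) : F) := by
      rw [← map_add]
      push_cast
      rfl
    unfold vo
    rw [e]
    exact Valuation.map_add_lt _ h1 h2
  rw [hab] at h3
  have h4 : vo V (1 : O) = 1 := by
    unfold vo
    simp
  rw [h4] at h3
  exact lt_irrefl _ h3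

/-- Chunk LV (S/M). The level at the primes above π. dichotomy: if cj π = π: level_inert. Otherwise π does not divide cj π, so π and cj π are coprime (prime elements, span {π} maximal) and vo V (cj π) = 1; V.valuation 3 = 1 (π is prime to 3: Prim.coprime); c_inert_zero: c s = 0 for
Inert V s, so s y = e 0 T * y = y (e 0 T = 1 by he.add_left) for s in L.fixingSubgroup: level_unr, V.valuation l < 1 because π divides l. -/
theorem level {π : O} {l : ℕ} {c : (Ω ≃ₐ[F] Ω) → P27 Ω} (C : Cl π l c)
    {e : P27 Ω → P27 Ω → Ω} (he : Pairing π l e) {L : IntermediateField F Ω} (hL : IsTF π L)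
    [NumberField L] (V : ValuationSubring Ω) (hV : vo V π < 1) (w : HeightOneSpectrum (𝓞 L)) (hw : Abv L V w)
    (T : P27 Ω) (hT : T ∈ Tor π Ω) (m : L) (hm : m ≠ 0) (y : Ω) (hyk : Kum L e c T y) (hy : y ^ l = (m : Ω)) :
    ∃ z : L, z ≠ 0 ∧ w.valuation L (m / z ^ l - 1) ≤ WithZero.exp (-2 : ℤ) := by
  rcases dichotomy π l C.hl C.five C.pr C.prim C.dvd with ⟨hin, hq⟩ | ⟨hnd, _, _⟩
  · exact level_inert C hin hq he hL V hV w hw T hT m hm y hyk hy
  · have h3 : V.valuation (3 : Ω) = 1 := by
      have h := lv_unit (lv_coprime C.prim) hV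
      have e : vo V (3 : O) = V.valuation (3 : Ω) :=
        congrArg V.valuation (map_ofNat (ak Ω) 3)
      rw [← e]
      exact h
    have hmax : (Ideal.span {π} : Ideal O).IsMaximal := by
      have hp : (Ideal.span {π} : Ideal O).IsPrime := (Ideal.span_singleton_prime C.pr.ne_zero).2 C.pr
      refine hp.isMaximal ?_
      rw [Ne, Ideal.span_singleton_eq_bot]
      exact C.pr.ne_zero
    have hcj : vo V (cj π) = 1 := by
      apply lv_unit _ hV
      have h1 : cj π ∉ Ideal.span {π} := by
        rw [Ideal.mem_span_singleton]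
        exact hnd
      obtain ⟨b, i, hi, hb⟩ := hmax.exists_inv h1
      rw [Ideal.mem_span_singleton'] at hi
      obtain ⟨a, rfl⟩ := hi
      exact ⟨a, b, by rw [add_comm]; exact hb⟩
    have hVl : V.valuation (l : Ω) < 1 := by
      obtain ⟨u, hu⟩ := C.dvd
      have e : V.valuation (l : Ω) = vo V (l : O) := by
        unfold vo
        simp
      rw [e, hu, lv_mul]
      exact lt_of_le_of_lt (mul_le_of_le_one_right' (lv_le V u)) hV
    refine level_unr L V w hw l C.hl hVl m hm y hy ?_
    intro s hs hi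
    rw [hyk.2 s hs, c_inert_zero C V h3 hcj s hi, ld3_e0 C.hl.ne_zero he hT, one_mul]

end H13S
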