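import Mathlib
import Pool.Agent.Lib.H55R.BF1
import Pool.Agent.Lib.H13S.LV
import Pool.Agent.Lib.H13S.DV
import Pool.Agent.Lib.H13S.OR1
import Pool.Agent.Lib.H13S.OR2
import Pool.Agent.Lib.H13S.EXV
import Pool.Agent.Lib.H13S.GIT
import Pool.Agent.Lib.H13S.KU1
import Pool.Agent.Lib.H13S.KU2
import Pool.Agent.Lib.H13S.CO2
import Pool.Agent.Lib.H13S.PA2

open NumberField IsDedekindDomain

namespace H13S

open H55P H28G H55B H55R

variable {Ω : Type} [Field Ω] [DecidableEq Ω] [Algebra F Ω] [IsAlgClosure F Ω]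

theorem ps_add {π : O} {l : ℕ} {c : (Ω ≃ₐ[F] Ω) → P27 Ω} (C : Cl π l c)
    {e : P27 Ω → P27 Ω → Ω} (he : Pairing π l e) {L : IntermediateField F Ω} (hL : IsTF π L)
    (m : P27 Ω → L) (y : P27 Ω → Ω) (hy : ∀ T ∈ Tor π Ω, Kum L e c T (y T))
    (hm : ∀ T ∈ Tor π Ω, m T ≠ 0 ∧ (m T : Ω) = y T ^ l) (T : P27 Ω) (hT : T ∈ Tor π Ω) (T' : P27 Ω)
    (hT' : T' ∈ Tor π Ω) : ∃ z : L, z ≠ 0 ∧ m (T + T') = m T * m T' * z ^ l := by
  have h1 := AddSubgroup.add_mem _ hT hT'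
  obtain ⟨z, hz0, hz⟩ := kum_ratio hL (hy _ h1) (kum_mul C he hL hT hT' (hy T hT) (hy T' hT'))
  refine ⟨z, hz0, Subtype.ext ?_⟩
  push_cast
  rw [(hm _ h1).2, (hm T hT).2, (hm T' hT').2, hz]
  ring

theorem ps_act {π : O} {l : ℕ} {c : (Ω ≃ₐ[F] Ω) → P27 Ω} (C : Cl π l c)
    {e : P27 Ω → P27 Ω → Ω} (he : Pairing π l e) {L : IntermediateField F Ω} (hL : IsTF π L)
    (m : P27 Ω → L) (y : P27 Ω → Ω) (hy : ∀ T ∈ Tor π Ω, Kum L e c T (y T))
    (hm : ∀ T ∈ Tor π Ω, m T ≠ 0 ∧ (m T : Ω) = y T ^ l) (σ : Ω ≃ₐ[F] Ω) (T : P27 Ω) (hT : T ∈ Tor π Ω) :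
    ∃ x' z : L, z ≠ 0 ∧ (x' : Ω) = σ (m T : Ω) ∧ x' = m (ac W27 σ T) * z ^ l := by
  have h1 := ac_mem σ hT
  obtain ⟨z, hz0, hz⟩ := kum_ratio hL (kum_act C he hL σ hT (hy T hT)) (hy _ h1)
  refine ⟨m (ac W27 σ T) * z ^ l, z, hz0, ?_, rfl⟩
  have hr := he.root _ (C.val σ) _ h1
  push_cast
  rw [(hm T hT).2, (hm _ h1).2, map_pow, mul_comm, ← mul_pow, ← hz, div_pow, hr, div_one]

/-- The valuations. For every prime w of L choose V above w (exists_above). If vo V π < 1: level. If V.valuation 3 < 1: gi_three, dec_val, ord_of_dec. If vo V (cj π) < 1 (and vo V π = 1): dec_conj, dec_val, ord_of_dec. Otherwise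
c_inert_zero, ord_of_unr. -/
theorem ords {π : O} {l : ℕ} {c : (Ω ≃ₐ[F] Ω) → P27 Ω} (C : Cl π l c)
    {e : P27 Ω → P27 Ω → Ω} (he : Pairing π l e) {L : IntermediateField F Ω} (hL : IsTF π L)
    [NumberField L] (m : P27 Ω → L) (y : P27 Ω → Ω) (hy : ∀ T ∈ Tor π Ω, Kum L e c T (y T))
    (hm : ∀ T ∈ Tor π Ω, m T ≠ 0 ∧ (m T : Ω) = y T ^ l) (T : P27 Ω) (hT : T ∈ Tor π Ω)
    (w : HeightOneSpectrum (𝓞 L)) : ∃ k : ℤ, w.valuation L (m T) = WithZero.exp ((l : ℤ) * k) := by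
  have hchar : CharZero Ω := charZero_of_injective_algebraMap (algebraMap F Ω).injective
  obtain ⟨V, hw⟩ := exists_above L w
  have hl0 : l ≠ 0 := C.hl.ne_zero
  have hDV : ∀ s : Ω ≃ₐ[F] Ω, Dec V s → ∀ x x' : L, (x' : Ω) = s (x : Ω) →
      w.valuation L x' = w.valuation L x := fun s hs x x' hx =>
    dec_val hw s hs (fun z => tf_stable hL s z) (fun z => tf_stable hL s⁻¹ z) x x' hx
  have hOR2 : (∃ s : Ω ≃ₐ[F] Ω, Dec V s ∧ ∃ T ∈ Tor π Ω, ac W27 s T ≠ T) →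
      ∃ k : ℤ, w.valuation L (m T) = WithZero.exp ((l : ℤ) * k) := by
    rintro ⟨s, hs, hmv⟩
    exact ord_of_dec π C.pr C.prim l hl0 L w m (fun T hT => (hm T hT).1)
      (fun T hT T' hT' => ps_add C he hL m y hy hm T hT T' hT') s (hDV s hs)
      (fun T hT => ps_act C he hL m y hy hm s T hT) hmv T hT
  by_cases h1 : vo V π < 1
  · obtain ⟨z, hz0, hz⟩ := level C he hL V h1 w hw T hT (m T) (hm T hT).1 (y T) (hy T hT)
      (hm T hT).2.symm
    have h2 : w.valuation L (m T / z ^ l) = 1 := by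
      have h3 : w.valuation L (m T / z ^ l - 1) < w.valuation L (1 : L) := by
        rw [map_one]
        refine lt_of_le_of_lt hz ?_
        rw [← WithZero.exp_zero, WithZero.exp_lt_exp]
        norm_num
      have h4 := (w.valuation L).map_add_eq_of_lt_left h3
      rw [add_sub_cancel, map_one] at h4
      exact h4
    rw [map_div₀, map_pow] at h2
    have hz1 : w.valuation L z ≠ 0 := by
      rwa [Ne, map_eq_zero]
    have h3 := (div_eq_one_iff_eq (pow_ne_zero l hz1)).1 h2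
    refine ⟨WithZero.log (w.valuation L z), ?_⟩
    rw [h3, ← nsmul_eq_mul, WithZero.exp_nsmul, WithZero.exp_log hz1]
  · have h1' : vo V π = 1 := le_antisymm (ak_le V.valuation π) (not_lt.1 h1)
    by_cases h3 : V.valuation (3 : Ω) < 1
    · refine hOR2 (gi_three π C.pr C.prim ?_ V h3)
      intro h2
      obtain ⟨a, ha⟩ := C.dvd
      obtain ⟨b, hb⟩ := h2
      have hco : IsCoprime ((l : ℤ)) ((2 : ℕ) : ℤ) := by
        rw [Nat.isCoprime_iff_coprime]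
        exact (Nat.coprime_primes C.hl Nat.prime_two).2 (by have := C.five; omega)
      obtain ⟨u, v, huv⟩ := hco
      have h4 : (u : O) * (l : O) + (v : O) * 2 = 1 := by
        exact_mod_cast congrArg (Int.cast : ℤ → O) huv
      apply C.pr.not_isUnit
      refine IsUnit.of_mul_eq_one (u * a + v * b) ?_
      rw [ha, hb] at h4
      linear_combination h4
    · have h3' : V.valuation (3 : Ω) = 1 := by
        refine le_antisymm ?_ (not_lt.1 h3)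
        have h5 : (3 : Ω) ∈ V := by
          have := natCast_mem V 3
          exact_mod_cast this
        exact V.valuation_le_one ⟨3, h5⟩
      by_cases h4 : vo V (cj π) < 1
      · refine hOR2 (dec_conj π l C.hl C.five C.pr C.prim C.dvd ?_ V h4)
        rcases dichotomy π l C.hl C.five C.pr C.prim C.dvd with h5 | h5
        · rw [h5.1] at h4
          exact absurd h4 h1
        · exact h5.1
      · have h4' : vo V (cj π) = 1 := le_antisymm (ak_le V.valuation _) (not_lt.1 h4)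
        refine ord_of_unr L V w hw l (m T) (hm T hT).1 (y T) (hm T hT).2.symm fun s hs hi => ?_
        rw [(hy T hT).2 s hs, c_inert_zero C V h3' h4' s hi, ld3_e0 hl0 he hT, one_mul]

/-- THE SELMER SIDE. -/
theorem partS {π : O} {l : ℕ} {c : (Ω ≃ₐ[F] Ω) → P27 Ω} (C : Cl π l c) {L : IntermediateField F Ω}
    (hL : IsTF π L) [NumberField L] : ∃ m : P27 Ω → (L)ˣ,
      (∀ T ∈ Tor π Ω, ∀ T' ∈ Tor π Ω, ∃ z : (L)ˣ, m (T + T') = m T * m T' * z ^ l) ∧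
      (∀ σ : Ω ≃ₐ[F] Ω, ∀ T ∈ Tor π Ω, ∃ z : (L)ˣ,
        ((m (ac W27 σ T) : L) : Ω) = σ ((m T : L) : Ω) * ((z : L) : Ω) ^ l) ∧
      (∀ T ∈ Tor π Ω, ∀ w : Pl L, (l : ℤ) ∣ ord w (m T)) ∧
      (∀ T ∈ Tor π Ω, ∀ w : Pl L, w.valuation L (algebraMap F L (π : F)) < 1 →
        ∃ z : (L)ˣ, w.valuation L (((m T * (z ^ l)⁻¹ : (L)ˣ) : L) - 1) ≤ WithZero.exp (-2 : ℤ)) ∧
      ((∀ T ∈ Tor π Ω, ∃ z : (L)ˣ, m T = z ^ l) →
        ∃ X ∈ Tor (cj π) Ω, ∀ s, c s = ac W27 s X - X) := by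
  classical
  obtain ⟨e, he⟩ := exists_pairing (Ω := Ω) π l C.hl C.five C.pr C.prim C.dvd
  have h1 : ∀ T : P27 Ω, ∃ y : Ω, T ∈ Tor π Ω → Kum L e c T y := fun T => by
    by_cases hT : T ∈ Tor π Ω
    · obtain ⟨y, hy⟩ := exists_kum C he hL hT
      exact ⟨y, fun _ => hy⟩
    · exact ⟨0, fun h => absurd h hT⟩
  choose y hy using h1
  have h2 : ∀ T : P27 Ω, ∃ m : (L)ˣ, T ∈ Tor π Ω → ((m : L) : Ω) = y T ^ l := fun T => by
    by_cases hT : T ∈ Tor π Ω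
    · obtain ⟨m, hm, hm0⟩ := kum_pow C he hL hT (hy T hT)
      exact ⟨Units.mk0 m hm0, fun _ => hm⟩
    · exact ⟨1, fun h => absurd h hT⟩
  choose m hm using h2
  have hm' : ∀ T ∈ Tor π Ω, ((m T : (L)ˣ) : L) ≠ 0 ∧ (((m T : (L)ˣ) : L) : Ω) = y T ^ l := fun T hT =>
    ⟨(m T).ne_zero, hm T hT⟩
  refine ⟨m, ?_, ?_, ?_, ?_, ?_⟩
  · intro T hT T' hT'
    obtain ⟨z, hz0, hz⟩ := ps_add C he hL (fun T => (m T : L)) y hy hm' T hT T' hT'
    refine ⟨Units.mk0 z hz0, Units.ext ?_⟩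
    push_cast
    exact hz
  · intro σ T hT
    obtain ⟨x', z, hz0, hx, hz⟩ := ps_act C he hL (fun T => (m T : L)) y hy hm' σ T hT
    refine ⟨(Units.mk0 z hz0)⁻¹, ?_⟩
    have h3 : ((z : L) : Ω) ≠ 0 := by
      exact_mod_cast hz0
    have h4 : ((((Units.mk0 z hz0)⁻¹ : (L)ˣ) : L) : Ω) = (z : Ω)⁻¹ := by
      rw [Units.val_inv_eq_inv_val]
      push_cast
      rfl
    have h5 : σ (((m T : (L)ˣ) : L) : Ω) = (((m (ac W27 σ T) : (L)ˣ) : L) : Ω) * (z : Ω) ^ l := by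
      rw [← hx, hz]
      push_cast
      rfl
    rw [h4, h5, inv_pow, mul_assoc, mul_inv_cancel₀ (pow_ne_zero l h3), mul_one]
  · intro T hT w
    obtain ⟨k, hk⟩ := ords C he hL (fun T => (m T : L)) y hy hm' T hT w
    have h3 := BF1_val w (m T)
    rw [hk] at h3
    have h4 : (l : ℤ) * k = -ord w (m T) := WithZero.exp_injective h3
    exact ⟨-k, by linarith⟩
  · intro T hT w hwπ
    obtain ⟨V, hw⟩ := exists_above L w
    have hV : vo V π < 1 := (hw.lt _).2 hwπ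
    obtain ⟨z, hz0, hz⟩ := level C he hL V hV w hw T hT (m T) (m T).ne_zero (y T) (hy T hT)
      (hm T hT).symm
    refine ⟨Units.mk0 z hz0, ?_⟩
    rw [Units.val_mul, Units.val_inv_eq_inv_val, Units.val_pow_eq_pow_val, Units.val_mk0,
      ← div_eq_mul_inv]
    exact hz
  · intro h
    refine cob_of_kum C he hL fun T hT => ?_
    obtain ⟨z, hz⟩ := h T hT
    refine ⟨y T, hy T hT, z, ?_⟩
    rw [← hm T hT, hz]
    push_cast
    rfl

end H13S
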