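import Mathlib
import Pool.Agent.Lib.H55B.E3
import Pool.Agent.Lib.H13S.DC

open NumberField IsDedekindDomain

namespace H13S

open H55P H28G H55B

variable {Ω : Type} [Field Ω] [DecidableEq Ω] [Algebra F Ω] [IsAlgClosure F Ω]

/-- Integers in O. -/
theorem s0_cast (l : ℕ) : (l : O) = ((l : ℤ) : O) + ((0 : ℤ) : O) * om := by
  push_cast
  ring

theorem s0_nonunit (l : ℕ) (hl : l.Prime) : ¬ IsUnit (l : O) := by
  intro h
  rw [← Nm_eq_one] at h
  have h1 := Nm_repr (l : ℤ) 0
  rw [← s0_cast, h] at h1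
  push_cast at h1
  have h2 : (l : ℤ) ^ 2 = 1 := by linarith
  have h3 : l ^ 2 = 1 := by exact_mod_cast h2
  have h4 := hl.two_le
  nlinarith

theorem s0_coprime (l : ℕ) (hl : l.Prime) (h5 : 5 ≤ l) : IsCoprime (l : O) 3 := by
  have h1 : Nat.Coprime l 3 := by
    rw [Nat.coprime_primes hl Nat.prime_three]
    omega
  have h2 : IsCoprime (l : ℤ) (3 : ℤ) := Nat.isCoprime_iff_coprime.2 h1
  have h3 := h2.map (Int.castRingHom O)
  simpa using h3

/-- A primary prime dividing l. -/
theorem s0_prime (l : ℕ) (hl : l.Prime) (h5 : 5 ≤ l) : ∃ π : O, Prime π ∧ Prim π ∧ π ∣ (l : O) := by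
  have h0 : (l : O) ≠ 0 := Nat.cast_ne_zero.2 hl.ne_zero
  obtain ⟨p, hp, hpl⟩ := WfDvdMonoid.exists_irreducible_factor (s0_nonunit l hl) h0
  have hc : IsCoprime p 3 := (s0_coprime l hl h5).of_isCoprime_of_dvd_left hpl
  obtain ⟨u, hu⟩ := exists_unit_prim hc
  refine ⟨u * p, ?_, hu, ?_⟩
  · exact (associated_unit_mul_left p (u : O) u.isUnit).symm.prime (irreducible_iff_prime.1 hp)
  · exact (Units.mul_left_dvd).2 hpl

theorem s0_cj_nat (l : ℕ) : cj (l : O) = (l : O) := map_natCast cj l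

theorem s0_prim {π : O} (h : Prim π) : Prim (cj π) := by
  obtain ⟨x, hx⟩ := h
  refine ⟨cj x, ?_⟩
  have h1 := congrArg cj hx
  rw [map_sub, map_mul, map_one, map_ofNat] at h1
  exact h1

theorem s0_dvd {π : O} {l : ℕ} (h : π ∣ (l : O)) : cj π ∣ (l : O) := by
  have h1 := map_dvd cj h
  rw [s0_cj_nat] at h1
  exact h1

omit [IsAlgClosure F Ω] in
/-- Multiples of a cocycle. -/
theorem s0_cl {π : O} {l : ℕ} (hl : l.Prime) (h5 : 5 ≤ l) (hπ : Prime π) (h3 : Prim π)
    (hd : π ∣ (l : O)) {c : (Ω ≃ₐ[F] Ω) → P27 Ω} (h1 : Coc W27 (⊥ : IntermediateField F Ω) c)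
    (hloc : ∀ V : ValuationSubring Ω, ∃ P : P27 Ω, ∀ s : Ω ≃ₐ[F] Ω, Inert V s → c s = ac W27 s P - P)
    (a : O) (hv : ∀ s, act (cj π) (act a (c s)) = 0) : Cl π l fun s => act a (c s) := by
  have hbot : ∀ s : Ω ≃ₐ[F] Ω, s ∈ (⊥ : IntermediateField F Ω).fixingSubgroup := by
    intro s
    rw [IntermediateField.fixingSubgroup_bot]
    exact Subgroup.mem_top s
  refine ⟨hl, h5, hπ, h3, hd, ?_, ?_, hv, ?_⟩
  · intro s t
    show act a (c (s * t)) = act a (c s) + ac W27 s (act a (c t))
    rw [h1.mul s (hbot s) t (hbot t), map_add, ac_act]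
  · obtain ⟨L, hL1, hL2⟩ := h1.cont
    refine ⟨L, hL1, fun s hs => ?_⟩
    show act a (c s) = 0
    rw [hL2 s (hbot s) hs, map_zero]
  · intro V
    obtain ⟨P, hP⟩ := hloc V
    refine ⟨act a P, fun s hs => ?_⟩
    show act a (c s) = ac W27 s (act a P) - act a P
    rw [hP s hs, map_sub, ac_act]

/-- Chunk S0 (M). Decomposition of a Selmer class. π = a primary prime of O dividing l (gen of a prime above l; l ≥ 5 is prime to 3). c : Coc W27 bottom (fixingSubgroup of bottom is everything), l • c s = 0, so act l (c s) = 0. dichotomy.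
If cj π = π, Nm π = l^2: l = π u, u a unit (Nm l = l^2), so act π (c s) = 0: Cl π l c. H gives X in Tor π, l • X = 0.
Otherwise π, cj π are coprime, both divide l, so π cj π divides l (equal up to a unit: norms): a π + b (cj π) = 1. c₁ s = act (a π) (c s), c₂ s = act (b cj π) (c s): c = c₁ + c₂. act (cj π) (c₁ s) = act (a π cj π) (c s) = 0: l = π cj π u. So Cl π l c₁ (loc: P replaced
by act (a π) P, ac_act), Cl (cj π) l c₂ (cj (cj π) = π; cj π is a primary prime dividing l). X = X₁ + X₂, l • X = 0. -/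
theorem selzero_of (l : ℕ) (hl : l.Prime) (h5 : 5 ≤ l)
    (H : ∀ (π : O) (c : (Ω ≃ₐ[F] Ω) → P27 Ω), Cl π l c → ∃ X ∈ Tor (cj π) Ω, ∀ s, c s = ac W27 s X - X) :
    SelZero W27 l (⊥ : IntermediateField F Ω) := by
  intro c hc hlc hloc
  have hbot : ∀ s : Ω ≃ₐ[F] Ω, s ∈ (⊥ : IntermediateField F Ω).fixingSubgroup := by
    intro s
    rw [IntermediateField.fixingSubgroup_bot]
    exact Subgroup.mem_top s
  have hloc' : ∀ V : ValuationSubring Ω, ∃ P : P27 Ω, ∀ s : Ω ≃ₐ[F] Ω, Inert V s →
      c s = ac W27 s P - P := by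
    intro V
    obtain ⟨P, hP⟩ := hloc V
    exact ⟨P, fun s hs => hP s (hbot s) hs⟩
  have hlc' : ∀ s, act (l : O) (c s) = 0 := by
    intro s
    rw [act_nat]
    exact hlc s (hbot s)
  obtain ⟨π, hπ, h3, hd⟩ := s0_prime l hl h5
  have hmul := mul_cj π
  rcases dichotomy π l hl h5 hπ h3 hd with ⟨h1, h2⟩ | ⟨h1, h2, -⟩
  · rw [h1, h2] at hmul
    push_cast at hmul
    obtain ⟨u, hu⟩ := hd
    have hu2 : u * u = 1 := by
      have e : (π * π) * (u * u) = (π * π) * 1 := by
        rw [mul_one]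
        nth_rewrite 2 [hmul]
        rw [hu]
        ring
      exact mul_left_cancel₀ (mul_ne_zero hπ.ne_zero hπ.ne_zero) e
    have hv : ∀ s, act π (c s) = 0 := by
      intro s
      have e : π = u * (l : O) := by
        rw [hu]
        linear_combination (-π) * hu2
      rw [e, act_mul, hlc', map_zero]
    have hC := s0_cl hl h5 hπ h3 ⟨u, hu⟩ hc hloc' 1 (by
      intro s
      rw [act_one, h1]
      exact hv s)
    obtain ⟨X, hX, hX2⟩ := H π _ hC
    refine ⟨X, ?_, fun s _ => ?_⟩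
    · have e : act (l : O) X = 0 := by
        rw [h1] at hX
        have hX3 : act π X = 0 := hX
        rw [hu, mul_comm, act_mul, hX3, map_zero]
      rw [act_nat] at e
      exact e
    · have h4 := hX2 s
      change act (1 : O) (c s) = _ at h4
      rw [act_one] at h4
      exact h4
  · rw [h2] at hmul
    have hco : IsCoprime π (cj π) := (hπ.irreducible.coprime_iff_not_dvd).2 h1
    obtain ⟨a, b, hab⟩ := hco
    have hπ' : Prime (cj π) := (MulEquiv.prime_iff cj).2 hπ
    have hC1 := s0_cl hl h5 hπ h3 hd hc hloc' (a * π) (by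
      intro s
      rw [← act_mul]
      have e : cj π * (a * π) = a * (l : O) := by
        linear_combination a * hmul
      rw [e, act_mul, hlc', map_zero])
    have hC2 := s0_cl hl h5 hπ' (s0_prim h3) (s0_dvd hd) hc hloc' (b * cj π) (by
      intro s
      rw [← act_mul, cj_cj]
      have e : π * (b * cj π) = b * (l : O) := by
        linear_combination b * hmul
      rw [e, act_mul, hlc', map_zero])
    obtain ⟨X, hX, hX2⟩ := H π _ hC1
    obtain ⟨Y, hY, hY2⟩ := H (cj π) _ hC2
    rw [cj_cj] at hY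
    refine ⟨X + Y, ?_, fun s _ => ?_⟩
    · have hX3 : act (cj π) X = 0 := hX
      have hY3 : act π Y = 0 := hY
      have e : act (l : O) (X + Y) = 0 := by
        rw [map_add, ← hmul]
        nth_rewrite 2 [mul_comm]
        rw [act_mul, act_mul, hX3, hY3, map_zero, map_zero, add_zero]
      rw [act_nat] at e
      exact e
    · have h4 := hX2 s
      have h5' := hY2 s
      change act (a * π) (c s) = _ at h4
      change act (b * cj π) (c s) = _ at h5'
      have e : c s = act (a * π) (c s) + act (b * cj π) (c s) := by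
        rw [← act_add, hab, act_one]
      rw [e, h4, h5', map_add]
      abel

end H13S
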